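import Pool.Agent.Lib.MP_9f219e_an.Param

/-!
A subgroup of `ℤ[X]` with prescribed numbers of points on the orbits of multiplication by `X`.
-/

open Set Polynomial

namespace Pool.Agent.Lib.MP_9f219e_an

lemma xfree_unique {q q' : ℤ[X]} (h : ¬X ∣ q) (h' : ¬X ∣ q') {r s : ℕ}
    (e : X ^ r * q = X ^ s * q') : r = s ∧ q = q' := by
  wlog hr : r ≤ s generalizing q q' r s
  · have := this h' h e.symm (not_le.1 hr).le
    exact ⟨this.1.symm, this.2.symm⟩
  obtain ⟨t, rfl⟩ := Nat.exists_eq_add_of_le hr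
  rw [pow_add, mul_assoc, mul_right_inj' (by simp)] at e
  cases t with
  | zero => simpa using e
  | succ t => exact (h ⟨X ^ t * q', by rw [e]; ring⟩).elim

lemma exists_xfree {p : ℤ[X]} (hp : p ≠ 0) : ∃ q r, ¬X ∣ q ∧ p = X ^ r * q := by
  obtain ⟨q, h1, h2⟩ := exists_eq_pow_rootMultiplicity_mul_and_not_dvd p hp 0
  exact ⟨q, _, by simpa using h2, by simpa using h1⟩

/-- exponents in the subgroup -/
def Ex (Λ : Submodule ℤ ℤ[X]) (q : ℤ[X]) : Set ℕ := {r | X ^ r * q ∈ Λ}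

/-- purity -/
def Pure (Λ : Submodule ℤ ℤ[X]) : Prop := ∀ (a : ℤ) β, a ≠ 0 → C a * β ∈ Λ → β ∈ Λ

lemma Pure.ex {Λ : Submodule ℤ ℤ[X]} (h : Pure Λ) {a : ℤ} (ha : a ≠ 0) (q : ℤ[X]) :
    Ex Λ (C a * q) = Ex Λ q := by
  ext r
  simp only [Ex, mem_ofPred_eq, mul_left_comm _ (C a)]
  exact ⟨h a _ ha, fun h => by simpa [smul_eq_C_mul] using Λ.smul_mem a h⟩

/-- the invariant -/
def Inv (s : ℕ → ℕ∞) (p : Submodule ℤ ℤ[X] × ℕ) : Prop :=
  (∀ l ∈ p.1, l.natDegree ≤ p.2) ∧ Pure p.1 ∧ ∀ q, ¬X ∣ q → (Ex p.1 q).encard ≤ s q.natDegree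

lemma step0 {s : ℕ → ℕ∞} (hs : ∀ k, 1 ≤ s k) {Λ : Submodule ℤ ℤ[X]} {D : ℕ} (h : Inv s (Λ, D))
    {α : ℤ[X]} (h1 : α.IsPrimitive) (h2 : ¬X ∣ α) (h3 : (Ex Λ α).encard < s α.natDegree) :
    Inv s (Λ ⊔ Submodule.span ℤ {X ^ (2 * D + 1) * α}, 2 * D + 1 + α.natDegree) ∧
      ∀ a : ℤ, a • (X ^ (2 * D + 1) * α) ∈ Λ → a = 0 := by
  have a0 : α ≠ 0 := fun e => h2 (by simp [e])
  have mem : ∀ β, β ∈ Λ ⊔ Submodule.span ℤ {X ^ (2 * D + 1) * α} ↔
      ∃ l ∈ Λ, ∃ a : ℤ, β = l + C a * (X ^ (2 * D + 1) * α) := fun β => by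
    simp only [Submodule.mem_sup, Submodule.mem_span_singleton, smul_eq_C_mul]
    exact ⟨fun ⟨l, hl, _, ⟨a, rfl⟩, e⟩ => ⟨l, hl, a, e.symm⟩,
      fun ⟨l, hl, a, e⟩ => ⟨l, hl, _, ⟨a, rfl⟩, e.symm⟩⟩
  have d1 : ∀ a : ℤ, a ≠ 0 →
      (C a * (X ^ (2 * D + 1) * α)).natDegree = 2 * D + 1 + α.natDegree := fun a ha => by
    rw [natDegree_C_mul ha, natDegree_X_pow_mul _ a0, add_comm]
  have d2 : ∀ l ∈ Λ, ∀ a : ℤ, a ≠ 0 →
      (l + C a * (X ^ (2 * D + 1) * α)).natDegree = 2 * D + 1 + α.natDegree := fun l hl a ha => by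
    have := h.1 l hl
    rw [natDegree_add_eq_right_of_natDegree_lt (by rw [d1 a ha]; omega), d1 a ha]
  refine ⟨⟨fun β hβ => ?_, fun a β ha hβ => ?_, fun q hq => ?_⟩, fun a ha => ?_⟩
  · obtain ⟨l, hl, a, rfl⟩ := (mem β).1 hβ
    by_cases ha : a = 0
    · have := h.1 l hl
      simp only [ha, C_0, zero_mul, add_zero] at *; omega
    · exact (d2 l hl a ha).le
  · obtain ⟨l, hl, c, e⟩ := (mem _).1 hβ
    have mo : (X ^ (2 * D + 1) : ℤ[X]).Monic := monic_X_pow _
    have e1 := modByMonic_add_div β (X ^ (2 * D + 1))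
    have e2 : C a * (β %ₘ X ^ (2 * D + 1)) - l =
        X ^ (2 * D + 1) * (C c * α - C a * (β /ₘ X ^ (2 * D + 1))) := by
      linear_combination e + C a * e1
    have e3 : C a * (β %ₘ X ^ (2 * D + 1)) - l = 0 := by
      refine eq_zero_of_dvd_of_natDegree_lt ⟨_, e2⟩ ((natDegree_sub_le _ _).trans_lt (max_lt ?_ ?_))
      · rw [natDegree_C_mul ha]
        exact natDegree_modByMonic_lt _ mo (fun e => by simpa using congrArg natDegree e)
      · have := h.1 l hl
        rw [natDegree_X_pow]; omega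
    rw [e3, eq_comm, mul_eq_zero, sub_eq_zero] at e2
    replace e2 := e2.resolve_left mo.ne_zero
    have e4 := congrArg content e2
    rw [content_C_mul, content_C_mul, h1.content_eq_one, mul_one] at e4
    obtain ⟨c', rfl⟩ : a ∣ c := dvd_normalize_iff.1 (normalize_dvd_iff.1 ⟨_, e4⟩)
    rw [C_mul, mul_assoc, mul_right_inj' (C_ne_zero.2 ha)] at e2
    refine (mem _).2 ⟨_, h.2.1 a _ ha (by rwa [sub_eq_zero.1 e3]), c', ?_⟩
    linear_combination -e1 - X ^ (2 * D + 1) * e2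
  · have q0 : q ≠ 0 := fun e => hq (by simp [e])
    by_cases hn : Ex (Λ ⊔ Submodule.span ℤ {X ^ (2 * D + 1) * α}) q ⊆ Ex Λ q
    · exact (encard_le_encard hn).trans (h.2.2 q hq)
    have dg : ∀ r, r ∈ Ex (Λ ⊔ Submodule.span ℤ {X ^ (2 * D + 1) * α}) q → r ∉ Ex Λ q →
        ∃ l ∈ Λ, ∃ a : ℤ, a ≠ 0 ∧ X ^ r * q = l + C a * (X ^ (2 * D + 1) * α) ∧
          q.natDegree + r = 2 * D + 1 + α.natDegree := fun r a1 a2 => by
      obtain ⟨l, hl, a, e⟩ := (mem _).1 a1
      have ha : a ≠ 0 := fun e' => a2 (by simpa [Ex, e, e'] using hl)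
      exact ⟨l, hl, a, ha, e, by rw [← d2 l hl a ha, ← e, natDegree_X_pow_mul _ q0]⟩
    obtain ⟨r, r1, r2⟩ := not_subset.1 hn
    obtain ⟨l, hl, a, ha, e, dr⟩ := dg r r1 r2
    have sub : Ex (Λ ⊔ Submodule.span ℤ {X ^ (2 * D + 1) * α}) q ⊆ insert r (Ex Λ q) :=
      fun t ht => by
        by_contra h'
        rw [mem_insert_iff, not_or] at h'
        obtain ⟨-, -, -, -, -, dt⟩ := dg t ht h'.2
        omega
    refine (encard_le_encard sub).trans ((encard_insert_le _ _).trans ?_)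
    by_cases l0 : l = 0
    · rw [l0, zero_add, mul_left_comm] at e
      have := (xfree_unique hq (fun hd => ?_) e).2
      · rw [this, h.2.1.ex ha, natDegree_C_mul ha]
        exact Order.add_one_le_of_lt h3
      · rcases prime_X.dvd_or_dvd hd with hd | hd
        · exact ha (by simpa [X_dvd_iff] using hd)
        · exact h2 hd
    · have : Ex Λ q = ∅ := eq_empty_of_forall_notMem fun t ht => by
        have b1 := h.1 _ ht
        have b2 := h.1 _ hl
        have b3 : X ^ min r (2 * D + 1) ∣ l := by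
          rw [← sub_eq_iff_eq_add.2 e]
          exact ((pow_dvd_pow _ (min_le_left _ _)).mul_right _).sub
            (((pow_dvd_pow _ (min_le_right _ _)).mul_right _).mul_left _)
        have b4 := natDegree_le_of_dvd b3 l0
        rw [natDegree_X_pow_mul _ q0] at b1
        rw [natDegree_X_pow] at b4
        omega
      simpa [this] using hs _
  · by_contra h0
    have := h.1 _ ha
    rw [smul_eq_C_mul, d1 a h0] at this
    omega

lemma step1 {s : ℕ → ℕ∞} (hs : ∀ k, 1 ≤ s k) (p : {p // Inv s p}) (α : ℤ[X]) :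
    ∃ (p' : {p // Inv s p}) (b : ℤ[X]), p'.1.1 = p.1.1 ⊔ Submodule.span ℤ {b} ∧
      (∀ a : ℤ, a • b ∈ p.1.1 → a = 0) ∧ p.1.2 < p'.1.2 ∧
      (α.IsPrimitive → ¬X ∣ α → (Ex p.1.1 α).encard < s α.natDegree →
        ∃ N > p.1.2, b = X ^ N * α) := by
  obtain ⟨⟨Λ, D⟩, h⟩ := p
  by_cases hα : α.IsPrimitive ∧ ¬X ∣ α ∧ (Ex Λ α).encard < s α.natDegree
  · have := step0 hs h hα.1 hα.2.1 hα.2.2
    exact ⟨⟨_, this.1⟩, _, rfl, this.2, by simp only; omega,
      fun _ _ _ => ⟨_, by simp only; omega, rfl⟩⟩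
  · have mo := monic_X_pow_add_C (1 : ℤ) D.succ_ne_zero
    have := step0 hs h mo.isPrimitive (by simp [X_dvd_iff]) (by
      have : Ex Λ (X ^ (D + 1) + C 1) = ∅ := eq_empty_of_forall_notMem fun t ht => by
        have b1 := h.1 _ ht
        rw [natDegree_X_pow_mul _ mo.ne_zero, natDegree_X_pow_add_C] at b1
        omega
      rw [this, encard_empty]
      exact zero_lt_one.trans_le (hs _))
    exact ⟨⟨_, this.1⟩, _, rfl, this.2, by simp only; omega,
      fun a b c => (hα ⟨a, b, c⟩).elim⟩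

theorem exists_group {s : ℕ → ℕ∞} (hs : ∀ k, 1 ≤ s k) : ∃ b : ℕ → ℤ[X],
    Function.Injective (Finsupp.linearCombination ℤ b) ∧ ∀ q, ¬X ∣ q →
      (Ex (LinearMap.range (Finsupp.linearCombination ℤ b)) q).encard = s q.natDegree := by
  obtain ⟨en, hen⟩ := exists_surjective_nat ℤ[X]
  choose nx bb h1 h2 h3 h4 using step1 hs
  obtain ⟨p, p0, p1⟩ : ∃ p : ℕ → {p // Inv s p}, (p 0).1.1 = ⊥ ∧
      ∀ k, p (k + 1) = nx (p k) (en k.unpair.1) := ⟨fun k => Nat.rec (motive := fun _ => _)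
    ⟨(⊥, 0), by simp, fun a β ha h => by simpa [ha] using h, fun q hq => by
      have q0 : q ≠ 0 := fun e => hq (by simp [e])
      simp [Ex, q0]⟩ (fun k p => nx p (en k.unpair.1)) k, rfl, fun _ => rfl⟩
  let b : ℕ → ℤ[X] := fun k => bb (p k) (en k.unpair.1)
  set B := Finsupp.linearCombination ℤ b with hB
  have s1 : ∀ k, (p (k + 1)).1.1 = (p k).1.1 ⊔ Submodule.span ℤ {b k} := fun k => by rw [p1, h1]
  have mono : Monotone fun k => (p k).1.1 := monotone_nat_of_le_succ fun k => by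
    rw [s1]; exact le_sup_left
  have dk : ∀ k, k ≤ (p k).1.2 := fun k => by
    induction k with
    | zero => omega
    | succ k ih => have := h3 (p k) (en k.unpair.1); rw [p1]; omega
  have a1 : ∀ k (u : ℕ →₀ ℤ), (∀ i, k ≤ i → u i = 0) → B u ∈ (p k).1.1 ∧ (B u = 0 → u = 0) := by
    intro k
    induction k with
    | zero =>
      intro u hu
      obtain rfl : u = 0 := Finsupp.ext fun i => hu i i.zero_le
      simp
    | succ k ih =>
      intro u hu
      have := ih (u.erase k) fun i hi => by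
        rcases hi.eq_or_lt with rfl | hi
        · simp
        · rw [Finsupp.erase_ne hi.ne', hu i hi]
      have e : B u = B (u.erase k) + u k • b k := by
        conv_lhs => rw [← u.erase_add_single k, map_add, hB, Finsupp.linearCombination_single]
      refine ⟨?_, fun h0 => ?_⟩
      · rw [e, s1]
        exact Submodule.add_mem_sup this.1
          (Submodule.smul_mem _ _ (Submodule.mem_span_singleton_self _))
      · have z : u k = 0 := h2 _ _ _ (by
          rw [← Submodule.add_mem_iff_right _ this.1, ← e, h0]; exact Submodule.zero_mem _)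
        rw [h0, z, zero_smul, add_zero] at e
        rw [← u.erase_add_single k, this.2 e.symm, z]; simp
  have a2 : ∀ u : ℕ →₀ ℤ, ∃ k, ∀ i, k ≤ i → u i = 0 := fun u =>
    ⟨u.support.sup id + 1, fun i hi => Finsupp.notMem_support_iff.1 fun h => by
      have := Finset.le_sup (f := id) h
      simp only [id] at this; omega⟩
  have a3 : ∀ k, (p k).1.1 ≤ LinearMap.range B := fun k => by
    induction k with
    | zero => simp [p0]
    | succ k ih =>
      rw [s1]
      exact sup_le ih ((Submodule.span_singleton_le_iff_mem _ _).2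
        ⟨Finsupp.single k 1, by simp [hB]⟩)
  have a4 : ∀ β ∈ LinearMap.range B, ∃ k, β ∈ (p k).1.1 := by
    rintro _ ⟨u, rfl⟩
    exact (a2 u).imp fun k hk => (a1 k u hk).1
  have pure : Pure (LinearMap.range B) := fun a β ha h => by
    obtain ⟨k, hk⟩ := a4 _ h
    exact a3 k ((p k).2.2.1 a β ha hk)
  refine ⟨b, (injective_iff_map_eq_zero _).2 fun u hu => ?_, fun q hq => le_antisymm ?_ ?_⟩
  · obtain ⟨k, hk⟩ := a2 u
    exact (a1 k u hk).2 hu
  · by_contra hlt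
    rw [not_le] at hlt
    obtain ⟨t, t1, t2⟩ := exists_subset_encard_eq (Order.add_one_le_of_lt hlt)
    have tf : t.Finite := finite_of_encard_le_coe (k := (s q.natDegree).toNat + 1) (by
      rw [t2, Nat.cast_add, ENat.coe_toNat hlt.ne_top]; rfl)
    choose! k hk using fun r (hr : r ∈ t) => a4 _ (t1 hr)
    obtain ⟨K, hK⟩ := (tf.image k).bddAbove
    have := (encard_le_encard (show t ⊆ Ex (p K).1.1 q from fun r hr =>
      mono (hK (mem_image_of_mem _ hr)) (hk r hr))).trans ((p K).2.2.2 q hq)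
    rw [t2] at this
    exact absurd this (not_le.2 ((ENat.lt_add_one_iff hlt.ne_top).2 le_rfl))
  · have q0 : q ≠ 0 := fun e => hq (by simp [e])
    have e := pure.ex (content_eq_zero_iff.not.2 q0) q.primPart
    rw [← eq_C_content_mul_primPart] at e
    rw [e, ← natDegree_primPart]
    by_contra hlt
    rw [not_le] at hlt
    refine (infinite_of_forall_exists_gt fun k0 => ?_) (encard_lt_top_iff.1 (hlt.trans_le le_top))
    obtain ⟨m, hm⟩ := hen q.primPart
    have e1 : en (Nat.pair m k0).unpair.1 = q.primPart := by simp [hm]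
    obtain ⟨N, n1, n2⟩ := h4 (p (Nat.pair m k0)) _ (e1 ▸ q.isPrimitive_primPart)
      (e1 ▸ fun h => hq (h.trans q.primPart_dvd))
      (by rw [e1]; exact lt_of_le_of_lt (encard_le_encard fun r hr => a3 _ hr) hlt)
    refine ⟨N, ⟨Finsupp.single (Nat.pair m k0) 1, ?_⟩,
      ((Nat.right_le_pair m k0).trans (dk _)).trans_lt n1⟩
    rw [← e1, ← n2]; simp [hB, b]

theorem alg {M : Set ℕ∞} (hM : M.Nonempty) (h0 : 0 ∉ M) :
    ∃ (b : ℕ → ℤ[X]) (rep : {u : ℕ →₀ ℤ // u ≠ 0} → ℤ[X]),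
      (∀ u, ¬X ∣ rep u ∧ ∃ r, Finsupp.linearCombination ℤ b u.1 = X ^ r * rep u) ∧
      (range fun u => (rep ⁻¹' {rep u}).encard) = M := by
  obtain ⟨s, hs⟩ := M.to_countable.exists_eq_range hM
  obtain ⟨b, b1, b2⟩ := exists_group (s := s) fun k =>
    Order.one_le_iff_ne_zero.2 fun e => h0 (by rw [hs]; exact ⟨k, e⟩)
  choose rep ex r1 r2 using fun u : {u : ℕ →₀ ℤ // u ≠ 0} =>
    exists_xfree (p := Finsupp.linearCombination ℤ b u.1) fun e => u.2 (b1 (by simpa using e))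
  have im : ∀ q, ¬X ∣ q → ex '' (rep ⁻¹' {q}) =
      Ex (LinearMap.range (Finsupp.linearCombination ℤ b)) q := fun q hq => by
    ext r
    refine ⟨?_, fun ⟨u, hu⟩ => ?_⟩
    · rintro ⟨u, rfl, rfl⟩
      exact ⟨u.1, r2 u⟩
    · have u0 : u ≠ 0 := by
        rintro rfl
        exact hq (by simp [(mul_eq_zero.1 (hu.symm.trans (map_zero _))).resolve_left (by simp)])
      have := xfree_unique (r1 ⟨u, u0⟩) hq ((r2 _).symm.trans hu)
      exact ⟨⟨u, u0⟩, this.2, this.1⟩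
  have cd : ∀ q, ¬X ∣ q → (rep ⁻¹' {q}).encard = s q.natDegree := fun q hq => by
    rw [← b2 q hq, ← im q hq, InjOn.encard_image]
    intro u hu v hv e
    exact Subtype.ext (b1 (by rw [r2, r2, e, hu.trans hv.symm]))
  refine ⟨b, rep, fun u => ⟨r1 u, _, r2 u⟩, ?_⟩
  rw [hs]
  ext k
  constructor
  · rintro ⟨u, rfl⟩
    exact ⟨_, (cd _ (r1 u)).symm⟩
  · rintro ⟨d, rfl⟩
    have hq : ¬X ∣ (X ^ d + C 1 : ℤ[X]) := by
      cases d <;> simp [X_dvd_iff]
    have e := cd _ hq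
    rw [natDegree_X_pow_add_C] at e
    obtain ⟨u, hu⟩ := encard_ne_zero.1 (e.trans_ne fun e' => h0 (by rw [hs]; exact ⟨d, e'⟩))
    exact ⟨u, by simp only [mem_singleton_iff.1 hu, e]⟩

end Pool.Agent.Lib.MP_9f219e_an
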