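import Pool.Agent.Lib.MP_9f219e_an.Tower

/-!
One stage of the construction.
-/

open Set

namespace Pool.Agent.Lib.MP_9f219e_an

variable {n h : ℕ}

/-- shift each cycle -/
def sh (c : ZMod n → ZMod h) : Equiv.Perm (ZMod n × ZMod h) where
  toFun q := (q.1, q.2 + c q.1)
  invFun q := (q.1, q.2 - c q.1)
  left_inv q := by simp
  right_inv q := by simp

/-- rotate the cycles -/
def rot : Equiv.Perm (ZMod n × ZMod h) := (Equiv.addRight 1).prodCongr (Equiv.refl _)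

lemma sh_apply (c : ZMod n → ZMod h) (i : ZMod n) (x : ZMod h) : sh c (i, x) = (i, x + c i) := rfl
lemma rot_apply (i : ZMod n) (x : ZMod h) : rot (i, x) = (i + 1, x) := rfl
lemma sh_mul (c c' : ZMod n → ZMod h) : sh c * sh c' = sh (c + c') :=
  Equiv.ext fun q => Prod.ext rfl (by
    change q.2 + c' q.1 + c q.1 = q.2 + (c q.1 + c' q.1); ring)
lemma sh_inv (c : ZMod n → ZMod h) : (sh c)⁻¹ = sh (-c) :=
  Equiv.ext fun q => Prod.ext rfl (sub_eq_add_neg _ _)
lemma sh_pow (c : ZMod n → ZMod h) (s : ℕ) : sh c ^ s = sh fun i => (s : ZMod h) * c i := by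
  induction s with
  | zero => exact Equiv.ext fun q => Prod.ext rfl (by simp [sh])
  | succ s ih => rw [pow_succ, ih, sh_mul]; congr 1; ext i; simp [add_mul]

/-- the shifts of the next stage -/
def kap (R L : ℕ) (m : ZMod n) : ℕ := L * R ^ m.val + if m = 0 then 1 else 0

lemma exists_fin_zmod (h : ℕ) [NeZero h] : ∃ e : Fin h ≃ ZMod h, ∀ a, e a = (a : ℕ) := by
  obtain ⟨h, rfl⟩ := Nat.exists_eq_succ_of_ne_zero (NeZero.ne h)
  exact ⟨Equiv.refl _, fun a => (ZMod.natCast_zmod_val (n := h + 1) a).symm⟩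

lemma exists_fun_fin (n R : ℕ) [NeZero n] :
    ∃ e : (ZMod n → Fin R) ≃ Fin (R ^ n), ∀ y, (e y : ℕ) = ∑ m, (y m : ℕ) * R ^ m.val := by
  obtain ⟨n, rfl⟩ := Nat.exists_eq_succ_of_ne_zero (NeZero.ne n)
  exact ⟨finFunctionFinEquiv, fun y => finFunctionFinEquiv_apply y⟩

lemma sum_update_succ {ι β : Type*} [Fintype ι] [DecidableEq ι] [CommSemiring β] {R : ℕ}
    (y : ι → Fin R) (m : ι) (hm : y m + 1 < R) (w : ι → β) :
    ∑ l, ((Function.update y m ⟨y m + 1, hm⟩ l : ℕ) : β) * w l =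
      ∑ l, ((y l : ℕ) : β) * w l + w m := by
  have : ∀ l, ((Function.update y m ⟨y m + 1, hm⟩ l : ℕ) : β) =
      ((y l : ℕ) : β) + if l = m then 1 else 0 := fun l => by
    by_cases hl : l = m
    · subst hl; simp
    · simp [hl]
  simp [this, add_mul, Finset.sum_add_distrib]

lemma lt_of_ne_top {t : ℕ} [NeZero t] {a : Fin t} (h : a ≠ ⊤) : a + 1 < t := by
  have h1 := a.2
  have h2 : (a : ℕ) ≠ t - 1 := fun e => h (Fin.ext (by simpa using e))
  omega

theorem stage (R J h' : ℕ) [NeZero n] [NeZero h] [NeZero R] [NeZero J] [NeZero h']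
    (hh : h' = R ^ n * n * J * (R * h)) (κ : ZMod n → ZMod h) :
    ∃ (π : ZMod n × ZMod h' → ZMod n × ZMod h) (j r : ZMod n × ZMod h' → ℕ),
      (∃ (D : Type) (E : ZMod n → ZMod h' ≃ (ZMod n × ZMod h) × D),
        ∀ i x, π (i, x) = (E i x).1) ∧
      (∀ q, r q < R) ∧ (∀ q, π (rot q) = rot (π q)) ∧
      fr (fun q => ¬(π (sh 1 q) = sh 1 (π q) ∧ j (sh 1 q) = j q ∧ r (sh 1 q) = r q)) ≤ 1 / R ∧
      (∀ a, fr (fun q => ¬(π (sh (fun i => kap R (n * J * (R * h)) (a - i)) q) =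
        sh (fun i => κ (a - i)) (π q) ∧ (a = 0 →
        j (sh (fun i => kap R (n * J * (R * h)) (a - i)) q) = j q ∧
        r (sh (fun i => kap R (n * J * (R * h)) (a - i)) q) = r q + 1))) ≤ 2 / R) ∧
      fr (fun q => ¬(π (sh (fun _ => (R * h : ℕ)) q) = π q ∧
        j (sh (fun _ => (R * h : ℕ)) q) = j q + 1 ∧ r (sh (fun _ => (R * h : ℕ)) q) = r q)) ≤
        1 / J := by
  classical
  obtain ⟨e1, he1⟩ := exists_fun_fin n R
  obtain ⟨e2, -⟩ := exists_fin_zmod n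
  obtain ⟨e3, he3⟩ := exists_fin_zmod h'
  obtain ⟨e4, he4⟩ := exists_fin_zmod h
  let Dg := (((ZMod n → Fin R) × ZMod n) × Fin J) × Fin (R * h)
  let enc : Dg ≃ ZMod h' := ((((((e1.prodCongr e2.symm).trans finProdFinEquiv).prodCongr
    (Equiv.refl _)).trans finProdFinEquiv).prodCongr (Equiv.refl _)).trans finProdFinEquiv).trans
      ((finCongr hh.symm).trans e3)
  have henc : ∀ y τ j x, enc (((y, τ), j), x) = ((x : ℕ) : ZMod h') + (R * h : ℕ) *
      ((j : ℕ) + J * ((e2.symm τ : ℕ) + n * ∑ m, (y m : ℕ) * (R : ZMod h') ^ m.val)) := by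
    intro y τ j x
    have : enc (((y, τ), j), x) = e3 (finCongr hh.symm (finProdFinEquiv (finProdFinEquiv
      (finProdFinEquiv (e1 y, e2.symm τ), j), x))) := rfl
    rw [this]
    simp [he3, he1]
  let u : ZMod n → ℕ := fun m => if m = 0 then 1 else 0
  let P : ZMod n → Dg → ZMod n × ZMod h := fun i d => (i + d.1.1.2,
    (d.2 : ℕ) + ∑ m, ((d.1.1.1 m : ℕ) : ZMod h) * (κ (m - d.1.1.2) - u m))
  let e : ZMod n × Dg ≃ ZMod n × ZMod h' := (Equiv.refl _).prodCongr enc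
  have he : ∀ i d, e (i, d) = (i, enc d) := fun _ _ => rfl
  have hR : (1 : ℝ) / (R * h : ℕ) ≤ 1 / R := one_div_le_one_div_of_le
    (by exact_mod_cast NeZero.pos R) (by exact_mod_cast Nat.le_mul_of_pos_right _ (NeZero.pos h))
  have b1 : fr (fun q : ZMod n × Dg => q.2.2 = ⊤) ≤ 1 / R :=
    (fr_lens (fun q : ZMod n × Dg => q.2.2) (fun q b => (q.1, q.2.1, b)) (fun _ _ => rfl)
      (fun _ _ => rfl) ⊤).trans hR
  refine ⟨fun q => P q.1 (enc.symm q.2), fun q => (enc.symm q.2).1.2,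
    fun q => (enc.symm q.2).1.1.1 (-q.1), ⟨((ZMod n → Fin R) × Fin J) × Fin R, fun i =>
      enc.symm.trans ⟨fun d => (P i d, (d.1.1.1, d.1.2), (finProdFinEquiv.symm d.2).1),
        fun w => (((w.2.1.1, w.1.1 - i), w.2.1.2), finProdFinEquiv (w.2.2, e4.symm (w.1.2 -
          ∑ m, ((w.2.1.1 m : ℕ) : ZMod h) * (κ (m - (w.1.1 - i)) - u m)))), ?_, ?_⟩,
      fun _ _ => rfl⟩, fun q => Fin.is_lt _, fun q => ?_, ?_, fun a => ?_, ?_⟩
  · rintro ⟨⟨⟨y, τ⟩, j⟩, x⟩
    obtain ⟨⟨b, c⟩, rfl⟩ := finProdFinEquiv.surjective x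
    simp [P, ← he4]
  · rintro ⟨⟨i', x⟩, ⟨y, j⟩, b⟩
    simp [P, ← he4]
  · exact Prod.ext (add_right_comm _ _ _) rfl
  · rw [← fr_equiv e]
    refine (fr_mono ?_).trans b1
    rintro ⟨i, ⟨⟨y, τ⟩, j⟩, x⟩ hq
    by_contra hx
    have : enc (((y, τ), j), x) + 1 = enc (((y, τ), j), ⟨x + 1, lt_of_ne_top hx⟩) := by
      rw [henc, henc]; push_cast; ring
    refine hq ?_
    simp only [he, sh_apply, Pi.one_apply, this, Equiv.symm_apply_apply, P, and_self, and_true]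
    push_cast
    rw [add_right_comm]
  · rw [← fr_equiv e]
    have b2 := fr_lens (fun q : ZMod n × Dg => q.2.1.1.1 (a - q.1)) (fun q b =>
      (q.1, ((Function.update q.2.1.1.1 (a - q.1) b, q.2.1.1.2), q.2.1.2), q.2.2))
      (fun _ _ => by simp) (fun _ _ => by simp) ⊤
    refine (fr_mono ?_).trans ((fr_or _ _).trans ((add_le_add b1 b2).trans (le_of_eq (by ring))))
    rintro ⟨i, ⟨⟨y, τ⟩, j⟩, x⟩ hq
    by_contra hx
    rw [not_or] at hx
    have l1 : x + u (a - i) < R * h := by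
      have := lt_of_ne_top hx.1
      simp only [u]; split_ifs <;> omega
    have : enc (((y, τ), j), x) + kap R (n * J * (R * h)) (a - i) =
        enc (((Function.update y (a - i) ⟨_, lt_of_ne_top hx.2⟩, τ), j), ⟨_, l1⟩) := by
      rw [henc, henc, sum_update_succ]
      simp only [kap, u]
      push_cast; ring
    refine hq ?_
    simp only [he, sh_apply, this, Equiv.symm_apply_apply, P, sum_update_succ, true_and]
    refine ⟨Prod.ext rfl ?_, ?_⟩
    · simp only [sub_add_eq_sub_sub]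
      push_cast; ring
    · rintro rfl
      simp
  · rw [← fr_equiv e]
    refine (fr_mono ?_).trans (fr_lens (fun q : ZMod n × Dg => q.2.1.2)
      (fun q b => (q.1, (q.2.1.1, b), q.2.2)) (fun _ _ => rfl) (fun _ _ => rfl) ⊤)
    rintro ⟨i, ⟨⟨y, τ⟩, j⟩, x⟩ hq
    by_contra hx
    have : enc (((y, τ), j), x) + (R * h : ℕ) = enc (((y, τ), ⟨j + 1, lt_of_ne_top hx⟩), x) := by
      rw [henc, henc]; push_cast; ring
    refine hq ?_
    simp only [he, sh_apply, this, Equiv.symm_apply_apply, P, and_self]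

lemma unit_kap {R L h' : ℕ} (hd : h' ∣ L ^ (n + 1)) (t : ℤ) :
    IsUnit (1 + t * L : ZMod h') := by
  have : IsNilpotent (t * L : ZMod h') := ⟨n + 1, by
    rw [mul_pow, ← Nat.cast_pow, (ZMod.natCast_eq_zero_iff _ _).2 hd, mul_zero]⟩
  exact this.isUnit_one_add

end Pool.Agent.Lib.MP_9f219e_an
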