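import Pool.Agent.Lib.MP_9f219e_an.Ops
import Pool.Agent.Lib.MP_9f219e_an.Stage

/-!
Spectral consequences of the approximations.
-/

open MeasureTheory Set Filter Topology
open scoped InnerProductSpace ENNReal NNReal ComplexConjugate

namespace Pool.Agent.Lib.MP_9f219e_an

section
variable {H : Type*} [NormedAddCommGroup H] [InnerProductSpace ℂ H] [CompleteSpace H]
variable {H' : Type*} [NormedAddCommGroup H'] [InnerProductSpace ℂ H'] [CompleteSpace H']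

lemma norm_eq_of_corr {ρ : Rep S1 H} {ρ' : Rep S1 H'} {x : H} {y : H'}
    (h : ∀ g, ⟪x, ρ g x⟫_ℂ = ⟪y, ρ' g y⟫_ℂ) (g : C(S1, ℂ)) : ‖ρ g x‖ = ‖ρ' g y‖ := by
  rw [norm_eq_sqrt_re_inner (𝕜 := ℂ), norm_eq_sqrt_re_inner (𝕜 := ℂ), rep_inner2, rep_inner2, h]

lemma counting2 {ι κ : Type*} [Fintype ι] [Fintype κ] (hc : Fintype.card κ < Fintype.card ι)
    {ρ : Rep S1 H} {x : ι → H} {x0 : H} (h1 : ∀ j g, ⟪x j, ρ g (x j)⟫_ℂ = ⟪x0, ρ g x0⟫_ℂ)
    (ho : ∀ i j, i ≠ j → Orth ρ (x i) (x j))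
    (ha : ∀ δ > 0, ∃ η : κ → H, ∀ j, ∃ p : κ → C(S1, ℂ), ‖x j - ∑ l, ρ (p l) (η l)‖ ≤ δ) :
    x0 = 0 := by
  obtain ⟨σ, _, hσ⟩ := exists_spec ρ x0
  have e : ‖x0‖ ^ 2 = σ.real univ := by simpa using hσ.norm_sq 1
  have t : Tendsto (fun δ : ℝ => Fintype.card ι * δ ^ 2) (𝓝[>] 0) (𝓝 0) :=
    tendsto_nhdsWithin_of_tendsto_nhds (Continuous.tendsto' (by fun_prop) _ _ (by simp))
  have : ‖x0‖ ^ 2 ≤ 0 := by
    refine ge_of_tendsto t (eventually_nhdsWithin_of_forall fun δ hδ => ?_)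
    obtain ⟨η, hη⟩ := ha δ hδ
    choose p hp using hη
    rw [e]
    refine (counting hc (fun i g => (h1 i g).trans (hσ g)) ho η p).trans ?_
    rw [← nsmul_eq_mul, ← Finset.card_univ]
    exact Finset.sum_le_card_nsmul _ _ _ fun j _ => pow_le_pow_left₀ (norm_nonneg _) (hp j) 2
  rw [← norm_eq_zero]
  nlinarith [norm_nonneg x0]

end

/-- a bump function -/
noncomputable def bump (s : ℝ) (A : Set ℂ) (N : ℕ) : C(S1, ℂ) :=
  ⟨fun z => (max 0 (1 - Metric.infDist ((z : ℂ) ^ N) A / s) : ℝ), by fun_prop⟩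

lemma bump_spec {s : ℝ} (hs : 0 < s) (A : Set ℂ) (N : ℕ) (z : S1) : ∃ t : ℝ, bump s A N z = t ∧
    0 ≤ t ∧ t ≤ 1 ∧ (∀ l ∈ A, 1 - t ≤ s⁻¹ * ‖(z : ℂ) ^ N - l‖) ∧
    (t ≠ 0 → Metric.infDist ((z : ℂ) ^ N) A < s) := by
  have := div_nonneg (Metric.infDist_nonneg (x := (z : ℂ) ^ N) (s := A)) hs.le
  refine ⟨_, rfl, le_max_left _ _, max_le zero_le_one (by linarith), fun l hl => ?_, fun h => ?_⟩
  · have a := le_max_right 0 (1 - Metric.infDist ((z : ℂ) ^ N) A / s)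
    have b := div_le_div_of_nonneg_right (Metric.infDist_le_dist_of_mem (x := (z : ℂ) ^ N) hl) hs.le
    rw [dist_eq_norm] at b
    rw [mul_comm, ← div_eq_mul_inv]
    linarith
  · by_contra h'
    exact h (max_eq_left (by rw [sub_nonpos, one_le_div hs]; exact not_lt.1 h'))

lemma bump_mul {s : ℝ} (hs : 0 < s) {A A' : Set ℂ} (h1 : A.Nonempty) (h2 : A'.Nonempty)
    (h : ∀ a ∈ A, ∀ b ∈ A', 2 * s ≤ ‖a - b‖) (N : ℕ) (z : S1) :
    bump s A N z = 0 ∨ bump s A' N z = 0 := by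
  obtain ⟨t, e, -, -, -, a⟩ := bump_spec hs A N z
  obtain ⟨t', e', -, -, -, a'⟩ := bump_spec hs A' N z
  by_contra h0
  rw [not_or, e, e', Complex.ofReal_eq_zero, Complex.ofReal_eq_zero] at h0
  obtain ⟨u, hu, b⟩ := (Metric.infDist_lt_iff h1).1 (a h0.1)
  obtain ⟨u', hu', b'⟩ := (Metric.infDist_lt_iff h2).1 (a' h0.2)
  have := dist_triangle_left u u' ((z : ℂ) ^ N)
  have := h u hu u' hu'
  rw [← dist_eq_norm] at this
  linarith

lemma equi {α β D : Type*} [Fintype α] [Fintype β] [Nonempty β] (E : α ≃ β × D) (φ : β → ℝ) :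
    (Fintype.card β : ℝ) * ∑ a, φ (E a).1 = Fintype.card α * ∑ b, φ b := by
  have : Finite D := Finite.of_injective
    (fun d => E.symm (Classical.arbitrary _, d)) fun a b h => by simpa using h
  have := Fintype.ofFinite D
  rw [E.sum_comp fun w => φ w.1, Fintype.sum_prod_type, Fintype.card_congr E]
  simp [← Finset.mul_sum, mul_assoc]

variable {n : ℕ} [NeZero n] {h : ℕ → ℕ} [∀ m, NeZero (h m)]

/-- the levels -/
abbrev QQ (n : ℕ) (h : ℕ → ℕ) (m : ℕ) := ZMod n × ZMod (h m)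

/-- the main shift -/
def zz (n : ℕ) (h : ℕ → ℕ) : ∀ m, Equiv.Perm (QQ n h m) := fun _ => sh 1

namespace IsTower
variable {π : ∀ m, QQ n h (m + 1) → QQ n h m} {Y : Type} [TopologicalSpace Y] [MeasurableSpace Y]
  {ν : Measure Y} {lev : ∀ m, Y → QQ n h m} {T : IsTower π ν lev} [CompactSpace Y] [BorelSpace Y]
  [IsProbabilityMeasure ν] {B B' : ∀ m, QQ n h m → Circle} {V V' : Un (Lp ℂ 2 ν)} {ε : ℕ → ℝ}

lemma cyc (a : T.Apx V (zz n h) B B ε) (h0 : ∀ m, 0 ≤ ε m) (k : ℕ) (i : ZMod n)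
    (G : QQ n h k → ℂ) (hG : ∀ q, q.1 ≠ i → G q = 0) : ∃ p : C(S1, ℂ),
      ‖T.io B k G - repU V p (T.io B k (Pi.single (i, 0) 1))‖ ≤ h k ^ 2 * ε k * ‖G‖ := by
  refine ⟨∑ x : ZMod (h k), G (i, -x) • zf ^ x.val, ?_⟩
  have e : G = ∑ x : ZMod (h k), G (i, -x) • (Pi.single (i, 0) 1 ∘ (zz n h ^ x.val) k) := by
    funext ⟨j, y⟩
    simp only [zz, Pi.pow_apply, sh_pow, Finset.sum_apply, Pi.smul_apply, Function.comp_apply,
      sh_apply, Pi.single_apply, Prod.mk.injEq, ZMod.natCast_zmod_val, Pi.one_apply, mul_one,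
      smul_eq_mul, mul_ite, mul_zero, add_eq_zero_iff_neg_eq]
    by_cases hj : j = i
    · simp [hj]
    · simp [hj, hG (j, y) hj]
  nth_rewrite 1 [e]
  simp only [map_sum, map_smul, ContinuousLinearMap.sum_apply, ContinuousLinearMap.smul_apply,
    repU_pow, ← Finset.sum_sub_distrib, ← smul_sub]
  refine (norm_sum_le _ _).trans ((Finset.sum_le_card_nsmul _ _ (‖G‖ * (h k * ε k))
    fun x _ => ?_).trans (le_of_eq ?_))
  · rw [norm_smul, norm_sub_rev]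
    refine mul_le_mul (norm_le_pi_norm G _) ((a.pow h0 x.val k _).trans ?_) (norm_nonneg _)
      (norm_nonneg _)
    rw [Pi.norm_single, norm_one, mul_one]
    exact mul_le_mul_of_nonneg_right (by exact_mod_cast x.val_lt.le) (h0 k)
  · simp; ring

variable (π B) in
/-- the part of a lifted function on one cycle -/
noncomputable def pc (k : ℕ) (G : QQ n h k → ℂ) (i : ZMod n) : QQ n h (k + 1) → ℂ :=
  fun q => if q.1 = i then G (π k q) * (B k (π k q) / B (k + 1) q : Circle) else 0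

omit [NeZero n] [∀ m, NeZero (h m)] in
lemma pc_supp (k : ℕ) (G : QQ n h k → ℂ) (i : ZMod n) (q) (hq : q.1 ≠ i) :
    pc π B k G i q = 0 := if_neg hq

lemma pc_norm (k : ℕ) (G : QQ n h k → ℂ) (i : ZMod n) : ‖pc π B k G i‖ ≤ ‖G‖ :=
  (pi_norm_le_iff_of_nonneg (norm_nonneg _)).2 fun q => by
    unfold pc
    split_ifs
    · simpa using norm_le_pi_norm G _
    · simp

lemma pc_sum (k : ℕ) (G : QQ n h k → ℂ) : T.io B k G = ∑ i, T.io B (k + 1) (pc π B k G i) := by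
  rw [← map_sum, ← T.io_up]
  congr 1
  funext q
  simp [pc]

variable (T V B) in
/-- spectral localisation at one stage -/
def Loc (k N : ℕ) (lam : ZMod n → Set ℂ) (θ : ℝ) : Prop :=
  ∀ G i (q : C(S1, ℂ)) (K : ℝ), 0 ≤ K → (∀ l ∈ lam i, ∀ z, ‖q z‖ ≤ K * ‖(z : ℂ) ^ N - l‖) →
    ‖repU V q (T.io B (k + 1) (pc π B k G i))‖ ≤ K * θ * ‖G‖

lemma loc (a : T.Apx V (zz n h) B B ε) (h0 : ∀ m, 0 ≤ ε m) {k N R : ℕ} {b : ℝ}
    {r : QQ n h (k + 1) → ℕ} (hr : ∀ q, r q < R) (lam : ZMod n → ℕ → Circle)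
    (hb : fr (fun q => ¬(π k (sh (fun _ => N) q) = π k q ∧ r (sh (fun _ => N) q) = r q ∧
      B k (π k q) / B (k + 1) (sh (fun _ => N) q) =
        lam q.1 (r q) * (B k (π k q) / B (k + 1) q))) ≤ b) :
    T.Loc B V k N (fun i => (fun s => lam i s) '' Iio R) (R * (N * ε (k + 1) + 2 * √b)) := by
  intro G i q K hK hq
  let Gs : ℕ → QQ n h (k + 1) → ℂ := fun s w => if r w = s then pc π B k G i w else 0
  have n1 : ∀ s, ‖Gs s‖ ≤ ‖G‖ := fun s => (pi_norm_le_iff_of_nonneg (norm_nonneg _)).2 fun w => by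
    simp only [Gs]
    split_ifs
    · exact (norm_le_pi_norm _ _).trans (pc_norm k G i)
    · simp
  have e : pc π B k G i = ∑ s ∈ Finset.range R, Gs s := by
    funext w
    simp [Gs, hr]
  rw [e, map_sum, map_sum]
  refine (norm_sum_le _ _).trans ((Finset.sum_le_card_nsmul _ _
    (K * ((N * ε (k + 1) + 2 * √b) * ‖G‖)) fun s hs => ?_).trans (le_of_eq (by simp; ring)))
  refine (rep_norm_le_of_le _ _ (g' := zf ^ N - (lam i s : ℂ) • 1) hK fun z => ?_).trans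
    (mul_le_mul_of_nonneg_left ?_ hK)
  · simpa using hq _ ⟨s, Finset.mem_range.1 hs, rfl⟩ z
  have e2 : repU V (zf ^ N - (lam i s : ℂ) • 1) (T.io B (k + 1) (Gs s)) =
      ((V ^ N).1 (T.io B (k + 1) (Gs s)) - T.io B (k + 1) (Gs s ∘ (zz n h ^ N) (k + 1))) +
        T.io B (k + 1) (Gs s ∘ (zz n h ^ N) (k + 1) - (lam i s : ℂ) • Gs s) := by
    simp [repU_pow]
  rw [e2, add_mul]
  refine (norm_add_le _ _).trans (add_le_add ((a.pow h0 N _ _).trans
    (mul_le_mul_of_nonneg_left (n1 s) (mul_nonneg N.cast_nonneg (h0 _)))) ?_)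
  refine (T.io_norm_le (C := 2 * ‖G‖) ((norm_sub_le _ _).trans ?_) fun w hw => ?_).trans
    ((mul_le_mul_of_nonneg_left (Real.sqrt_le_sqrt hb) (by positivity)).trans
      (le_of_eq (by ring)))
  · rw [norm_smul, Circle.norm_coe, one_mul, two_mul]
    exact add_le_add ((norm_comp_le _ _).trans (n1 s)) (n1 s)
  · obtain ⟨h1, h2, h3⟩ := not_not.1 hw
    have e3 : (zz n h ^ N) (k + 1) w = sh (fun _ => N) w := by simp [zz, sh_pow]
    have e4 : (sh (fun _ => (N : ZMod (h (k + 1)))) w).1 = w.1 := rfl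
    simp only [Pi.sub_apply, Function.comp_apply, e3, Gs, pc, h1, h2, h3, e4, Pi.smul_apply,
      smul_eq_mul]
    split_ifs with c1 c2
    · rw [c1, c2, Circle.coe_mul]; ring
    · simp
    · simp

variable [TopologicalSpace.MetrizableSpace Y]

lemma rank {κ ι : Type*} [Fintype κ] [Finite ι] {ρ : Rep S1 (Lp ℂ 2 ν)}
    (η : ℕ → κ → Lp ℂ 2 ν) {e : ℕ → ℝ} (he : Tendsto e atTop (𝓝 0)) (h0 : ∀ k, 0 ≤ e k)
    (ha : ∀ᶠ k in atTop, ∀ G, ∃ p : κ → C(S1, ℂ),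
      ‖T.io B k G - ∑ l, ρ (p l) (η k l)‖ ≤ e k * ‖G‖) (x : ι → Lp ℂ 2 ν) :
    ∀ δ > 0, ∃ η : κ → Lp ℂ 2 ν, ∀ j, ∃ p : κ → C(S1, ℂ), ‖x j - ∑ l, ρ (p l) (η l)‖ ≤ δ := by
  intro δ hδ
  choose F C h1 h2 using fun j => T.dense B (x j) (half_pos hδ)
  have h3 : ∀ j, ∀ᶠ k in atTop, e k * C j < δ / 2 := fun j =>
    (he.mul_const (C j)).eventually_lt_const (by simpa using hδ)
  obtain ⟨k, ⟨a1, a2⟩, a3⟩ := (((eventually_all.2 h2).and (eventually_all.2 h3)).and ha).exists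
  refine ⟨η k, fun j => ?_⟩
  obtain ⟨G, b1, b2⟩ := a1 j
  obtain ⟨p, hp⟩ := a3 G
  refine ⟨p, (norm_sub_le_norm_sub_add_norm_sub _ (F j) _).trans ?_⟩
  rw [b2] at hp
  linarith [h1 j, a2 j, mul_le_mul_of_nonneg_left b1 (h0 k)]

theorem rank_n (a : T.Apx V (zz n h) B B ε) (h0 : ∀ m, 0 ≤ ε m)
    (ht : Tendsto (fun k => (h k : ℝ) ^ 2 * ε k) atTop (𝓝 0)) {ι : Type*} [Fintype ι]
    (hc : n < Fintype.card ι) {x : ι → Lp ℂ 2 ν} {x0 : Lp ℂ 2 ν}
    (h1 : ∀ j g, ⟪x j, repU V g (x j)⟫_ℂ = ⟪x0, repU V g x0⟫_ℂ)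
    (ho : ∀ i j, i ≠ j → Orth (repU V) (x i) (x j)) : x0 = 0 := by
  refine counting2 (κ := ZMod n) (by simpa using hc) h1 ho (rank (T := T) (B := B)
    (fun k i => T.io B k (Pi.single (i, 0) 1)) (e := fun k => n * (h k ^ 2 * ε k))
    (by simpa using ht.const_mul (n : ℝ)) (fun k => by have := h0 k; positivity)
    (Eventually.of_forall fun k G => ?_) x)
  let Gi : ZMod n → QQ n h k → ℂ := fun i q => if q.1 = i then G q else 0
  choose p hp using fun i => cyc a h0 k i (Gi i) fun q hq => if_neg hq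
  have e : G = ∑ i, Gi i := by funext q; simp [Gi]
  refine ⟨p, ?_⟩
  nth_rewrite 1 [e]
  rw [map_sum, ← Finset.sum_sub_distrib]
  refine (norm_sum_le _ _).trans ((Finset.sum_le_card_nsmul _ _ (h k ^ 2 * ε k * ‖G‖)
    fun i _ => (hp i).trans (mul_le_mul_of_nonneg_left ?_ (by have := h0 k; positivity))).trans
      (le_of_eq (by simp; ring)))
  refine (pi_norm_le_iff_of_nonneg (norm_nonneg _)).2 fun q => ?_
  simp only [Gi]
  split_ifs
  · exact norm_le_pi_norm G _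
  · simp

theorem rank_one (a : T.Apx V (zz n h) B B ε) (h0 : ∀ m, 0 ≤ ε m)
    (ht : Tendsto (fun k => (h k : ℝ) ^ 2 * ε k) atTop (𝓝 0)) {N : ℕ → ℕ}
    {lam : ℕ → ZMod n → Set ℂ} {θ s : ℕ → ℝ} (hl : ∀ k, T.Loc B V k (N k) (lam k) (θ k))
    (hn : ∀ k i, (lam k i).Nonempty) (hs : ∀ k, 0 < s k) (hθ : ∀ k, 0 ≤ θ k)
    (hθs : Tendsto (fun k => θ k / s k) atTop (𝓝 0))
    (sep : ∀ᶠ k in atTop, ∀ i j, i ≠ j → ∀ a ∈ lam k i, ∀ b ∈ lam k j, 2 * s k ≤ ‖a - b‖)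
    {x y : Lp ℂ 2 ν} (ho : Orth (repU V) x y)
    (h1 : ∀ g, ⟪x, repU V g x⟫_ℂ = ⟪y, repU V g y⟫_ℂ) : x = 0 := by
  refine counting2 (κ := Unit) (ι := Bool) (by simp) (x := fun b => cond b x y)
    (fun b g => by cases b; exacts [(h1 g).symm, rfl])
    (fun i j hij => by
      cases i <;> cases j
      exacts [(hij rfl).elim, ho.symm, ho, (hij rfl).elim])
    (rank (T := T) (B := B) (fun k _ => ∑ i, repU V (bump (s k) (lam k i) (N k))
      (T.io B (k + 1) (Pi.single (i, 0) 1)))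
      (e := fun k => n * (2 * (θ k / s k) + h (k + 1) ^ 2 * ε (k + 1)))
      (by simpa using ((hθs.const_mul 2).add ((tendsto_add_atTop_iff_nat 1).2 ht)).const_mul (n : ℝ))
      (fun k => by have := h0 (k + 1); have := hs k; have := hθ k; positivity) ?_ _)
  filter_upwards [sep] with k hk G
  choose p hp using fun i => cyc a h0 (k + 1) i (pc π B k G i) (pc_supp k G i)
  set Q := fun i => bump (s k) (lam k i) (N k) with hQ
  have q0 : ∀ i j, i ≠ j → Q i * Q j = 0 := fun i j hij => ContinuousMap.ext fun z =>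
    mul_eq_zero.2 (bump_mul (hs k) (hn k i) (hn k j) (hk i j hij) _ z)
  refine ⟨fun _ => ∑ i, p i * Q i, ?_⟩
  have e : repU V (∑ i, p i * Q i) (∑ i, repU V (Q i) (T.io B (k + 1) (Pi.single (i, 0) 1))) =
      ∑ i, repU V (Q i * Q i) (repU V (p i) (T.io B (k + 1) (Pi.single (i, 0) 1))) := by
    rw [map_sum]
    refine Finset.sum_congr rfl fun i _ => ?_
    rw [← rep_mul, ← rep_mul, Finset.sum_mul, Finset.sum_eq_single i
      (fun j _ hj => by rw [mul_assoc, q0 j i hj, mul_zero]) (by simp), mul_assoc, mul_comm]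
  rw [Fintype.sum_unique, e, pc_sum, ← Finset.sum_sub_distrib]
  refine (norm_sum_le _ _).trans ((Finset.sum_le_card_nsmul _ _
    ((2 * (θ k / s k) + h (k + 1) ^ 2 * ε (k + 1)) * ‖G‖) fun i _ => ?_).trans
      (le_of_eq (by simp; ring)))
  have e2 : ∀ u v : Lp ℂ 2 ν, u - repU V (Q i * Q i) v =
      repU V (1 - Q i * Q i) u + repU V (Q i * Q i) (u - v) := fun u v => by simp
  rw [e2, add_mul]
  refine (norm_add_le _ _).trans (add_le_add ((hl k G i _ (2 * (s k)⁻¹)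
    (by have := hs k; positivity) fun l hl z => ?_).trans (le_of_eq (by ring))) ?_)
  · obtain ⟨t, e, t0, t1, t2, -⟩ := bump_spec (hs k) (lam k i) (N k) z
    have : (1 - Q i * Q i) z = ((1 - t * t : ℝ) : ℂ) := by simp [hQ, e]
    rw [this, Complex.norm_real, Real.norm_of_nonneg (by nlinarith)]
    nlinarith [t2 l hl]
  · refine (rep_norm_le_of_le _ _ (g' := 1) zero_le_one fun z => ?_).trans ?_
    · obtain ⟨t, e, t0, t1, -⟩ := bump_spec (hs k) (lam k i) (N k) z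
      have : (Q i * Q i) z = ((t * t : ℝ) : ℂ) := by simp [hQ, e]
      rw [this, Complex.norm_real, Real.norm_of_nonneg (by nlinarith)]
      simp only [ContinuousMap.one_apply, norm_one]
      nlinarith
    · rw [map_one, one_mul]
      exact (hp i).trans (mul_le_mul_of_nonneg_left (pc_norm _ _ _)
        (by have := h0 (k + 1); positivity))

lemma loc2 {N : ℕ → ℕ} {lam : ℕ → ZMod n → Set ℂ} {θ s : ℕ → ℝ}
    (hl : ∀ k, T.Loc B V k (N k) (lam k) (θ k)) (hs : ∀ k, 0 < s k) (hθ : ∀ k, 0 ≤ θ k)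
    (hθs : Tendsto (fun k => θ k / s k) atTop (𝓝 0)) (x : Lp ℂ 2 ν) {δ : ℝ} (hδ : 0 < δ) :
    ∀ᶠ k in atTop, ‖repU V (1 - bump (s k) (⋃ i, lam k i) (N k)) x‖ ≤ δ := by
  obtain ⟨F, C, h1, h2⟩ := T.dense B x (half_pos hδ)
  filter_upwards [h2, ((hθs.mul_const C).const_mul (n : ℝ)).eventually_lt_const (u := δ / 2)
    (by simpa using hδ)] with k ⟨G, h3, h4⟩ h5
  have key := fun z => bump_spec (hs k) (⋃ i, lam k i) (N k) z
  set q := 1 - bump (s k) (⋃ i, lam k i) (N k) with hq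
  have q1 : ∀ z, ∃ t : ℝ, ‖q z‖ = 1 - t ∧ 0 ≤ t ∧
      ∀ l ∈ ⋃ i, lam k i, 1 - t ≤ (s k)⁻¹ * ‖(z : ℂ) ^ N k - l‖ := fun z => by
    obtain ⟨t, e, t0, t1, t2, -⟩ := key z
    have : q z = ((1 - t : ℝ) : ℂ) := by simp [hq, e]
    exact ⟨t, by rw [this, Complex.norm_real, Real.norm_of_nonneg (by linarith)], t0, t2⟩
  have a : ‖repU V q (x - F)‖ ≤ 1 * ‖repU V 1 (x - F)‖ :=
    rep_norm_le_of_le _ _ zero_le_one fun z => by
      obtain ⟨t, e, t0, -⟩ := q1 z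
      simp only [e, ContinuousMap.one_apply, norm_one]; linarith
  have b : ‖repU V q F‖ ≤ n * (θ k / s k * C) := by
    rw [← h4, pc_sum, map_sum]
    refine (norm_sum_le _ _).trans ((Finset.sum_le_card_nsmul _ _ (θ k / s k * C)
      fun i _ => ?_).trans (le_of_eq (by simp)))
    refine (hl k G i q (s k)⁻¹ (inv_nonneg.2 (hs k).le) fun l hl z => ?_).trans ?_
    · obtain ⟨t, e, -, t2⟩ := q1 z
      rw [e]; exact t2 l (mem_iUnion.2 ⟨i, hl⟩)
    · rw [mul_comm (s k)⁻¹]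
      exact mul_le_mul_of_nonneg_left h3 (by have := hs k; have := hθ k; positivity)
  rw [map_one, one_mul, map_sub, ContinuousLinearMap.one_apply] at a
  have c := norm_add_le (repU V q x - repU V q F) (repU V q F)
  rw [sub_add_cancel] at c
  linarith

theorem disj {N : ℕ → ℕ} {lam lam' : ℕ → ZMod n → Set ℂ} {θ s : ℕ → ℝ}
    (hl : ∀ k, T.Loc B V k (N k) (lam k) (θ k)) (hl' : ∀ k, T.Loc B' V' k (N k) (lam' k) (θ k))
    (hn : ∀ k i, (lam k i).Nonempty) (hn' : ∀ k i, (lam' k i).Nonempty) (hs : ∀ k, 0 < s k)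
    (hθ : ∀ k, 0 ≤ θ k) (hθs : Tendsto (fun k => θ k / s k) atTop (𝓝 0))
    (sep : ∀ᶠ k in atTop, ∀ i j, ∀ a ∈ lam k i, ∀ b ∈ lam' k j, 2 * s k ≤ ‖a - b‖)
    {x y : Lp ℂ 2 ν} (h1 : ∀ g, ⟪x, repU V g x⟫_ℂ = ⟪y, repU V' g y⟫_ℂ) : x = 0 := by
  refine norm_le_zero_iff.1 (le_of_forall_pos_le_add fun δ hδ => ?_)
  obtain ⟨k, ⟨a1, a2⟩, a3⟩ := (((loc2 hl hs hθ hθs x (half_pos hδ)).and
    (loc2 hl' hs hθ hθs y (half_pos hδ))).and sep).exists
  rw [← norm_eq_of_corr h1] at a2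
  have a : ‖repU V (bump (s k) (⋃ i, lam k i) (N k)) x‖ ≤
      1 * ‖repU V (1 - bump (s k) (⋃ i, lam' k i) (N k)) x‖ :=
    rep_norm_le_of_le _ _ zero_le_one fun z => by
      rcases bump_mul (hs k) (nonempty_iUnion.2 ⟨0, hn k 0⟩) (nonempty_iUnion.2 ⟨0, hn' k 0⟩)
        (fun a ha b hb => by
          obtain ⟨i, hi⟩ := mem_iUnion.1 ha
          obtain ⟨j, hj⟩ := mem_iUnion.1 hb
          exact a3 i j a hi b hj) (N k) z with e | e
      · rw [e, norm_zero]; positivity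
      · obtain ⟨t, e', t0, t1, -⟩ := bump_spec (hs k) (⋃ i, lam k i) (N k) z
        simpa [e, e', abs_of_nonneg t0] using t1
  have c := norm_add_le (repU V (1 - bump (s k) (⋃ i, lam k i) (N k)) x)
    (repU V (bump (s k) (⋃ i, lam k i) (N k)) x)
  simp only [map_sub, map_one, ContinuousLinearMap.sub_apply, ContinuousLinearMap.one_apply,
    sub_add_cancel] at c a1 a2 a
  linarith

theorem erg {g : ∀ m, Equiv.Perm (QQ n h m)} (a : T.Apx V g 1 1 ε) (h0 : ∀ m, 0 ≤ ε m)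
    (ht : Tendsto (fun k => (h k : ℝ) * ε k) atTop (𝓝 0))
    (hg : ∀ k, ∃ i c, g (k + 1) = sh c ∧ IsUnit (c i))
    (hE : ∀ k, ∃ (D : Type) (E : ZMod n → ZMod (h (k + 1)) ≃ QQ n h k × D),
      ∀ i x, π k (i, x) = (E i x).1) (x : Lp ℂ 2 ν) (hx : ⟪one ν, x⟫_ℂ = 0) (hV : V.1 x = x) :
    x = 0 := by
  have key : ∀ δ > 0, ‖x‖ ≤ (1 + 3 * √n) * δ := by
    intro δ hδ
    obtain ⟨F, C, h1, h2⟩ := T.dense 1 x hδ
    obtain ⟨k, ⟨G, h3, h4⟩, h5⟩ := (h2.and ((((tendsto_add_atTop_iff_nat 1).2 ht).mul_const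
      C).eventually_lt_const (by simpa using hδ))).exists
    obtain ⟨i, c, hc, u, hu⟩ := hg k
    obtain ⟨D, E, hE⟩ := hE k
    have h6 : T.io 1 (k + 1) (G ∘ π k) = F := by
      rw [← h4, ← T.io_up k G]; congr 1; funext q; simp
    have hp : (0 : ℝ) < h (k + 1) := by exact_mod_cast NeZero.pos _
    have fx : ∀ s : ℕ, (V ^ s).1 x = x := fun s => by
      induction s with
      | zero => rfl
      | succ s ih => rw [pow_succ, u_mul, hV, ih]
    have b1 : ∀ t : ZMod (h (k + 1)),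
        ‖T.io 1 (k + 1) ((G ∘ π k) ∘ (g ^ t.val) (k + 1)) - F‖ ≤ 3 * δ := fun t => by
      have c1 := a.pow h0 t.val (k + 1) (G ∘ π k)
      have c2 : ‖(V ^ t.val).1 F - x‖ < δ := by
        rw [← fx t.val, ← map_sub, u_norm, norm_sub_rev]; exact h1
      have c3 : t.val * ε (k + 1) * ‖G ∘ π k‖ ≤ h (k + 1) * ε (k + 1) * C :=
        mul_le_mul (mul_le_mul_of_nonneg_right (by exact_mod_cast t.val_lt.le) (h0 _))
          ((norm_comp_le _ _).trans h3) (norm_nonneg _) (mul_nonneg hp.le (h0 _))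
      rw [h6, norm_sub_rev] at c1
      linarith [norm_sub_le_norm_sub_add_norm_sub (T.io 1 (k + 1) ((G ∘ π k) ∘
        (g ^ t.val) (k + 1))) ((V ^ t.val).1 F) F,
        norm_sub_le_norm_sub_add_norm_sub ((V ^ t.val).1 F) x F]
    set A : QQ n h (k + 1) → ℂ := (h (k + 1) : ℂ)⁻¹ •
      ∑ t : ZMod (h (k + 1)), (G ∘ π k) ∘ (g ^ t.val) (k + 1) with hA
    have b2 : ‖T.io 1 (k + 1) (A - G ∘ π k)‖ ≤ 3 * δ := by
      have : T.io 1 (k + 1) (A - G ∘ π k) = (h (k + 1) : ℂ)⁻¹ • ∑ t : ZMod (h (k + 1)),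
          (T.io 1 (k + 1) ((G ∘ π k) ∘ (g ^ t.val) (k + 1)) - F) := by
        rw [map_sub, h6, hA, map_smul, map_sum, Finset.sum_sub_distrib, smul_sub, Finset.sum_const,
          Finset.card_univ, ZMod.card, ← Nat.cast_smul_eq_nsmul ℂ, smul_smul,
          inv_mul_cancel₀ (by exact_mod_cast hp.ne'), one_smul]
      rw [this, norm_smul, norm_inv, Complex.norm_natCast, inv_mul_le_iff₀ hp]
      exact (norm_sum_le _ _).trans ((Finset.sum_le_card_nsmul _ _ _ fun t _ => b1 t).trans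
        (le_of_eq (by simp)))
    set c0 : ℂ := (h (k + 1) : ℂ)⁻¹ * ∑ t, G (π k (i, t)) with hc0
    have b3 : ∀ y, A (i, y) = c0 := fun y => by
      simp only [hA, hc0, Pi.smul_apply, Finset.sum_apply, Function.comp_apply, Pi.pow_apply, hc,
        sh_pow, sh_apply, ZMod.natCast_zmod_val, smul_eq_mul, ← hu]
      congr 1
      exact ((Units.mulRight u).trans (Equiv.addLeft y)).sum_comp fun t => G (π k (i, t))
    have b4 : ‖c0 • one ν - F‖ ^ 2 ≤ n * ‖T.io 1 (k + 1) (A - G ∘ π k)‖ ^ 2 := by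
      rw [← T.io_one k, ← h4, ← map_smul, ← map_sub, T.io_norm_sq, T.io_norm_sq,
        Fintype.sum_prod_type (f := fun q => ‖(A - G ∘ π k) q‖ ^ 2)]
      have d1 := equi (E i) fun q => ‖(c0 • (1 : QQ n h k → ℂ) - G) q‖ ^ 2
      have d2 := Finset.single_le_sum (f := fun j => ∑ y, ‖(A - G ∘ π k) (j, y)‖ ^ 2)
        (fun j _ => by positivity) (Finset.mem_univ i)
      have d3 : ∑ y, ‖(A - G ∘ π k) (i, y)‖ ^ 2 =
          ∑ y, ‖(c0 • (1 : QQ n h k → ℂ) - G) (E i y).1‖ ^ 2 :=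
        Finset.sum_congr rfl fun y _ => by simp [b3, hE]
      have p1 : (0 : ℝ) < Fintype.card (QQ n h k) := by exact_mod_cast Fintype.card_pos
      have p2 : (0 : ℝ) < n := by exact_mod_cast NeZero.pos n
      rw [d3] at d2
      rw [Fintype.card_prod (ZMod n) (ZMod (h (k + 1))), ZMod.card, ZMod.card] at *
      rw [inv_mul_le_iff₀ p1, ← mul_le_mul_iff_right₀ hp, ← d1]
      refine (mul_le_mul_of_nonneg_left d2 p1.le).trans (le_of_eq ?_)
      push_cast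
      field_simp
    have b5 : ‖c0 • one ν - F‖ ≤ √n * (3 * δ) := by
      refine (pow_le_pow_iff_left₀ (norm_nonneg _) (by positivity) two_ne_zero).1 (b4.trans ?_)
      rw [mul_pow, Real.sq_sqrt n.cast_nonneg]
      gcongr
    have b6 : ‖x‖ ≤ ‖x - c0 • one ν‖ := by
      have := norm_sub_sq (𝕜 := ℂ) x (c0 • one ν)
      rw [inner_smul_right, inner_eq_zero_symm.1 hx, mul_zero, map_zero] at this
      refine (pow_le_pow_iff_left₀ (norm_nonneg _) (norm_nonneg _) two_ne_zero).1 ?_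
      nlinarith [sq_nonneg ‖c0 • one ν‖]
    rw [norm_sub_rev] at b5
    linarith [norm_sub_le_norm_sub_add_norm_sub x F (c0 • one ν)]
  refine norm_le_zero_iff.1 (le_of_forall_pos_le_add fun δ hδ => ?_)
  have p : 0 < 1 + 3 * √n := by positivity
  have := key (δ / (1 + 3 * √n)) (by positivity)
  rwa [mul_div_cancel₀ _ p.ne', ← zero_add δ] at this

end IsTower

end Pool.Agent.Lib.MP_9f219e_an
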