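import Mathlib

/-!
Parameters of the construction.
-/

open Set Filter Topology Polynomial

namespace Pool.Agent.Lib.MP_9f219e_an

instance countable_poly : Countable ℤ[X] :=
  (AddMonoidAlgebra.coeff_injective.comp toFinsupp_injective).countable

lemma exists_chars (n : ℕ) [NeZero n] : ∃ c : ZMod n → ℤ[X] → Circle,
    (∀ i α β, c i (α + β) = c i α * c i β) ∧
    ∀ i j α β, α ≠ 0 → c i α = c j β → i = j ∧ α = β := by
  have ht := transcendental_liouvilleNumber (m := 2) le_rfl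
  set θ := liouvilleNumber ((2 : ℕ) : ℝ)
  refine ⟨fun i α => Circle.exp (aeval θ (X ^ (i.val + 1) * expand ℤ n α) * (2 * Real.pi)),
    fun i α β => by simp only [map_add, mul_add, add_mul, Circle.exp_add], ?_⟩
  intro i j α β hα h
  obtain ⟨m, hm⟩ := Circle.exp_eq_exp.1 h
  rw [← add_mul, mul_left_inj' (by positivity)] at hm
  have e : X ^ (i.val + 1) * expand ℤ n α = X ^ (j.val + 1) * expand ℤ n β + C m :=
    transcendental_iff_injective.1 ht (by simpa using hm)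
  have m0 : m = 0 := by simpa using (congrArg (eval 0) e).symm
  rw [m0, C_0, add_zero] at e
  have hn := NeZero.pos n
  have a0 : expand ℤ n α ≠ 0 := by rwa [Ne, expand_eq_zero hn]
  have b0 : expand ℤ n β ≠ 0 := by
    intro h0
    simp [h0, a0] at e
  have d := congrArg natDegree e
  rw [natDegree_mul (by simp) a0, natDegree_mul (by simp) b0, natDegree_expand,
    natDegree_expand, natDegree_X_pow, natDegree_X_pow] at d
  obtain rfl : i = j := by simpa using congrArg (Nat.cast : ℕ → ZMod n) d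
  exact ⟨rfl, expand_injective hn (mul_left_cancel₀ (by simp) e)⟩

lemma exists_sep {A : Set ℂ} (hA : A.Finite) :
    ∃ s : ℝ, 0 < s ∧ ∀ a ∈ A, ∀ b ∈ A, a ≠ b → 2 * s ≤ ‖a - b‖ := by
  obtain ⟨C, h0, h⟩ := hA.relatively_discrete
  obtain ⟨r, -, h1, h2⟩ := ENNReal.lt_iff_exists_real_btwn.1 h0
  refine ⟨r / 2, half_pos (ENNReal.ofReal_pos.1 h1), fun a ha b hb hab => ?_⟩
  have := h2.le.trans (h a ha b hb hab)
  rw [edist_dist, ENNReal.ofReal_le_ofReal_iff dist_nonneg, dist_eq_norm] at this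
  linarith

lemma params {n : ℕ} (hn : 0 < n) (s : ℕ → ℕ → ℝ) (hs : ∀ k R, 0 < s k R) :
    ∃ h R J : ℕ → ℕ, (∀ k, 0 < h k ∧ 0 < R k ∧ 0 < J k) ∧
      (∀ k, h (k + 1) = R k ^ n * n * J k * (R k * h k)) ∧
      (∀ k, (4 : ℝ) / R (k + 1) ≤ 4 / R k / 2) ∧
      Tendsto (fun k => (h k : ℝ) ^ 2 * (2 * √(4 / R k))) atTop (𝓝 0) ∧
      Tendsto (fun k => (R k * ((R k * h k : ℕ) * (2 * √(4 / R (k + 1))) + 2 * √(1 / J k)) : ℝ) /
        s k (R k)) atTop (𝓝 0) := by
  let Rr : ℕ → ℕ → ℕ := fun k h => (2 ^ (k + 2) * h ^ 2) ^ 2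
  let jj : ℕ → ℕ → ℕ := fun k R => ⌈2 ^ k * R / s k R⌉₊ + 1
  obtain ⟨h, h00, hs'⟩ : ∃ h : ℕ → ℕ, h 0 = 1 ∧ ∀ k, h (k + 1) =
      Rr k (h k) ^ n * n * jj k (Rr k (h k)) ^ 2 * (Rr k (h k) * h k) :=
    ⟨fun k => Nat.rec (motive := fun _ => ℕ) 1
      (fun k h => Rr k h ^ n * n * jj k (Rr k h) ^ 2 * (Rr k h * h)) k, rfl, fun _ => rfl⟩
  have h0 : ∀ k, 0 < h k := fun k => by
    induction k with
    | zero => omega
    | succ k ih => rw [hs']; simp only [Rr, jj]; positivity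
  have R0 : ∀ k, 0 < Rr k (h k) := fun k => by have := h0 k; simp only [Rr]; positivity
  have h1 : ∀ k, Rr k (h k) * jj k (Rr k (h k)) ^ 2 * (Rr k (h k) * h k) ≤ h (k + 1) := fun k => by
    rw [hs']
    gcongr
    exact (Nat.le_self_pow hn.ne' _).trans (Nat.le_mul_of_pos_right _ hn)
  have h2 : ∀ k, h k ≤ h (k + 1) := fun k => by
    refine le_trans ?_ (h1 k)
    rw [← mul_assoc]
    exact Nat.le_mul_of_pos_left _ (by have := R0 k; simp only [jj]; positivity)
  have e : ∀ k : ℕ, (2 * √(4 / (Rr k (h k) : ℕ)) : ℝ) = (1 / 2 : ℝ) ^ k / ((h k : ℕ) : ℝ) ^ 2 :=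
      fun k => by
    have : (0 : ℝ) < h k := by exact_mod_cast h0 k
    simp only [Rr]
    push_cast
    rw [show (4 : ℝ) = 2 ^ 2 by norm_num, ← div_pow, Real.sqrt_sq (by positivity), one_div,
      inv_pow]
    field_simp
    ring
  have t := tendsto_pow_atTop_nhds_zero_of_lt_one (r := (1 / 2 : ℝ)) (by norm_num) (by norm_num)
  refine ⟨h, fun k => Rr k (h k), fun k => jj k (Rr k (h k)) ^ 2,
    fun k => ⟨h0 k, R0 k, by simp only [jj]; positivity⟩, hs', fun k => ?_, ?_, ?_⟩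
  · rw [div_div]
    refine div_le_div_of_nonneg_left (by norm_num) (by have := R0 k; positivity) ?_
    have : Rr k (h k) * 2 ≤ Rr (k + 1) (h (k + 1)) := by
      simp only [Rr]
      calc (2 ^ (k + 2) * h k ^ 2) ^ 2 * 2 ≤ (2 ^ (k + 2) * h (k + 1) ^ 2) ^ 2 * 4 := by
            gcongr; exacts [h2 k, by norm_num]
        _ = _ := by ring
    exact_mod_cast this
  · refine t.congr fun k => ?_
    have : (0 : ℝ) < h k := by exact_mod_cast h0 k
    rw [e]; field_simp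
  · refine squeeze_zero (fun k => by have := hs k (Rr k (h k)); positivity) (fun k => ?_)
      (by simpa using t.const_mul 3)
    have a0 : (1 : ℝ) ≤ h k := by exact_mod_cast h0 k
    have a1 : (1 : ℝ) ≤ Rr k (h k) := by exact_mod_cast R0 k
    have a2 : (1 : ℝ) ≤ jj k (Rr k (h k)) := by simp [jj]
    have a3 : (Rr k (h k) * jj k (Rr k (h k)) ^ 2 * (Rr k (h k) * h k) : ℝ) ≤ h (k + 1) := by
      exact_mod_cast h1 k
    have a4 : (2 ^ k * Rr k (h k) / s k (Rr k (h k)) : ℝ) ≤ jj k (Rr k (h k)) := by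
      simp only [jj]; push_cast; linarith [Nat.le_ceil (2 ^ k * Rr k (h k) / s k (Rr k (h k)) : ℝ)]
    have a5 := hs k (Rr k (h k))
    have a6 : (1 : ℝ) ≤ h (k + 1) := by exact_mod_cast h0 (k + 1)
    rw [e]
    push_cast
    generalize (h k : ℝ) = x, (Rr k (h k) : ℝ) = R, (jj k (Rr k (h k)) : ℝ) = j,
      (h (k + 1) : ℝ) = y, s k (Rr k (h k)) = σ at *
    have b1 : R * x * ((1 / 2) ^ (k + 1) / y ^ 2) ≤ 1 / j := by
      have c1 : ((1 / 2 : ℝ)) ^ (k + 1) ≤ 1 := pow_le_one₀ (by norm_num) (by norm_num)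
      rw [← mul_div_assoc, div_le_div_iff₀ (by positivity) (by positivity)]
      calc R * x * (1 / 2) ^ (k + 1) * j ≤ R * x * 1 * j := by gcongr
        _ = 1 * (j * 1) * (R * x) := by ring
        _ ≤ R * (j * j) * (R * x) := by gcongr
        _ ≤ y * 1 := by rw [← sq, mul_one]; exact a3
        _ ≤ 1 * y ^ 2 := by rw [one_mul, sq]; gcongr
    have b2 : √(1 / j ^ 2) = 1 / j := by
      rw [← one_pow 2, ← div_pow, Real.sqrt_sq (by positivity), one_pow]
    rw [b2, div_le_iff₀ a5]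
    rw [div_le_iff₀ a5] at a4
    calc R * (R * x * ((1 / 2) ^ (k + 1) / y ^ 2) + 2 * (1 / j)) ≤ R * (1 / j + 2 * (1 / j)) := by
          gcongr
      _ = 3 * (2 ^ k * R) / (j * 2 ^ k) := by field_simp; ring
      _ ≤ 3 * (j * σ) / (j * 2 ^ k) := by gcongr
      _ = _ := by field_simp

end Pool.Agent.Lib.MP_9f219e_an
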