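import Pool.Agent.Lib.MP_9f219e_an.Approx
import Pool.Agent.Lib.MP_9f219e_an.Param

/-!
The base transformation with its cocycle.
-/

open MeasureTheory Set Filter Topology Polynomial
open scoped InnerProductSpace ENNReal NNReal ComplexConjugate

namespace Pool.Agent.Lib.MP_9f219e_an

/-- the properties of the base system -/
structure IsBase (n : ℕ) {Y : Type} [MeasurableSpace Y] (ν : Measure Y) [IsProbabilityMeasure ν]
    (T : Y ≃ᵐ Y) (ψ : ℤ[X] → Y → Circle) (V : ℤ[X] → Un (Lp ℂ 2 ν)) (L : Submodule ℂ (Lp ℂ 2 ν))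
    (f : Un (Lp ℂ 2 ν)) : Prop where
  mp : MeasurePreserving T ν ν
  meas : ∀ χ, Measurable (ψ χ)
  add : ∀ᵐ y ∂ν, ∀ χ χ', ψ (χ + χ') y = ψ χ y * ψ χ' y
  op : ∀ χ F, ∀ᵐ y ∂ν, (V χ).1 F y = ψ χ y * F (T y)
  closed : IsClosed (L : Set (Lp ℂ 2 ν))
  perp : ∀ x ∈ L, ⟪one ν, x⟫_ℂ = 0
  inv : ∀ g, ∀ x ∈ L, repU (V 0) g x ∈ L
  orth : ∀ a b : ZMod n, a ≠ b → ∀ x ∈ L, ∀ y ∈ L, ⟪(f ^ a.val).1 x, (f ^ b.val).1 y⟫_ℂ = 0
  total : ∀ v, ⟪one ν, v⟫_ℂ = 0 → (∀ a : ZMod n, ∀ x ∈ L, ⟪(f ^ a.val).1 x, v⟫_ℂ = 0) → v = 0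
  comm : Commute f (V 0)
  fone : f.1 (one ν) = one ν
  sim0 : ∀ x ∈ L, ∀ y ∈ L, Orth (repU (V 0)) x y →
    (∀ g, ⟪x, repU (V 0) g x⟫_ℂ = ⟪y, repU (V 0) g y⟫_ℂ) → x = 0
  sim : ∀ χ, χ ≠ 0 → ∀ x y, Orth (repU (V χ)) x y →
    (∀ g, ⟪x, repU (V χ) g x⟫_ℂ = ⟪y, repU (V χ) g y⟫_ℂ) → x = 0
  dis : ∀ χ χ', χ ≠ 0 → (∀ r s : ℕ, X ^ r * χ ≠ X ^ s * χ') → ∀ x y,
    (∀ g, ⟪x, repU (V χ) g x⟫_ℂ = ⟪y, repU (V χ') g y⟫_ℂ) → x = 0
  equiv : ∀ χ, ∃ R : Un (Lp ℂ 2 ν), V (X * χ) * R = R * V χ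
  vone : (V 0).1 (one ν) = one ν
  erg : ∀ x, ⟪one ν, x⟫_ℂ = 0 → (V 0).1 x = x → x = 0

theorem exists_base (n : ℕ) [NeZero n] : ∃ (c : ℕ → ℕ) (ν : Measure (∀ m, Fin (c m)))
    (_ : IsProbabilityMeasure ν), ∃ T ψ V L f, IsBase n ν T ψ V L f := by
  obtain ⟨c, c1, c2⟩ := exists_chars n
  obtain ⟨en, hen⟩ := exists_surjective_nat ℤ[X]
  let A : ℕ → ℕ → Set ℂ := fun k R => ⋃ i, ⋃ m ∈ Iic k, (fun r => c i (X ^ r * en m)) '' Iio R
  choose s s0 s1 using fun k R => exists_sep (A := A k R) (finite_iUnion fun i =>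
    (finite_Iic k).biUnion fun m _ => (finite_Iio R).image _)
  obtain ⟨h, R, J, p0, p1, p2, p3, p4⟩ := params (NeZero.pos n) s s0
  have : ∀ k, NeZero (h k) := fun k => ⟨(p0 k).1.ne'⟩
  have : ∀ k, NeZero (R k) := fun k => ⟨(p0 k).2.1.ne'⟩
  have : ∀ k, NeZero (J k) := fun k => ⟨(p0 k).2.2.ne'⟩
  let κ : ℕ → ZMod n → ℕ := fun m =>
    Nat.rec (motive := fun _ => ZMod n → ℕ) 0 (fun m _ => kap (R m) (n * J m * (R m * h m))) m
  choose π j r q1 q2 q3 q4 q5 q6 using fun k =>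
    stage (n := n) (h := h k) (R k) (J k) (h (k + 1)) (p1 k) fun i => κ k i
  obtain ⟨d, ν, lev, _, T⟩ := exists_tower (Q := QQ n h) π fun m => by
    obtain ⟨D, E, hE⟩ := q1 m
    exact ⟨ZMod n × D, ⟨fun q => ((E q.1 q.2).1, q.1, (E q.1 q.2).2),
      fun w => (w.2.1, (E w.2.1).symm (w.1, w.2.2)), fun q => by simp, fun w => by simp⟩,
      fun q => hE _ _⟩
  obtain ⟨B, B0, B1⟩ : ∃ B : ℤ[X] → ∀ m, QQ n h m → Circle, (∀ χ q, B χ 0 q = 1) ∧ ∀ χ m q,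
      B χ (m + 1) q = B χ m (π m q) / c q.1 (X ^ r m q * χ) ^ j m q :=
    ⟨fun χ m => Nat.rec (motive := fun m => QQ n h m → Circle) (fun _ => 1)
      (fun m b q => b (π m q) / c q.1 (X ^ r m q * χ) ^ j m q) m, fun _ _ => rfl, fun _ _ _ => rfl⟩
  have Badd : ∀ χ χ' m q, B (χ + χ') m q = B χ m q * B χ' m q := fun χ χ' m => by
    induction m with
    | zero => simp [B0]
    | succ m ih => intro q; simp only [B1, ih, mul_add, c1, mul_pow, mul_div_mul_comm]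
  have Bz : B 0 = 1 := by
    funext m q
    simpa using Badd 0 0 m q
  have Bq : ∀ χ m q, B χ (m + 1) q / B χ m (π m q) = (c q.1 (X ^ r m q * χ) ^ j m q)⁻¹ :=
    fun χ m q => by rw [B1, div_right_comm, div_self', one_div]
  let e : ZMod n → ∀ m, Equiv.Perm (QQ n h m) := fun a m => sh fun i => κ m (a - i)
  let ff : ∀ m, Equiv.Perm (QQ n h m) := fun _ => rot
  set ε : ℕ → ℝ := fun m => 2 * √(4 / R m) with hε
  have ε0 : ∀ m, 0 ≤ ε m := fun m => by positivity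
  have h1 : ∀ k, (1 : ℝ) ≤ h k := fun k => by exact_mod_cast (p0 k).1
  have t1 : Tendsto (fun k => h k * ε k) atTop (𝓝 0) :=
    squeeze_zero (fun k => by have := ε0 k; positivity)
      (fun k => by have := ε0 k; have := h1 k; gcongr; nlinarith) p3
  have t0 : Tendsto ε atTop (𝓝 0) :=
    squeeze_zero ε0 (fun k => le_mul_of_one_le_left (ε0 k) (h1 k)) t1
  have t2 : Tendsto (ε + ε) atTop (𝓝 0) := by simpa [Pi.add_def] using t0.add t0
  have t3 : Tendsto (fun k => h k * (ε + ε) k) atTop (𝓝 0) := by simpa [mul_add] using t1.add t1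
  have ε2 : ∀ m, 0 ≤ (ε + ε) m := fun m => add_nonneg (ε0 m) (ε0 m)
  have r2 : ∀ m, (2 : ℝ) / R m = 4 / R m / 2 := fun m => by ring
  have r1 : ∀ m, (1 : ℝ) / R m ≤ 4 / R m / 2 := fun m => by rw [← r2]; gcongr; norm_num
  have gz : ∀ χ m, fr (fun q => ¬Gd π (zz n h) (B χ) (B χ) m q) ≤ 4 / R m / 2 := fun χ m =>
    (fr_mono fun q a b => a ⟨b.1, by rw [Bq, Bq]; simp only [zz]; rw [b.2.1, b.2.2]; rfl⟩).trans
      ((q4 m).trans (r1 m))
  have ge : ∀ a m, fr (fun q => ¬Gd π (e a) 1 1 m q) ≤ 4 / R m / 2 := fun a m =>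
    (fr_mono fun q a b => a ⟨b.1, rfl⟩).trans ((q5 m a).trans (r2 m).le)
  have gr : ∀ χ m, fr (fun q => ¬Gd π (e 0) (B χ) (B (X * χ)) m q) ≤ 4 / R m / 2 := fun χ m =>
    (fr_mono fun q a b => a ⟨b.1, by
      rw [Bq, Bq, ← mul_assoc, ← pow_succ, ← (b.2 rfl).1, ← (b.2 rfl).2]; rfl⟩).trans
      ((q5 m 0).trans (r2 m).le)
  have gf : ∀ m, fr (fun q => ¬Gd π ff 1 1 m q) ≤ 4 / R m / 2 := fun m =>
    (fr_mono fun q a b => a ⟨q3 m q, rfl⟩).trans ((q4 m).trans (r1 m))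
  obtain ⟨S, S1, S2⟩ := T.exists_rep (zz n h) p2 (gz 0)
  choose ψ V v1 v2 v3 v4 using fun χ => T.exists_un p2 (gz χ) S1 S2
  have ex : ∀ {g B B'}, (∀ m, fr (fun q => ¬Gd π g B B' m q) ≤ 4 / R m / 2) →
      ∃ U, T.Apx U g B B' ε := fun hg => by
    obtain ⟨S, S1, S2⟩ := T.exists_rep _ p2 hg
    obtain ⟨_, U, -, -, -, hU⟩ := T.exists_un p2 hg S1 S2
    exact ⟨U, hU⟩
  choose W hW using fun a => ex (ge a)
  obtain ⟨f, hf⟩ := ex gf
  have u0 : T.Apx (V 0) (zz n h) 1 1 ε := Bz ▸ v4 0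
  have fix : ∀ {U g}, T.Apx U g 1 1 ε → U.1 (one ν) = one ν := fun {U g} a => by
    refine sub_eq_zero.1 (norm_le_zero_iff.1 (ge_of_tendsto' t0 fun m => ?_))
    simpa [T.io_one, Function.comp_def, ← Pi.one_def] using a m 1
  have uq : ∀ {U U' g g' B B'}, T.Apx U g B B' (ε + ε) → T.Apx U' g' B B' (ε + ε) → g = g' →
      U = U' := fun a b e => a.unique (e ▸ b) ε2 ε2 t2 t2
  have ez : ∀ a, zz n h * e a = e a * zz n h := fun a => funext fun m => by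
    simp only [Pi.mul_apply, zz, e, sh_mul, add_comm]
  have un : ∀ k (t : ℤ), IsUnit (1 + t * (n * J k * (R k * h k) : ℕ) : ZMod (h (k + 1))) :=
    fun k t => unit_kap (n := n) (R := R k) (by
      rw [p1, pow_succ, mul_assoc, mul_assoc, ← mul_assoc n]
      exact Nat.mul_dvd_mul_right (pow_dvd_pow_of_dvd ⟨n * J k * h k, by ring⟩ _) _) t
  obtain ⟨L, l1, l2, l3, l4, l5⟩ := split (one ν) (V 0) f W (fix u0) (fix hf) (fun j => fix (hW j))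
    (fun a => uq (u0.mul (hW a) ε0) ((hW a).mul u0 ε0) (ez a))
    (fun a b => uq ((hW b).mul (hW a) ε0) ((hW a).mul (hW b) ε0) (funext fun m => by
      simp only [Pi.mul_apply, e, sh_mul, add_comm]))
    (fun a => uq (hf.mul (hW a) ε0) ((hW (a + 1)).mul hf ε0) (funext fun m => Equiv.ext fun q => by
      simp only [Pi.mul_apply, Equiv.Perm.mul_apply, e, ff]
      rw [sh_apply, rot_apply, rot_apply, sh_apply, add_sub_add_right_eq_sub]))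
    (fun a b hab => IsTower.erg (((hW b).inv ε0).mul (hW a) ε0) ε2 t3 (fun k => ⟨a, _, by
      simp only [Pi.mul_apply, Pi.inv_apply, e, sh_inv, sh_mul]; rfl, by
      refine Eq.subst ?_ (un k (1 - R k ^ (b - a).val))
      simp [κ, kap, sub_eq_zero, hab.symm]; ring⟩) q1)
    (fun a b hab => IsTower.erg ((hW b).mul (hW a) ε0) ε2 t3 (fun k => ⟨a, _, by
      simp only [Pi.mul_apply, e, sh_mul]; rfl, by
      refine Eq.subst ?_ (un k (1 + R k ^ (b - a).val))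
      simp [κ, kap, sub_eq_zero, hab.symm]; ring⟩) q1)
  have cf : Commute f (V 0) := uq (u0.mul hf ε0) (hf.mul u0 ε0) rfl
  have loc : ∀ χ k, T.Loc (B χ) (V χ) k (R k * h k)
      (fun i => (fun s => c i (X ^ s * χ)) '' Iio (R k))
      (R k * ((R k * h k : ℕ) * ε (k + 1) + 2 * √(1 / J k))) := fun χ k =>
    IsTower.loc (v4 χ) ε0 (q2 k) (fun i s => c i (X ^ s * χ)) ((fr_mono fun q a b => a
      ⟨b.1, b.2.2, by
        rw [← inv_div (B χ (k + 1) q), Bq, ← b.1, ← inv_div, Bq, b.2.1, b.2.2, inv_inv, inv_inv,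
          pow_succ']; rfl⟩).trans (q6 k))
  have ne : ∀ χ k i, ((fun s => (c i (X ^ s * χ) : ℂ)) '' Iio (R k)).Nonempty := fun χ k i =>
    ⟨_, 0, (p0 k).2.1, rfl⟩
  have θ0 : ∀ k, (0 : ℝ) ≤ R k * ((R k * h k : ℕ) * ε (k + 1) + 2 * √(1 / J k)) := fun k => by
    have := ε0 (k + 1); positivity
  have inA : ∀ χ, ∀ᶠ k in atTop, ∀ i,
      (fun s => (c i (X ^ s * χ) : ℂ)) '' Iio (R k) ⊆ A k (R k) := fun χ => by
    obtain ⟨m, rfl⟩ := hen χ
    exact (eventually_ge_atTop m).mono fun k hk i a ha => mem_iUnion.2 ⟨i, mem_iUnion₂.2 ⟨m, hk, ha⟩⟩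
  refine ⟨d, ν, inferInstance, S, ψ, V, L, f, S1, v1, ?_, v3, l1, l2, l3, l4, l5, cf, fix hf,
    fun x hx y hy ho hc => ?_, fun χ hχ x y => ?_, fun χ χ' hχ hr x y => ?_, fun χ => ?_, fix u0,
    IsTower.erg u0 ε0 t1 (fun k => ⟨0, 1, rfl, isUnit_one⟩) q1⟩
  · filter_upwards [ae_all_iff.2 v2] with y hy χ χ'
    obtain ⟨m, ⟨a1, a2⟩, a3⟩ := (((hy χ).and (hy χ')).and (hy (χ + χ'))).exists
    rw [a1, a2, a3, Badd, Badd, mul_div_mul_comm]
  · have ri : ∀ k : ℕ, ∀ g v, (f ^ k).1 (repU (V 0) g v) = repU (V 0) g ((f ^ k).1 v) := fun k =>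
      repU_intertwine _ fun v => by rw [← u_mul, (cf.pow_left k).eq, u_mul]
    have m : ∀ b : Bool, cond b x y ∈ L := fun b => by cases b; exacts [hy, hx]
    refine IsTower.rank_n u0 ε0 p3 (ι := ZMod n × Bool) (by have := NeZero.pos n; simp; omega)
      (x := fun w => (f ^ w.1.val).1 (cond w.2 x y)) (fun w g => ?_) fun w w' hw g => ?_
    · rw [← ri, u_inner]
      cases w.2; exacts [(hc g).symm, rfl]
    · rw [← ri]
      by_cases e : w.1 = w'.1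
      · have : w.2 ≠ w'.2 := fun e' => hw (Prod.ext e e')
        rw [e, u_inner]
        revert this
        cases w.2 <;> cases w'.2 <;> intro this
        exacts [(this rfl).elim, ho.symm g, ho g, (this rfl).elim]
      · exact l4 _ _ e _ (m _) _ (l3 _ _ (m _))
  · refine IsTower.rank_one (v4 χ) ε0 p3 (loc χ) (ne χ) (fun k => s0 k (R k)) θ0 p4 ?_
    filter_upwards [inA χ] with k hk i i' hi a ha b hb
    refine s1 _ _ a (hk i ha) b (hk i' hb) ?_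
    obtain ⟨u, -, rfl⟩ := ha
    obtain ⟨u', -, rfl⟩ := hb
    exact fun e => hi (c2 _ _ _ _ (by simp [hχ]) (Circle.coe_injective e)).1
  · refine IsTower.disj (loc χ) (loc χ') (ne χ) (ne χ') (fun k => s0 k (R k)) θ0 p4 ?_
    filter_upwards [inA χ, inA χ'] with k hk hk' i i' a ha b hb
    refine s1 _ _ a (hk i ha) b (hk' i' hb) ?_
    obtain ⟨u, -, rfl⟩ := ha
    obtain ⟨u', -, rfl⟩ := hb
    exact fun e => hr _ _ (c2 _ _ _ _ (by simp [hχ]) (Circle.coe_injective e)).2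
  · obtain ⟨U, hU⟩ := ex (gr χ)
    exact ⟨U, uq (hU.mul (v4 _) ε0) ((v4 χ).mul hU ε0) (ez 0).symm⟩

end Pool.Agent.Lib.MP_9f219e_an
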