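import Pool.Agent.Lib.MP_9f219e_an.Model

/-!
From a block decomposition to the set of multiplicities.
-/

open MeasureTheory Set Filter Topology
open scoped InnerProductSpace ENNReal NNReal ComplexConjugate

namespace Pool.Agent.Lib.MP_9f219e_an

theorem blocks {X : Type} [MeasurableSpace X] (μ : Measure X) [IsProbabilityMeasure μ]
    (T : X → X) (U : Un (Lp ℂ 2 μ)) (hU : ∀ F, ∀ᵐ x ∂μ, U.1 F x = F (T x))
    (hU1 : U.1 (one μ) = one μ) {H : Type*} [NormedAddCommGroup H] [InnerProductSpace ℂ H]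
    [CompleteSpace H] [TopologicalSpace.SeparableSpace H] {P A : Type*} [Countable P]
    (bl : P → A) (V : A → Un H) (L : A → Submodule ℂ H) (hLc : ∀ a, IsClosed (L a : Set H))
    (hLi : ∀ a g, ∀ x ∈ L a, repU (V a) g x ∈ L a) (J : P → H →L[ℂ] Lp ℂ 2 μ)
    (hJn : ∀ p x, ‖J p x‖ = ‖x‖) (hJ : ∀ p x, J p ((V (bl p)).1 x) = U.1 (J p x))
    (hJo : ∀ p q, p ≠ q → ∀ x ∈ L (bl p), ∀ y ∈ L (bl q), ⟪J p x, J q y⟫_ℂ = 0)
    (hJ1 : ∀ p, ∀ x ∈ L (bl p), ⟪one μ, J p x⟫_ℂ = 0)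
    (htot : ∀ F, ⟪one μ, F⟫_ℂ = 0 → (∀ p, ∀ x ∈ L (bl p), ⟪J p x, F⟫_ℂ = 0) → F = 0)
    (hsim : ∀ p, ∀ x ∈ L (bl p), ∀ y ∈ L (bl p), Orth (repU (V (bl p))) x y →
      (∀ g, ⟪x, repU (V (bl p)) g x⟫_ℂ = ⟪y, repU (V (bl p)) g y⟫_ℂ) → x = 0)
    (hdis : ∀ p q, bl p ≠ bl q → ∀ x ∈ L (bl p), ∀ y ∈ L (bl q),
      (∀ g, ⟪x, repU (V (bl p)) g x⟫_ℂ = ⟪y, repU (V (bl q)) g y⟫_ℂ) → x = 0) :
    HasMultiplicities μ T {k | ∃ p, L (bl p) ≠ ⊥ ∧ k = (bl ⁻¹' {bl p}).encard} := by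
  choose S S1 S2 S3 S4 using fun a => exists_decomp (repU (V a)) (L a)
  let I := {i : P × H // i.2 ∈ S (bl i.1)}
  let C := {c : A × H // c.1 ∈ range bl ∧ c.2 ∈ S c.1}
  let cl : I → C := fun i => ⟨(bl i.1.1, i.1.2), mem_range_self _, i.2⟩
  have hcl : Function.Surjective cl := by
    rintro ⟨⟨a, s⟩, ⟨p, hp⟩, hs⟩
    obtain rfl : bl p = a := hp
    exact ⟨⟨(p, s), hs⟩, rfl⟩
  have : Countable I := by
    refine Set.Countable.to_subtype (s := {i : P × H | i.2 ∈ S (bl i.1)})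
      ((countable_iUnion fun p => (S1 (bl p)).image (Prod.mk p)).mono fun i hi => ?_)
    exact mem_iUnion.2 ⟨i.1, i.2, hi, rfl⟩
  have : Countable C := hcl.countable
  obtain ⟨w, w0, w1⟩ := ENNReal.exists_pos_sum_of_countable one_ne_zero C
  let x : C → H := fun c => (Real.sqrt (w c) : ℂ) • c.1.2
  have xL : ∀ c, x c ∈ L c.1.1 := fun c => (L _).smul_mem _ (S2 _ _ c.2.2).1
  have w2 : ∀ c, (Real.sqrt (w c) : ℂ) ≠ 0 := fun c => by simpa using (w0 c).ne'
  choose σ σ1 σ2 using fun c : C => exists_spec (repU (V c.1.1)) (x c)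
  have σ3 : ∀ c, σ c univ = w c := fun c => by
    have := (σ2 c).norm_sq 1
    simp only [map_one, ContinuousLinearMap.one_apply, x, norm_smul, (S2 _ _ c.2.2).2, mul_one,
      Complex.norm_real, Real.norm_eq_abs, sq_abs, ContinuousMap.one_apply,
      norm_one, one_pow, integral_const, smul_eq_mul] at this
    rw [← ofReal_measureReal, ← this, Real.sq_sqrt (w c).coe_nonneg]
    exact ENNReal.ofReal_coe_nnreal
  have : IsFiniteMeasure (Measure.sum σ) :=
    ⟨by rw [Measure.sum_apply_of_countable]; simp only [σ3]; exact w1.trans ENNReal.one_lt_top⟩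
  have ri := fun p => repU_intertwine (J p) (hJ p)
  have ox : ∀ c d : C, c ≠ d → c.1.1 = d.1.1 → Orth (repU (V c.1.1)) (x c) (x d) := by
    intro c d hcd e g
    have := S3 c.1.1 c.2.2 (e ▸ d.2.2) (fun h => hcd (Subtype.ext (Prod.ext e h))) g
    simp only [x, map_smul, inner_smul_left, inner_smul_right, this, mul_zero]
  have key := model0 μ T U hU hU1 cl hcl (fun i => J i.1.1 (x (cl i))) σ
    (fun c h => (w0 c).ne' (by simpa [h] using (σ3 c).symm))
    (fun i g => by rw [← ri, inner_of_norm _ (hJn _)]; exact σ2 (cl i) g)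
    (fun i j hij g => by
      rw [← ri]
      by_cases e : i.1.1 = j.1.1
      · rw [← e, inner_of_norm _ (hJn _)]
        exact ox (cl i) (cl j) (fun h => hij (Subtype.ext (Prod.ext e
          (congrArg (fun c : C => c.1.2) h)))) (congrArg bl e) g
      · exact hJo _ _ e _ (xL (cl i)) _ (hLi _ _ _ (xL (cl j))))
    (fun c d hcd => by
      by_contra hns
      obtain ⟨x', m1, y', m2, n0, e⟩ := common_part (σ2 c) (σ2 d) hns
      have l1 := cyc_subset (hLc _) (hLi _) (xL c) m1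
      have l2 := cyc_subset (hLc _) (hLi _) (xL d) m2
      have o := ox c d hcd
      obtain ⟨p, hp⟩ := c.2.1
      obtain ⟨q, hq⟩ := d.2.1
      by_cases h : c.1.1 = d.1.1
      · have o' := o h
        rw [← h] at l2 m2 e
        rw [← hp] at l1 l2 m1 m2 e o'
        exact n0 (hsim p _ l1 _ l2 (o'.cyc m1 m2) e)
      · rw [← hp, ← hq] at h e
        rw [← hp] at l1
        rw [← hq] at l2
        exact n0 (hdis p q h _ l1 _ l2 e))
    (fun i => hJ1 _ _ (xL (cl i)))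
    (fun F h1 h2 => htot F h1 fun p y hy => by
      have : CompleteSpace (L (bl p)) := (hLc _).completeSpace_coe
      obtain ⟨u, hu, r, hr, e⟩ :=
        (L (bl p)).exists_add_mem_mem_orthogonal (ContinuousLinearMap.adjoint (J p) F)
      have a : ∀ z ∈ L (bl p), ⟪J p z, F⟫_ℂ = ⟪z, u⟫_ℂ := fun z hz => by
        rw [← ContinuousLinearMap.adjoint_inner_right, e, inner_add_right,
          (Submodule.mem_orthogonal _ _).1 hr z hz, add_zero]
      rw [a y hy, S4 _ u hu fun s hs g => ?_, inner_zero_right]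
      have := h2 ⟨(p, s), hs⟩ g
      simp only [x, map_smul, inner_smul_left, mul_eq_zero, map_eq_zero, w2, false_or] at this
      rw [← a _ (hLi _ _ _ (S2 _ _ hs).1), ri]
      exact this)
  have card : ∀ i : I, (cl ⁻¹' {cl i}).encard = (bl ⁻¹' {bl i.1.1}).encard := fun i => by
    rw [← InjOn.encard_image (f := fun j : I => j.1.1)]
    · congr 1
      ext p
      refine ⟨?_, fun hp => ⟨⟨(p, i.1.2), by rw [show bl p = _ from hp]; exact i.2⟩,
        Subtype.ext (Prod.ext hp rfl), rfl⟩⟩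
      rintro ⟨j, hj, rfl⟩
      exact congrArg (fun c : C => c.1.1) hj
    · intro a ha b hb e
      exact Subtype.ext (Prod.ext e (congrArg (fun c : C => c.1.2) (ha.trans hb.symm)))
  refine Eq.subst ?_ key
  ext k
  constructor
  · rintro ⟨c, rfl⟩
    obtain ⟨i, rfl⟩ := hcl c
    refine ⟨i.1.1, fun h => ?_, card i⟩
    have := S2 _ _ i.2
    rw [h, Submodule.mem_bot] at this
    simpa [this.1] using this.2
  · rintro ⟨p, hp, rfl⟩
    obtain ⟨v, hv, v0⟩ := Submodule.exists_mem_ne_zero_of_ne_bot hp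
    by_cases h : ∃ s, s ∈ S (bl p)
    · obtain ⟨s, hs⟩ := h
      exact ⟨cl ⟨(p, s), hs⟩, card _⟩
    · exact (v0 (S4 _ v hv fun s hs => (h ⟨s, hs⟩).elim)).elim

end Pool.Agent.Lib.MP_9f219e_an
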