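import Pool.Agent.Lib.MP_9f219e_an.Spec

/-!
Cyclic subspaces: common parts, the counting inequality, cyclic decompositions.
-/

open MeasureTheory Set Filter Topology
open scoped InnerProductSpace ENNReal ComplexConjugate

namespace Pool.Agent.Lib.MP_9f219e_an

variable {H : Type*} [NormedAddCommGroup H] [InnerProductSpace ℂ H] [CompleteSpace H]
variable {H' : Type*} [NormedAddCommGroup H'] [InnerProductSpace ℂ H'] [CompleteSpace H']
variable {Ω : Type*} [TopologicalSpace Ω]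

/-- the cyclic subspaces of `x` and `y` are orthogonal -/
def Orth (ρ : Rep Ω H) (x y : H) : Prop := ∀ g, ⟪x, ρ g y⟫_ℂ = 0

/-- the cyclic subspace -/
def Cyc (ρ : Rep Ω H) (x : H) : Set H := closure (range fun g => ρ g x)

lemma Orth.symm {ρ : Rep Ω H} {x y : H} (h : Orth ρ x y) : Orth ρ y x := fun g => by
  rw [← inner_conj_symm, rep_inner, h, map_zero]

lemma Orth.cyc_right {ρ : Rep Ω H} {x y y' : H} (h : Orth ρ x y) (hy : y' ∈ Cyc ρ y) :
    Orth ρ x y' := fun g => by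
  have hc : IsClosed {v : H | ⟪x, ρ g v⟫_ℂ = 0} := isClosed_eq (by fun_prop) continuous_const
  refine closure_minimal ?_ hc hy
  rintro _ ⟨k, rfl⟩
  simp only [mem_ofPred_eq, ← rep_mul]
  exact h _

lemma Orth.cyc {ρ : Rep Ω H} {x y x' y' : H} (h : Orth ρ x y) (hx : x' ∈ Cyc ρ x)
    (hy : y' ∈ Cyc ρ y) : Orth ρ x' y' := ((h.cyc_right hy).symm.cyc_right hx).symm

lemma cyc_subset {ρ : Rep Ω H} {L : Submodule ℂ H} (hL : IsClosed (L : Set H))
    (h : ∀ g, ∀ x ∈ L, ρ g x ∈ L) {x : H} (hx : x ∈ L) : Cyc ρ x ⊆ L :=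
  closure_minimal (by rintro _ ⟨g, rfl⟩; exact h g x hx) hL

theorem exists_decomp [TopologicalSpace.SeparableSpace H] (ρ : Rep Ω H) (L : Submodule ℂ H) :
    ∃ S : Set H, S.Countable ∧ (∀ x ∈ S, x ∈ L ∧ ‖x‖ = 1) ∧ S.Pairwise (Orth ρ) ∧
      ∀ v ∈ L, (∀ x ∈ S, ∀ g, ⟪ρ g x, v⟫_ℂ = 0) → v = 0 := by
  obtain ⟨S, hS⟩ := zorn_subset {S : Set H | (∀ x ∈ S, x ∈ L ∧ ‖x‖ = 1) ∧ S.Pairwise (Orth ρ)}
    (fun c hc hch => ⟨⋃₀ c, ⟨fun x ⟨t, ht, hx⟩ => (hc ht).1 x hx,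
      (Set.pairwise_sUnion (IsChain.directedOn hch)).2 fun t ht => (hc ht).2⟩, fun t ht => subset_sUnion_of_mem ht⟩)
  refine ⟨S, ?_, hS.1.1, hS.1.2, fun v hv ho => ?_⟩
  · refine Set.PairwiseDisjoint.countable_of_isOpen (s := fun x => Metric.ball x (1 / 2))
      (fun x hx y hy hxy => Metric.ball_disjoint_ball ?_) (fun _ _ => Metric.isOpen_ball)
      fun x _ => ⟨x, Metric.mem_ball_self (by norm_num)⟩
    have h0 : ⟪x, y⟫_ℂ = 0 := by simpa using hS.1.2 hx hy hxy 1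
    have h1 := norm_sub_sq (𝕜 := ℂ) x y
    rw [h0, (hS.1.1 x hx).2, (hS.1.1 y hy).2] at h1
    rw [dist_eq_norm]
    simp only [map_zero] at h1
    nlinarith [norm_nonneg (x - y)]
  · by_contra h0
    have hn : (‖v‖ : ℂ) ≠ 0 := by simpa using h0
    set u := (‖v‖ : ℂ)⁻¹ • v with hu
    have o : ∀ x ∈ S, Orth ρ x u := fun x hx g => by
      rw [hu, map_smul, inner_smul_right, ← star_star g, ← rep_inner, ho x hx, mul_zero]
    have hmem : insert u S ∈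
        {S : Set H | (∀ x ∈ S, x ∈ L ∧ ‖x‖ = 1) ∧ S.Pairwise (Orth ρ)} := by
      refine ⟨?_, hS.1.2.insert fun x hx _ => ⟨(o x hx).symm, o x hx⟩⟩
      rintro x (rfl | hx)
      · exact ⟨L.smul_mem _ hv, by simp [hu, norm_smul, h0]⟩
      · exact hS.1.1 x hx
    have := ho u (hS.2 hmem (subset_insert _ _) (mem_insert _ _)) 1
    simp [hu, inner_smul_left, h0] at this

lemma matrix_ineq {ι κ : Type*} [Fintype ι] [Fintype κ] [DecidableEq ι]
    (hc : Fintype.card κ < Fintype.card ι) (P : ι → κ → ℂ) (h : κ → ι → ℂ) :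
    1 ≤ ∑ j, ∑ i, ‖(if i = j then 1 else 0) - ∑ l, P j l * h l i‖ ^ 2 := by
  obtain ⟨u, hu, u0⟩ := Submodule.exists_mem_ne_zero_of_ne_bot
    (LinearMap.ker_ne_bot_of_finrank_lt (f := Matrix.mulVecLin (Matrix.of h)) (by simpa using hc))
  have hu' : ∀ l, ∑ i, h l i * u i = 0 := fun l => congrFun hu l
  have hpos : 0 < ∑ i, ‖u i‖ ^ 2 := by
    obtain ⟨i, hi⟩ := Function.ne_iff.1 u0
    exact Finset.sum_pos' (fun _ _ => by positivity) ⟨i, Finset.mem_univ _, by positivity⟩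
  refine le_of_mul_le_mul_right ?_ hpos
  rw [one_mul, Finset.sum_mul]
  refine Finset.sum_le_sum fun j _ => ?_
  have e : u j = ∑ i, ((if i = j then 1 else 0) - ∑ l, P j l * h l i) * u i := by
    simp only [sub_mul, Finset.sum_sub_distrib, Finset.sum_mul, mul_assoc]
    rw [Finset.sum_comm]
    simp [← Finset.mul_sum, hu']
  refine le_trans ?_ (Finset.sum_mul_sq_le_sq_mul_sq _ _ _)
  refine pow_le_pow_left₀ (norm_nonneg _) ?_ 2
  conv_lhs => rw [e]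
  exact (norm_sum_le _ _).trans (le_of_eq (Finset.sum_congr rfl fun i _ => norm_mul _ _))

variable [CompactSpace Ω] [MeasurableSpace Ω] [BorelSpace Ω] [TopologicalSpace.MetrizableSpace Ω]

lemma inner_of_norm {E : Type*} [NormedAddCommGroup E] [InnerProductSpace ℂ E] (Φ : E →L[ℂ] H)
    (h : ∀ k, ‖Φ k‖ = ‖k‖) (a b : E) : ⟪Φ a, Φ b⟫_ℂ = ⟪a, b⟫_ℂ :=
  (⟨Φ.toLinearMap, h⟩ : E →ₗᵢ[ℂ] H).inner_map_map a b

lemma phi_mem_cyc {ρ : Rep Ω H} {x : H} {σ : Measure Ω} [IsFiniteMeasure σ]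
    {Φ : Lp ℂ 2 σ →L[ℂ] H} (e : ∀ g, Φ (ContinuousMap.toLp 2 σ ℂ g) = ρ g x) (k : Lp ℂ 2 σ) :
    Φ k ∈ Cyc ρ x :=
  (toLp_dense σ).induction_on k (isClosed_closure.preimage Φ.continuous) fun g =>
    subset_closure ⟨g, (e g).symm⟩

lemma part_vector {ρ : Rep Ω H} {x : H} {σ μ : Measure Ω} [IsFiniteMeasure σ] [IsFiniteMeasure μ]
    (h : IsSpec ρ x σ) (hle : σ ≤ μ) {b : Ω → ℝ≥0∞} (hb : Measurable b) (hb1 : b ≤ᵐ[μ] 1) :
    ∃ x' ∈ Cyc ρ x, (∀ g : C(Ω, ℂ), ⟪x', ρ g x'⟫_ℂ =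
      ∫ w, g w * (((σ.rnDeriv μ w).toReal : ℂ) * (b w).toReal) ∂μ) ∧ (x' = 0 → b =ᵐ[σ] 0) := by
  obtain ⟨Φ, h1, h2, h3⟩ := exists_Phi h
  have ac := Measure.absolutelyContinuous_of_le hle
  have hm : MemLp (fun w => ((Real.sqrt (b w).toReal : ℝ) : ℂ)) 2 σ := by
    refine MemLp.of_bound (Measurable.aestronglyMeasurable (by fun_prop)) 1 ?_
    filter_upwards [ac.ae_le hb1] with w hw
    rw [Complex.norm_real, Real.norm_of_nonneg (Real.sqrt_nonneg _), Real.sqrt_le_one]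
    exact ENNReal.toReal_le_of_le_ofReal zero_le_one (by simpa using hw)
  refine ⟨Φ hm.toLp, phi_mem_cyc h2 _, fun g => ?_, fun h0 => ?_⟩
  · rw [← h3, inner_of_norm Φ h1, mulL_inner, ← integral_rnDeriv_smul ac]
    have e := integral_congr_ae (μ := σ) (f := fun w => g w * (conj ((hm.toLp _ : Lp ℂ 2 σ) w) * (hm.toLp _ : Lp ℂ 2 σ) w))
      (g := fun w => g w * ((b w).toReal : ℂ)) (by
        filter_upwards [hm.coeFn_toLp] with w hw
        rw [hw, Complex.conj_ofReal, ← Complex.ofReal_mul, Real.mul_self_sqrt ENNReal.toReal_nonneg])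
    rw [integral_rnDeriv_smul ac, e, ← integral_rnDeriv_smul ac]
    refine integral_congr_ae (Eventually.of_forall fun w => ?_)
    simp only [Complex.real_smul]
    ring
  · have : hm.toLp = 0 := by rw [← norm_eq_zero, ← h1, h0, norm_zero]
    filter_upwards [hm.coeFn_toLp, Lp.coeFn_zero ℂ 2 σ, ac.ae_le hb1] with w e1 e2 e3
    rw [this, e2] at e1
    have e4 : Real.sqrt (b w).toReal = 0 := Complex.ofReal_eq_zero.1 e1.symm
    rw [Real.sqrt_eq_zero ENNReal.toReal_nonneg, ENNReal.toReal_eq_zero_iff] at e4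
    exact e4.resolve_right (ne_top_of_le_ne_top ENNReal.one_ne_top e3)

theorem common_part {ρ : Rep Ω H} {ρ' : Rep Ω H'} {x : H} {y : H'} {σ τ : Measure Ω}
    [IsFiniteMeasure σ] [IsFiniteMeasure τ] (hx : IsSpec ρ x σ) (hy : IsSpec ρ' y τ)
    (hns : ¬ σ ⟂ₘ τ) : ∃ x' ∈ Cyc ρ x, ∃ y' ∈ Cyc ρ' y, x' ≠ 0 ∧
      ∀ g, ⟪x', ρ g x'⟫_ℂ = ⟪y', ρ' g y'⟫_ℂ := by
  have l1 : σ ≤ σ + τ := Measure.le_add_right le_rfl
  have l2 : τ ≤ σ + τ := Measure.le_add_left le_rfl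
  obtain ⟨x', m1, e1, z1⟩ := part_vector hx l1 (τ.measurable_rnDeriv (σ + τ))
    (Measure.rnDeriv_le_one_of_le l2)
  obtain ⟨y', m2, e2, -⟩ := part_vector hy l2 (σ.measurable_rnDeriv (σ + τ))
    (Measure.rnDeriv_le_one_of_le l1)
  refine ⟨x', m1, y', m2, fun h0 => hns ?_, fun g => ?_⟩
  · have hm : MeasurableSet {w | τ.rnDeriv (σ + τ) w = 0} :=
      τ.measurable_rnDeriv (σ + τ) (measurableSet_singleton 0)
    refine ⟨{w | τ.rnDeriv (σ + τ) w = 0}ᶜ, hm.compl, z1 h0, ?_⟩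
    rw [compl_compl, ← Measure.setLIntegral_rnDeriv (Measure.absolutelyContinuous_of_le l2),
      setLIntegral_congr_fun hm (fun w hw => hw), lintegral_zero]
  · rw [e1, e2]
    simp only [mul_comm ((σ.rnDeriv (σ + τ) _).toReal : ℂ)]

theorem counting {ι κ : Type*} [Fintype ι] [Fintype κ] (hc : Fintype.card κ < Fintype.card ι)
    {ρ : Rep Ω H} {σ : Measure Ω} [IsFiniteMeasure σ] {x : ι → H} (hσ : ∀ i, IsSpec ρ (x i) σ)
    (ho : ∀ i j, i ≠ j → Orth ρ (x i) (x j)) (η : κ → H) (p : ι → κ → C(Ω, ℂ)) :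
    σ.real univ ≤ ∑ j, ‖x j - ∑ l, ρ (p j l) (η l)‖ ^ 2 := by
  classical
  choose Φ h1 h2 h3 using fun i => exists_Phi (hσ i)
  set A := fun i => ContinuousLinearMap.adjoint (Φ i) with hA
  have hAi : ∀ i k v, ⟪k, A i v⟫_ℂ = ⟪Φ i k, v⟫_ℂ := fun i k v =>
    ContinuousLinearMap.adjoint_inner_right _ _ _
  have orth : ∀ i j, i ≠ j → ∀ k k', ⟪Φ i k, Φ j k'⟫_ℂ = 0 := fun i j hij k k' => by
    simpa using (ho i j hij).cyc (phi_mem_cyc (h2 i) k) (phi_mem_cyc (h2 j) k') 1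
  have a1 : ∀ i g v, A i (ρ g v) = mulL σ g (A i v) := fun i g v =>
    ext_inner_left ℂ fun k => by
      rw [hAi, ← mulL_adj, hAi, h3, rep_inner, star_star]
  have a2 : ∀ i j, A i (x j) = if i = j then ContinuousMap.toLp 2 σ ℂ 1 else 0 := fun i j =>
    ext_inner_left ℂ fun k => by
      have : x j = Φ j (ContinuousMap.toLp 2 σ ℂ 1) := by rw [h2]; simp
      rw [hAi, this]
      split_ifs with hij
      · subst hij; exact inner_of_norm _ (h1 i) _ _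
      · rw [orth i j hij, inner_zero_right]
  have bessel : ∀ v, ∑ i, ‖A i v‖ ^ 2 ≤ ‖v‖ ^ 2 := by
    intro v
    set w := ∑ i, Φ i (A i v) with hw
    have e1 : ⟪w, v⟫_ℂ = ((∑ i, ‖A i v‖ ^ 2 : ℝ) : ℂ) := by
      rw [hw, sum_inner]
      push_cast
      exact Finset.sum_congr rfl fun i _ => by
        rw [← hAi]; exact inner_self_eq_norm_sq_to_K (𝕜 := ℂ) _
    have e2 : ⟪w, w⟫_ℂ = ((∑ i, ‖A i v‖ ^ 2 : ℝ) : ℂ) := by
      rw [hw, sum_inner]
      push_cast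
      refine Finset.sum_congr rfl fun i _ => ?_
      rw [inner_sum, Finset.sum_eq_single i (fun j _ hj => orth i j hj.symm _ _) (by simp),
        inner_of_norm _ (h1 i)]
      exact inner_self_eq_norm_sq_to_K (𝕜 := ℂ) _
    have e3 : ‖w‖ ^ 2 = ∑ i, ‖A i v‖ ^ 2 := by
      rw [← inner_self_eq_norm_sq (𝕜 := ℂ), e2]; rfl
    have e4 : ∑ i, ‖A i v‖ ^ 2 ≤ ‖w‖ * ‖v‖ := by
      have := re_inner_le_norm (𝕜 := ℂ) w v
      rwa [e1] at this
    nlinarith [norm_nonneg w, norm_nonneg v, sq_nonneg (‖w‖ - ‖v‖)]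
  refine le_trans ?_ (Finset.sum_le_sum fun j _ => bessel _)
  simp only [norm_sq_L2]
  simp only [← integral_finset_sum _ fun i _ => integrable_sq_L2 _]
  rw [← integral_finset_sum _ fun j _ => integrable_finset_sum _ fun i _ => integrable_sq_L2 _]
  have : σ.real univ = ∫ _w, (1 : ℝ) ∂σ := by simp
  rw [this]
  refine integral_mono_ae (integrable_const _)
    (integrable_finset_sum _ fun j _ => integrable_finset_sum _ fun i _ => integrable_sq_L2 _) ?_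
  have key : ∀ j i, ∀ᵐ w ∂σ, (A i (x j - ∑ l, ρ (p j l) (η l))) w =
      (if i = j then 1 else 0) - ∑ l, p j l w * A i (η l) w := by
    intro j i
    rw [map_sub, map_sum, a2]
    simp only [a1]
    filter_upwards [Lp.coeFn_sub (if i = j then ContinuousMap.toLp 2 σ ℂ (1 : C(Ω, ℂ)) else 0)
        (∑ l, mulL σ (p j l) (A i (η l))),
      Lp.coeFn_fun_finsetSum Finset.univ fun l => mulL σ (p j l) (A i (η l)),
      ae_all_iff.2 fun l => mulL_coe σ (p j l) (A i (η l)),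
      ContinuousMap.coeFn_toLp (p := 2) (𝕜 := ℂ) σ (1 : C(Ω, ℂ)), Lp.coeFn_zero ℂ 2 σ]
      with w e1 e2 e3 e4 e5
    rw [e1, Pi.sub_apply, e2]
    simp only [e3]
    split_ifs
    · rw [e4]; rfl
    · rw [e5]; rfl
  filter_upwards [ae_all_iff.2 fun j => ae_all_iff.2 fun i => key j i] with w hw
  simp only [hw]
  exact matrix_ineq hc _ fun l i => A i (η l) w

end Pool.Agent.Lib.MP_9f219e_an
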