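import Mathlib

/-!
The set of spectral multiplicities of a measure-preserving map.
-/

open MeasureTheory

namespace Pool.Agent.Lib.MP_9f219e_an

/-- The measure of the spectral model: `σ × counting measure` on `{(z, j) : j < m z}`. -/
noncomputable def modelMeasure (σ : Measure (Metric.sphere (0 : ℂ) 1))
    (m : Metric.sphere (0 : ℂ) 1 → ℕ∞) : Measure (Metric.sphere (0 : ℂ) 1 × ℕ) :=
  (σ.prod Measure.count).restrict {p | (p.2 : ℕ∞) < m p.1}

/-- The range of `W` is the zero-mean subspace. -/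
def OntoZeroMean {A X : Type} [MeasurableSpace A] [MeasurableSpace X] {ν : Measure A}
    {μ : Measure X} (W : Lp ℂ 2 ν → Lp ℂ 2 μ) : Prop :=
  ∀ f : Lp ℂ 2 μ, f ∈ Set.range W ↔ ∫ x, f x ∂μ = 0

/-- `W` carries multiplication by `a` to composition with `T`. -/
def Intertwines {A X : Type} [MeasurableSpace A] [MeasurableSpace X] {ν : Measure A}
    {μ : Measure X} (W : Lp ℂ 2 ν → Lp ℂ 2 μ) (a : A → ℂ) (T : X → X) : Prop :=
  ∀ g g' : Lp ℂ 2 ν, (∀ᵐ p ∂ν, g' p = a p * g p) → ∀ᵐ x ∂μ, W g' x = W g (T x)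

/-- The Koopman operator of `T` on the zero-mean subspace of `L²(μ)` is unitarily equivalent to
multiplication by `a` on `L²(ν)`. -/
def KoopmanModel {A X : Type} [MeasurableSpace A] [MeasurableSpace X] (ν : Measure A) (a : A → ℂ)
    (μ : Measure X) (T : X → X) : Prop :=
  ∃ W : Lp ℂ 2 ν →ₗᵢ[ℂ] Lp ℂ 2 μ, OntoZeroMean W ∧ Intertwines W a T

/-- The Koopman operator of `T` on the zero-mean subspace of `L²(μ)` is unitarily equivalent to
multiplication by `z` on the direct integral with spectral type `σ` and multiplicity function `m`,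
and `M` is the set of essential values of `m`. -/
def HasMultiplicities {X : Type} [MeasurableSpace X] (μ : Measure X) (T : X → X)
    (M : Set ℕ∞) : Prop :=
  ∃ (σ : Measure (Metric.sphere (0 : ℂ) 1)) (m : Metric.sphere (0 : ℂ) 1 → ℕ∞),
    IsFiniteMeasure σ ∧ Measurable m ∧ (∀ z, 1 ≤ m z) ∧
    KoopmanModel (modelMeasure σ m) (fun p => (p.1 : ℂ)) μ T ∧
    M = {k | σ {z | m z = k} ≠ 0}

end Pool.Agent.Lib.MP_9f219e_an
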