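import Pool.Agent.Lib.MP_9f219e_an.Skew

/-!
The shift on a product of circles has homogeneous spectrum of infinite multiplicity.
-/

open MeasureTheory Set Filter Topology
open scoped InnerProductSpace ENNReal NNReal ComplexConjugate

namespace Pool.Agent.Lib.MP_9f219e_an

lemma corr_ext {H : Type*} [NormedAddCommGroup H] [InnerProductSpace ℂ H] [CompleteSpace H]
    {V : Un H} {x x' : H} (g : C(S1, ℂ)) : ∀ y y',
    (∀ k : ℤ, ⟪x, (V ^ k).1 y⟫_ℂ = ⟪x', (V ^ k).1 y'⟫_ℂ) →
      ∀ k : ℤ, ⟪x, (V ^ k).1 (repU V g y)⟫_ℂ = ⟪x', (V ^ k).1 (repU V g y')⟫_ℂ := by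
  induction g using ContinuousMap.induction_on_of_compact with
  | const r =>
    intro y y' h k
    have e1 : (ContinuousMap.const S1 r) = algebraMap ℂ C(S1, ℂ) r := rfl
    rw [e1, AlgHomClass.commutes]
    simp [Algebra.algebraMap_eq_smul_one, inner_smul_right, h]
  | id =>
    intro y y' h k
    rw [repU_z, ← u_mul, ← u_mul, ← zpow_add_one, h]
  | star_id =>
    intro y y' h k
    rw [repU_star_z, ← u_mul, ← u_mul, ← zpow_sub_one, h]
  | add f g hf hg =>
    intro y y' h k
    simp [inner_add_right, hf y y' h, hg y y' h]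
  | mul f g hf hg =>
    intro y y' h
    rw [rep_mul, rep_mul]
    exact hf _ _ (hg y y' h)
  | frequently f hf =>
    intro y y' h k
    have c := fun v => rep_continuous (repU V) v
    have hc : IsClosed {g : C(S1, ℂ) |
        ⟪x, (V ^ k).1 (repU V g y)⟫_ℂ = ⟪x', (V ^ k).1 (repU V g y')⟫_ℂ} :=
      isClosed_eq (continuous_const.inner ((V ^ k).1.continuous.comp (c y)))
        (continuous_const.inner ((V ^ k).1.continuous.comp (c y')))
    exact hc.closure_subset (mem_closure_iff_frequently.2 (hf.mono fun g hg => hg y y' h k))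

theorem realised_top : Realised {⊤} := by
  classical
  let T : (ℤ → Circle) ≃ᵐ (ℤ → Circle) :=
    { toFun := fun t j => t (j + 1)
      invFun := fun t j => t (j - 1)
      left_inv := fun t => by simp
      right_inv := fun t => by simp
      measurable_toFun := measurable_pi_lambda _ fun j => measurable_pi_apply _
      measurable_invFun := measurable_pi_lambda _ fun j => measurable_pi_apply _ }
  have hT : MeasurePreserving T (hr ℤ) (hr ℤ) := MonoidHom.measurePreserving
    (f := MonoidHom.mk' (fun (t : ℤ → Circle) j => t (j + 1)) fun _ _ => rfl)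
    (continuous_pi fun j => continuous_apply _) T.surjective rfl
  obtain ⟨U, hU'⟩ := exists_un_op hT (ψ := fun _ => 1) measurable_const
  have hU : ∀ F, ∀ᵐ x ∂hr ℤ, U.1 F x = F (T x) := fun F =>
    (hU' F).mono fun x hx => by simpa using hx
  let a : (ℤ →₀ ℤ) → C(ℤ → Circle, ℂ) := fun u => ⟨fun t => ch u t, by fun_prop⟩
  let e : (ℤ →₀ ℤ) → Lp ℂ 2 (hr ℤ) := fun u => ContinuousMap.toLp 2 (hr ℤ) ℂ (a u)
  have ec : ∀ u, ∀ᵐ t ∂hr ℤ, e u t = ch u t := fun u =>
    ContinuousMap.coeFn_toLp (p := 2) (𝕜 := ℂ) _ _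
  have on : ∀ u v, ⟪e u, e v⟫_ℂ = if u = v then 1 else 0 := fun u v => by
    have : ⟪e u, e v⟫_ℂ = ∫ t, (ch (v - u) t : ℂ) ∂hr ℤ := by
      rw [L2.inner_def]
      refine integral_congr_ae ?_
      filter_upwards [ec u, ec v] with t h1 h2
      rw [h1, h2, ← ch_conj]; simp [mul_comm]
    rw [this]
    split_ifs with h
    · simp [h, ch_zero]
    · exact ch_int (sub_ne_zero.2 (Ne.symm h))
  have e0 : e 0 = one _ := Lp.ext (by
    filter_upwards [ec 0, one_coe (hr ℤ)] with t h1 h2
    simp [h1, h2, ch_zero])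
  have tot : ∀ F, (∀ u, ⟪e u, F⟫_ℂ = 0) → F = 0 := total_of_sep _ a
    ⟨0, by ext; simp [a, ch_zero]⟩ (fun u v => ⟨u + v, by ext; simp [a, ch_add]⟩)
    (fun u => ⟨-u, by ext; simp [a, ch_neg, Circle.coe_inv_eq_conj, -Circle.coe_inv]⟩)
    fun x y h => funext fun j =>
      Circle.coe_injective (by simpa [a, ch_single] using h (Finsupp.single j 1))
  let τ : ℤ → (ℤ →₀ ℤ) → ℤ →₀ ℤ := fun k u => u.equivMapDomain (Equiv.addRight k)
  have τa : ∀ k u j, τ k u j = u (j - k) := fun k u j => by simp [τ, sub_eq_add_neg]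
  have τ2 : ∀ k l u, τ k (τ l u) = τ (l + k) u := fun k l u => by
    ext j; simp only [τa]; congr 1; ring
  have τ0 : ∀ u, τ 0 u = u := fun u => by ext j; simp [τa]
  have s1 : ∀ u, U.1 (e u) = e (τ 1 u) := fun u => Lp.ext (by
    filter_upwards [hU (e u), hT.quasiMeasurePreserving.ae (ec u), ec (τ 1 u)] with t h1 h2 h3
    rw [h1, h2, h3, ch, ch, Finsupp.prod_equivMapDomain]; rfl)
  have sk : ∀ (k : ℤ) u, (U ^ k).1 (e u) = e (τ k u) := fun k u => by
    induction k using Int.induction_on with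
    | zero => rw [τ0]; rfl
    | succ k ih => rw [add_comm, zpow_one_add, u_mul, ih, s1, τ2, add_comm]
    | pred k ih =>
      rw [sub_eq_neg_add, zpow_add, zpow_neg_one, u_mul, ih, ← u_inv_self U (e (τ (-1 + -k) u)),
        s1, τ2]
      congr 3; ring
  let I := {u : ℤ →₀ ℤ // u 0 ≠ 0 ∧ ∀ j < 0, u j = 0}
  have uq : ∀ (u v : I) k, u.1 = τ k v.1 → k = 0 := fun u v k h => by
    rcases lt_trichotomy k 0 with hk | hk | hk
    · exact (v.2.1 (by simpa [h, τa] using u.2.2 k hk)).elim
    · exact hk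
    · exact (u.2.1 (by rw [h, τa]; exact v.2.2 _ (by omega))).elim
  have ex : ∀ u, u ≠ 0 → ∃ (v : I) (k : ℤ), u = τ k v.1 := fun u hu => by
    obtain ⟨m, hm, h⟩ := u.support.exists_min_image id (Finsupp.support_nonempty_iff.2 hu)
    refine ⟨⟨τ (-m) u, by simpa [τa] using hm, fun j hj => ?_⟩, m, by simp [τ2, τ0]⟩
    rw [τa]
    by_contra h'
    have := h _ (Finsupp.mem_support_iff.2 h')
    simp only [id] at this; omega
  have c1 : ∀ (u v : I) (k : ℤ), ⟪e u.1, (U ^ k).1 (e v.1)⟫_ℂ =
      if u = v ∧ k = 0 then 1 else 0 := fun u v k => by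
    rw [sk, on]
    refine if_congr ⟨fun h => ?_, fun h => by rw [h.1, h.2, τ0]⟩ rfl rfl
    obtain rfl := uq u v k h
    exact ⟨Subtype.ext (h.trans (τ0 _)), rfl⟩
  let i : ℕ → I := fun n => ⟨Finsupp.single 0 (n + 1), by simp; omega, fun j hj => by simp [hj.ne]⟩
  have : Infinite I := Infinite.of_injective i fun a b h => by
    simpa [i] using congrArg (fun u : I => u.1 0) h
  have rz : ∀ k : ℤ, ∃ g, repU U g = (U ^ k).1 := fun k => by
    cases k with
    | ofNat k => exact ⟨zf ^ k, by simp [repU_pow]⟩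
    | negSucc k => exact ⟨star (zf ^ (k + 1)), by rw [map_star, repU_pow, zpow_negSucc]; rfl⟩
  obtain ⟨σ, _, hσ⟩ := exists_spec (repU U) (e (i 0).1)
  refine ⟨ℤ → Circle, inferInstance, inferInstance, hr ℤ, inferInstance, inferInstance, T,
    ergodic_of_fix hT U hU fun F h1 h2 => tot F fun u => ?_, ?_⟩
  · by_cases hu : u = 0
    · rw [hu, e0, h1]
    obtain ⟨v, k, rfl⟩ := ex u hu
    have fx : ∀ k : ℤ, (U ^ k).1 F = F := fun k => by
      induction k using Int.induction_on with
      | zero => rfl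
      | succ k ih => rw [zpow_add_one, u_mul, h2, ih]
      | pred k ih => rw [zpow_sub_one, u_mul, u_fix_inv h2, ih]
    have cs : ∀ k, ⟪e (τ k v.1), F⟫_ℂ = ⟪e v.1, F⟫_ℂ := fun k => by
      rw [← sk, ← u_inner (U ^ k) (e v.1), fx]
    have o : Orthonormal ℂ fun k => e (τ k v.1) := orthonormal_iff_ite.2 fun k l => by
      rw [on]
      refine if_congr ⟨fun h => ?_, fun h => by rw [h]⟩ rfl rfl
      have := uq v v (l + -k) (by rw [← τ2, ← h, τ2]; simp [τ0])
      omega
    have := o.inner_products_summable F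
    simp only [cs, summable_const_iff] at this
    simpa [cs] using this
  · have key := model0 (hr ℤ) T U hU (un_one hT hU) (I := I) (C := Unit) (fun _ => ())
      (fun _ => ⟨i 0, rfl⟩) (fun u => e u.1) (fun _ => σ)
      (fun _ h => by
        have := hσ 1
        rw [map_one, ContinuousLinearMap.one_apply, on, h] at this
        simp at this)
      (fun u g => (corr_ext g _ _ (fun k => by simp [c1]) 0).trans (hσ g))
      (fun u v huv g => (corr_ext (x' := 0) g _ 0 (fun k => by simp [c1, huv]) 0).trans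
        (inner_zero_left _))
      (fun c d h => (h rfl).elim) (fun u => by
        rw [← e0, on, if_neg]
        exact fun h => u.2.1 (by simp [← h]))
      fun F h1 h2 => tot F fun u => by
        by_cases hu : u = 0
        · rw [hu, e0, h1]
        obtain ⟨v, k, rfl⟩ := ex u hu
        obtain ⟨g, hg⟩ := rz k
        rw [← sk, ← hg, h2]
    refine Eq.subst ?_ key
    simp

theorem nonempty_of_hasMultiplicities {X : Type} [MeasurableSpace X] [StandardBorelSpace X]
    {μ : Measure X} [IsProbabilityMeasure μ] [NullSingletonClass μ] {T : X → X} {M : Set ℕ∞}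
    (h : HasMultiplicities μ T M) : M.Nonempty ∧ 0 ∉ M := by
  obtain ⟨σ, m, -, -, h1, ⟨W, h2, -⟩, rfl⟩ := h
  refine ⟨by_contra fun h0 => ?_, fun h => h ?_⟩
  · have z : σ = 0 := by
      rw [← Measure.measure_univ_eq_zero]
      exact measure_mono_null (fun z _ => mem_iUnion.2 ⟨m z, rfl⟩)
        (measure_iUnion_null (s := fun k => {z | m z = k}) fun k => by_contra fun hk => h0 ⟨k, hk⟩)
    have : IsZeroOneMeasure μ := ⟨fun s hs => ?_⟩
    · obtain ⟨x, hx⟩ := IsZeroOneMeasure.exists_eq_dirac (μ := μ)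
      simpa [hx] using measure_singleton (μ := μ) x
    have ml : MemLp (fun x => s.indicator (fun _ => (1 : ℂ)) x - μ.real s) 2 μ :=
      ((memLp_const (1 : ℂ)).indicator hs).sub (memLp_const (μ.real s : ℂ))
    obtain ⟨g, hg⟩ := (h2 ml.toLp).2 (by
      rw [integral_congr_ae ml.coeFn_toLp, integral_sub ((integrable_const _).indicator hs)
        (integrable_const _), integral_indicator_const _ hs]
      simp)
    have g0 : g = 0 := Lp.ext (by simp [modelMeasure, z, EventuallyEq])
    have a3 : ∀ᵐ x ∂μ, s.indicator (fun _ => (1 : ℂ)) x = μ.real s := by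
      filter_upwards [ml.coeFn_toLp, Lp.coeFn_zero ℂ 2 μ] with x h1 h2
      rw [← hg, g0, map_zero, h2] at h1
      exact sub_eq_zero.1 h1.symm
    by_cases h0 : (μ.real s : ℂ) = 0
    · exact Or.inl ((measureReal_eq_zero_iff (by finiteness)).1 (by exact_mod_cast h0))
    · exact Or.inr ((mem_ae_iff_prob_eq_one hs).1
        (a3.mono fun x hx => by_contra fun h' : x ∉ s => h0 (by simpa [h'] using hx.symm)))
  · rw [show {z | m z = 0} = ∅ from eq_empty_of_forall_notMem fun z hz => by
      simpa [show m z = 0 from hz] using h1 z, measure_empty]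

theorem realised_iff (M : Set ℕ∞) : Realised M ↔ M.Nonempty ∧ 0 ∉ M := by
  refine ⟨fun ⟨X, _, _, μ, _, _, T, _, h⟩ => nonempty_of_hasMultiplicities h, fun ⟨h1, h0⟩ => ?_⟩
  by_cases h : ∃ n : ℕ, (n : ℕ∞) ∈ M
  · exact realised_fin h0 h.choose_spec
  · have : M = {⊤} := h1.subset_singleton_iff.1 fun k hk => by
      cases k with
      | top => rfl
      | coe k => exact (h ⟨k, hk⟩).elim
    exact this ▸ realised_top

end Pool.Agent.Lib.MP_9f219e_an
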