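import Pool.Agent.Lib.MP_9f219e_an.Split
import Pool.Agent.Lib.MP_9f219e_an.Defs

/-!
From a cyclic decomposition to the spectral model.
-/

open MeasureTheory Set Filter Topology
open scoped InnerProductSpace ENNReal ComplexConjugate

namespace Pool.Agent.Lib.MP_9f219e_an

theorem dense_span_of_total {κ E : Type*} [NormedAddCommGroup E] [InnerProductSpace ℂ E]
    [CompleteSpace E] (a : κ → E) (ht : ∀ v, (∀ i, ⟪a i, v⟫_ℂ = 0) → v = 0) :
    DenseRange (Finsupp.linearCombination ℂ a) := by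
  have : Dense ((LinearMap.range (Finsupp.linearCombination ℂ a) : Submodule ℂ E) : Set E) := by
    rw [Submodule.dense_iff_topologicalClosure_eq_top, Submodule.topologicalClosure_eq_top_iff,
      eq_bot_iff]
    intro v hv
    exact ht v fun i => (Submodule.mem_orthogonal _ _).1 hv _ ⟨Finsupp.single i 1, by simp⟩
  exact this

theorem gram {κ E F : Type*} [NormedAddCommGroup E] [InnerProductSpace ℂ E] [CompleteSpace E]
    [NormedAddCommGroup F] [InnerProductSpace ℂ F] [CompleteSpace F] (a : κ → E) (b : κ → F)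
    (h : ∀ i j, ⟪a i, a j⟫_ℂ = ⟪b i, b j⟫_ℂ) (ht : ∀ v, (∀ i, ⟪a i, v⟫_ℂ = 0) → v = 0) :
    ∃ W : E →ₗᵢ[ℂ] F, (∀ i, W (a i) = b i) ∧
      ∀ o, (∀ i, ⟪o, b i⟫_ℂ = 0) → ∀ v, ⟪o, W v⟫_ℂ = 0 := by
  have hd := dense_span_of_total a ht
  have hn : ∀ c, ‖Finsupp.linearCombination ℂ b c‖ = ‖Finsupp.linearCombination ℂ a c‖ := by
    intro c
    rw [norm_eq_sqrt_re_inner (𝕜 := ℂ), norm_eq_sqrt_re_inner (𝕜 := ℂ)]
    simp only [Finsupp.linearCombination_apply, Finsupp.sum, sum_inner, inner_sum,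
      inner_smul_left, inner_smul_right, h]
  let Φ := (Finsupp.linearCombination ℂ b).extendOfNorm (Finsupp.linearCombination ℂ a)
  have e : ∀ c, Φ (Finsupp.linearCombination ℂ a c) = Finsupp.linearCombination ℂ b c := fun c =>
    LinearMap.extendOfNorm_eq hd ⟨1, fun g => by rw [hn, one_mul]⟩ c
  refine ⟨⟨Φ.toLinearMap, fun v => ?_⟩, fun i => ?_, fun o ho v => ?_⟩
  · refine hd.induction_on v (isClosed_eq (by fun_prop) (by fun_prop)) fun c => ?_
    exact (congrArg _ (e c)).trans (hn c)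
  · simpa using e (Finsupp.single i 1)
  · change ⟪o, Φ v⟫_ℂ = 0
    refine hd.induction_on v (isClosed_eq (by fun_prop) (by fun_prop)) fun c => ?_
    rw [e]
    simp [Finsupp.linearCombination_apply, Finsupp.sum, inner_sum, inner_smul_right, ho]

lemma exists_num {I : Type*} [Countable I] (s : Set I) :
    ∃ f : I → ℕ, BijOn f s {j | (j : ℕ∞) < s.encard} := by
  classical
  rcases s.finite_or_infinite with hs | hs
  · obtain ⟨k, hk⟩ := hs.exists_encard_eq_coe
    refine hs.exists_bijOn_of_encard_eq ?_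
    simp only [hk, Nat.cast_lt]
    exact (Set.Nat.encard_range k).symm
  · have := hs.to_subtype
    obtain ⟨e⟩ : Nonempty (s ≃ ℕ) := nonempty_equiv_of_countable
    refine ⟨fun x => if h : x ∈ s then e ⟨x, h⟩ else 0, fun x _ => by simp [hs.encard_eq],
      fun x hx y hy h => ?_, fun j _ => ⟨e.symm j, (e.symm j).2, by simp⟩⟩
    simpa [hx, hy] using h

lemma exists_carriers {Ω C : Type*} [MeasurableSpace Ω] [Countable C] (σ : C → Measure Ω)
    (h : Pairwise fun c d => σ c ⟂ₘ σ d) : ∃ B : C → Set Ω, (∀ c, MeasurableSet (B c)) ∧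
      (∀ c, ∀ᵐ z ∂σ c, z ∈ B c) ∧ ∀ c d z, z ∈ B c → z ∈ B d → c = d := by
  have h' : ∀ c d, c ≠ d → ∃ s, MeasurableSet s ∧ σ c s = 0 ∧ σ d sᶜ = 0 := h
  choose! N h1 h2 h3 using h'
  refine ⟨fun c => ⋂ d, ⋂ (_ : c ≠ d), ((N c d)ᶜ ∩ N d c), fun c => MeasurableSet.iInter fun d =>
    MeasurableSet.iInter fun hd => (h1 _ _ hd).compl.inter (h1 _ _ hd.symm), fun c => ?_, ?_⟩
  · simp only [mem_iInter]
    refine ae_all_iff.2 fun d => ?_
    by_cases hd : c = d
    · simp [hd]
    · filter_upwards [measure_eq_zero_iff_ae_notMem.1 (h2 _ _ hd),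
        measure_eq_zero_iff_ae_notMem.1 (h3 _ _ (Ne.symm hd))] with z a b _
      exact ⟨a, not_not.1 b⟩
  · intro c d z hc hd
    by_contra hcd
    exact (mem_iInter₂.1 hc d hcd).1 (mem_iInter₂.1 hd c (Ne.symm hcd)).2

/-- the constant function -/
noncomputable def one {X : Type*} [MeasurableSpace X] (μ : Measure X) [IsFiniteMeasure μ] :
    Lp ℂ 2 μ := (memLp_const (1 : ℂ)).toLp _

lemma one_coe {X : Type*} [MeasurableSpace X] (μ : Measure X) [IsFiniteMeasure μ] :
    ∀ᵐ x ∂μ, one μ x = 1 := MemLp.coeFn_toLp _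

lemma inner_one {X : Type*} [MeasurableSpace X] (μ : Measure X) [IsFiniteMeasure μ]
    (F : Lp ℂ 2 μ) : ⟪one μ, F⟫_ℂ = ∫ x, F x ∂μ := by
  rw [L2.inner_def]
  refine integral_congr_ae ?_
  filter_upwards [one_coe μ] with x hx
  simp [hx]

theorem model0 {X : Type} [MeasurableSpace X] (μ : Measure X) [IsProbabilityMeasure μ]
    (T : X → X) (U : Un (Lp ℂ 2 μ)) (hU : ∀ F, ∀ᵐ x ∂μ, U.1 F x = F (T x))
    (hU1 : U.1 (one μ) = one μ) {I C : Type*} [Countable I] (cl : I → C)
    (hcl : Function.Surjective cl) (ξ : I → Lp ℂ 2 μ) (σ : C → Measure S1)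
    [IsFiniteMeasure (Measure.sum σ)] (h0 : ∀ c, σ c ≠ 0)
    (hs : ∀ p, IsSpec (repU U) (ξ p) (σ (cl p)))
    (ho : Pairwise fun p q => Orth (repU U) (ξ p) (ξ q))
    (hsing : Pairwise fun c d => σ c ⟂ₘ σ d) (hz : ∀ p, ⟪one μ, ξ p⟫_ℂ = 0)
    (htot : ∀ F, ⟪one μ, F⟫_ℂ = 0 → (∀ p g, ⟪repU U g (ξ p), F⟫_ℂ = 0) → F = 0) :
    HasMultiplicities μ T (range fun c => (cl ⁻¹' {c}).encard) := by
  classical
  have : Countable C := hcl.countable
  have fin : ∀ c, IsFiniteMeasure (σ c) := fun c =>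
    isFiniteMeasure_of_le _ (Measure.le_sum σ c)
  obtain ⟨B, B1, B2, B3⟩ := exists_carriers σ hsing
  choose numc hnum using fun c => exists_num (cl ⁻¹' {c})
  let k : C → ℕ∞ := fun c => (cl ⁻¹' {c}).encard
  let num : I → ℕ := fun p => numc (cl p) p
  let m : S1 → ℕ∞ := fun z => if h : ∃ c, z ∈ B c then k h.choose else 1
  have mB : ∀ c, ∀ z ∈ B c, m z = k c := fun c z hz => by
    have h : ∃ c, z ∈ B c := ⟨c, hz⟩
    simp only [m, dif_pos h]
    rw [B3 _ _ z h.choose_spec hz]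
  have mm : Measurable m := by
    refine measurable_to_countable' fun j => ?_
    have : m ⁻¹' {j} = (⋃ c, ⋃ (_ : k c = j), B c) ∪ ((⋃ c, B c)ᶜ ∩ {_z | 1 = j}) := by
      ext z
      by_cases h : ∃ c, z ∈ B c
      · obtain ⟨c, hc⟩ := h
        simp only [mem_preimage, mem_singleton_iff, mB c z hc, mem_union, mem_iUnion,
          mem_inter_iff, mem_compl_iff]
        exact ⟨fun h => Or.inl ⟨c, h, hc⟩, fun h => h.elim
          (fun ⟨d, h1, h2⟩ => by rwa [B3 _ _ z hc h2]) fun h => (h.1 ⟨c, hc⟩).elim⟩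
      · simp only [mem_preimage, mem_singleton_iff, m, dif_neg h, mem_union, mem_iUnion,
          mem_inter_iff, mem_compl_iff, mem_ofPred_eq]
        exact ⟨fun e => Or.inr ⟨h, e⟩, fun e => e.elim (fun ⟨d, _, h2⟩ => (h ⟨d, h2⟩).elim) (·.2)⟩
    rw [this]
    exact (MeasurableSet.iUnion fun c => MeasurableSet.iUnion fun _ => B1 c).union
      ((MeasurableSet.iUnion B1).compl.inter (MeasurableSet.const _))
  have mS : MeasurableSet {p : S1 × ℕ | (p.2 : ℕ∞) < m p.1} :=
    ((mm.comp measurable_fst).prodMk measurable_snd)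
      (MeasurableSet.of_discrete (s := {q : ℕ∞ × ℕ | (q.2 : ℕ∞) < q.1}))
  set M := modelMeasure (Measure.sum σ) m with hM
  let P : I → Set (S1 × ℕ) := fun p => B (cl p) ×ˢ {num p}
  have mP : ∀ p, MeasurableSet (P p) := fun p => (B1 _).prod (measurableSet_singleton _)
  have rB : ∀ c, (Measure.sum σ).restrict (B c) = σ c := fun c => by
    ext s hs
    rw [Measure.restrict_sum _ (B1 c), Measure.sum_apply _ hs, tsum_eq_single c fun d hd => ?_,
      Measure.restrict_eq_self_of_ae_mem (B2 c)]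
    have : σ d (B c) = 0 := by
      rw [measure_eq_zero_iff_ae_notMem]
      filter_upwards [B2 d] with z h1 h2 using hd (B3 _ _ z h1 h2)
    rw [Measure.restrict_eq_zero.2 this]; rfl
  have rP : ∀ p, M.restrict (P p) = (σ (cl p)).map fun z => (z, num p) := fun p => by
    rw [hM, modelMeasure, Measure.restrict_restrict (mP p), inter_eq_left.2,
      ← Measure.prod_restrict, rB, Measure.restrict_singleton, Measure.count_singleton, one_smul,
      Measure.prod_dirac]
    rintro ⟨z, j⟩ ⟨h1, rfl⟩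
    rw [mem_ofPred_eq, mB _ z h1]
    exact (hnum (cl p)).1 rfl
  have emb := fun p => measurableEmbedding_prod_mk_right (β := S1) (num p)
  have tr : ∀ p {q : S1 × ℕ → Prop}, (∀ᵐ w ∂M, q w) → ∀ᵐ z ∂σ (cl p), q (z, num p) :=
    fun p q h => (emb p).ae_map_iff.1 (by rw [← rP]; exact ae_restrict_of_ae h)
  have cov : ∀ᵐ w ∂M, ∃ p, w ∈ P p := by
    have a : ∀ᵐ w ∂(Measure.sum σ).prod (Measure.count : Measure ℕ), ∃ c, w.1 ∈ B c :=
      Measure.quasiMeasurePreserving_fst.ae (p := fun z => ∃ c, z ∈ B c)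
        (Measure.ae_sum_iff.2 fun c => (B2 c).mono fun z hz => ⟨c, hz⟩)
    filter_upwards [ae_restrict_of_ae (s := {p : S1 × ℕ | (p.2 : ℕ∞) < m p.1}) a,
      ae_restrict_mem mS] with w ⟨c, h1⟩ h2
    rw [mB c _ h1] at h2
    obtain ⟨p, rfl, hp⟩ := (hnum c).2.2 h2
    exact ⟨p, h1, hp.symm⟩
  have ml : ∀ p (g : C(S1, ℂ)), MemLp ((P p).indicator fun w => g w.1) 2 M := fun p g => by
    rw [memLp_indicator_iff_restrict (mP p), rP]
    exact MemLp.of_bound (g.continuous.measurable.comp measurable_fst).aestronglyMeasurable ‖g‖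
      (Eventually.of_forall fun w => g.norm_coe_le_norm _)
  let a : I × C(S1, ℂ) → Lp ℂ 2 M := fun i => (ml i.1 i.2).toLp _
  let b : I × C(S1, ℂ) → Lp ℂ 2 μ := fun i => repU U i.2 (ξ i.1)
  have ia : ∀ p g (v : Lp ℂ 2 M),
      ⟪a (p, g), v⟫_ℂ = ∫ z, conj (g z) * v (z, num p) ∂σ (cl p) := fun p g v => by
    rw [L2.inner_def, ← (emb p).integral_map (fun w => conj (g w.1) * v w), ← rP,
      ← integral_indicator (mP p)]
    refine integral_congr_ae ?_
    filter_upwards [(ml p g).coeFn_toLp] with w hw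
    rw [hw]
    by_cases h : w ∈ P p <;> simp [h, mul_comm]
  obtain ⟨W, W1, W2⟩ := gram a b (by
    rintro ⟨p, g⟩ ⟨q, g'⟩
    rw [ia, rep_inner2]
    by_cases hpq : p = q
    · subst hpq
      rw [hs]
      refine integral_congr_ae ?_
      filter_upwards [tr p (ml p g').coeFn_toLp, B2 (cl p)] with z h1 h2
      rw [h1, indicator_of_mem (show (z, num p) ∈ P p from ⟨h2, rfl⟩)]; rfl
    · rw [ho hpq]
      refine integral_eq_zero_of_ae ?_
      filter_upwards [tr p (ml q g').coeFn_toLp, B2 (cl p)] with z h1 h2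
      rw [h1, indicator_of_notMem, mul_zero]; rfl
      rintro ⟨h3, h4⟩
      have e := B3 _ _ z h2 h3
      refine hpq ((hnum (cl p)).2.1 rfl e.symm ?_)
      have h5 : numc (cl p) p = numc (cl q) q := h4
      rw [h5, e]) (by
    intro v hv
    have z : ∀ p, ∀ᵐ w ∂M, w ∈ P p → v w = 0 := fun p => by
      refine ae_imp_of_ae_restrict ?_
      have l : MemLp (fun z => v (z, num p)) 2 (σ (cl p)) :=
        (emb p).memLp_map_measure_iff.1 (by rw [← rP]; exact (Lp.memLp v).restrict _)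
      have e : l.toLp _ = 0 := (toLp_dense (σ (cl p))).eq_zero_of_inner_right ℂ fun g => by
        refine Eq.trans ?_ (hv (p, g))
        rw [ia, L2.inner_def]
        refine integral_congr_ae ?_
        filter_upwards [l.coeFn_toLp, ContinuousMap.coeFn_toLp (p := 2) (𝕜 := ℂ) (σ (cl p)) g]
          with z h1 h2
        rw [h1, h2]; simp [mul_comm]
      rw [rP, (emb p).ae_map_iff]
      filter_upwards [l.coeFn_toLp, Lp.coeFn_zero ℂ 2 (σ (cl p))] with z h1 h2
      rw [← h1, e, h2]; rfl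
    refine Lp.ext ?_
    filter_upwards [ae_all_iff.2 z, cov, Lp.coeFn_zero ℂ 2 M] with w h1 ⟨p, h2⟩ h3
    rw [h1 p h2, h3]; rfl)
  have W0 : ∀ v, ⟪one μ, W v⟫_ℂ = 0 := W2 _ fun i =>
    repU_invariant U (L := (ℂ ∙ one μ)ᗮ) (Submodule.isClosed_orthogonal _)
      (fun x hx => by
        rw [Submodule.mem_orthogonal_singleton_iff_inner_right] at hx ⊢
        rw [u_perp hU1, hx])
      (fun x hx => by
        rw [Submodule.mem_orthogonal_singleton_iff_inner_right] at hx ⊢
        rw [u_perp (u_fix_inv hU1), hx]) i.2 _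
      (Submodule.mem_orthogonal_singleton_iff_inner_right.2 (hz i.1)) _
      (Submodule.mem_span_singleton_self _)
  refine ⟨Measure.sum σ, m, inferInstance, mm, fun z => ?_, ⟨W, fun F => ⟨?_, fun hF => ?_⟩,
    fun g g' hg => ?_⟩, ?_⟩
  · simp only [m]
    split_ifs with h
    · exact one_le_encard_iff_nonempty.2 (hcl _)
    · rfl
  · rintro ⟨v, rfl⟩
    rw [← inner_one, W0]
  · have : CompleteSpace (LinearMap.range W.toLinearMap) :=
      (W.isometry.isClosedEmbedding.isClosed_range).completeSpace_coe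
    obtain ⟨_, ⟨v, rfl⟩, r, hr, e⟩ :=
      (LinearMap.range W.toLinearMap).exists_add_mem_mem_orthogonal F
    rw [← inner_one, e, inner_add_right] at hF
    have r0 := htot r (by simpa [W0] using hF) fun p g =>
      (Submodule.mem_orthogonal _ _).1 hr _ ⟨a (p, g), W1 _⟩
    exact ⟨v, by simpa [r0] using e.symm⟩
  · have : W g' = U.1 (W g) := by
      rw [← sub_eq_zero]
      refine htot _ (by rw [inner_sub_right, u_perp hU1, W0, W0, sub_zero]) fun p k => ?_
      have e1 : repU U k (ξ p) = W (a (p, k)) := (W1 (p, k)).symm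
      have e2 : (U⁻¹).1 (repU U k (ξ p)) = W (a (p, star zf * k)) := by
        rw [W1, ← repU_star_z, ← rep_mul]
      rw [inner_sub_right, ← u_inner U⁻¹ _ (U.1 _), u_inv_self, e2, e1, W.inner_map_map,
        W.inner_map_map, ia, ia, sub_eq_zero]
      refine integral_congr_ae ?_
      filter_upwards [tr p hg] with z hz
      rw [hz]; simp; ring
    rw [this]; exact hU _
  · ext j
    have e : ∀ c, σ c {z | m z = j} = if k c = j then σ c univ else 0 := fun c => by
      split_ifs with h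
      · refine measure_congr ?_
        filter_upwards [B2 c] with z hz
        exact eq_true ((mB c z hz).trans h)
      · rw [measure_eq_zero_iff_ae_notMem]
        filter_upwards [B2 c] with z hz h' using h ((mB c z hz).symm.trans h')
    rw [mem_ofPred_eq, Measure.sum_apply_of_countable, Ne,
      ENNReal.tsum_eq_zero, not_forall]
    refine exists_congr fun c => ?_
    change k c = j ↔ ¬ σ c {z | m z = j} = 0
    rw [e]
    simp [h0]

end Pool.Agent.Lib.MP_9f219e_an
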