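import Pool.Agent.Lib.MP_9f219e_an.Tower

/-!
Operators on the inverse limit that are approximated by permutations of the levels.
-/

open MeasureTheory Set Filter Topology
open scoped InnerProductSpace ENNReal NNReal ComplexConjugate

namespace Pool.Agent.Lib.MP_9f219e_an

noncomputable instance circMS : MeasurableSpace Circle := borel _
instance circBS : BorelSpace Circle := ⟨rfl⟩

lemma circ_meas : Measurable fun z : Circle => (z : ℂ) :=
  Continuous.measurable (by fun_prop)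

theorem exists_op {X Y : Type*} [MeasurableSpace X] [MeasurableSpace Y] {μ : Measure X}
    {ν : Measure Y} {T : X → Y} (hT : MeasurePreserving T μ ν) {ψ : X → Circle}
    (hψ : Measurable ψ) : ∃ O : Lp ℂ 2 ν →L[ℂ] Lp ℂ 2 μ, (∀ F, ‖O F‖ = ‖F‖) ∧
      ∀ F, ∀ᵐ x ∂μ, O F x = ψ x * F (T x) := by
  have hm : MemLp (fun x => (ψ x : ℂ)) ∞ μ := memLp_top_of_bound
    (circ_meas.comp hψ).aestronglyMeasurable 1 (Eventually.of_forall fun x => by simp)
  let K := Lp.compMeasurePreservingₗᵢ (E := ℂ) (p := 2) ℂ T hT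
  let O : Lp ℂ 2 ν →L[ℂ] Lp ℂ 2 μ :=
    ((ContinuousLinearMap.mul ℂ ℂ).holderL μ ∞ 2 2 hm.toLp).comp K.toContinuousLinearMap
  have e : ∀ F, ∀ᵐ x ∂μ, O F x = ψ x * K F x := fun F => by
    filter_upwards [(ContinuousLinearMap.mul ℂ ℂ).coeFn_holder (r := 2) hm.toLp (K F),
      hm.coeFn_toLp] with x h1 h2
    exact h1.trans (by rw [h2]; rfl)
  refine ⟨O, fun F => ?_, fun F => ?_⟩
  · refine (pow_left_inj₀ (norm_nonneg _) (norm_nonneg _) two_ne_zero).1 ?_
    rw [← K.norm_map, norm_sq_L2, norm_sq_L2]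
    exact integral_congr_ae ((e F).mono fun x hx => by simp [hx])
  · filter_upwards [e F, Lp.coeFn_compMeasurePreserving F hT] with x h1 h2
    exact h1.trans (congrArg _ h2)

theorem exists_un_op {X : Type*} [MeasurableSpace X] {μ : Measure X} {T : X ≃ᵐ X}
    (hT : MeasurePreserving T μ μ) {ψ : X → Circle} (hψ : Measurable ψ) :
    ∃ U : Un (Lp ℂ 2 μ), ∀ F, ∀ᵐ x ∂μ, U.1 F x = ψ x * F (T x) := by
  obtain ⟨O, h1, h2⟩ := exists_op hT hψ
  obtain ⟨O', -, h3⟩ := exists_op (hT.symm T) (ψ := fun x => (ψ (T.symm x))⁻¹)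
    (hψ.comp T.symm.measurable).inv
  have hs : Function.Surjective (⟨O.toLinearMap, h1⟩ : Lp ℂ 2 μ →ₗᵢ[ℂ] Lp ℂ 2 μ) := fun F => by
    refine ⟨O' F, Lp.ext ?_⟩
    filter_upwards [h2 (O' F), hT.quasiMeasurePreserving.ae (h3 F)] with x a b
    refine a.trans ?_
    rw [b]; simp
  exact ⟨Unitary.linearIsometryEquiv.symm (LinearIsometryEquiv.ofSurjective _ hs), h2⟩

lemma norm_le_supp {Y : Type*} [MeasurableSpace Y] {ν : Measure Y} [IsFiniteMeasure ν]
    (F : Lp ℂ 2 ν) {S : Set Y} (hS : MeasurableSet S) {C : ℝ} (hC : 0 ≤ C)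
    (h : ∀ᵐ y ∂ν, ‖F y‖ ≤ C ∧ (y ∉ S → F y = 0)) : ‖F‖ ≤ C * √(ν.real S) := by
  refine (pow_le_pow_iff_left₀ (norm_nonneg _) (by positivity) two_ne_zero).1 ?_
  rw [norm_sq_L2, mul_pow, Real.sq_sqrt measureReal_nonneg, mul_comm, ← smul_eq_mul,
    ← integral_indicator_const _ hS]
  refine integral_mono_ae (integrable_sq_L2 _) ((integrable_const _).indicator hS) ?_
  filter_upwards [h] with y hy
  by_cases hs : y ∈ S
  · rw [indicator_of_mem hs]; exact pow_le_pow_left₀ (norm_nonneg _) hy.1 2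
  · simp [hs, hy.2 hs]

lemma down_ind {P : ℕ → Prop} {l : ℕ} (h1 : ∀ i, P (l + i + 1) → P (l + i))
    (h2 : ∀ᶠ m in atTop, P m) : P l := by
  obtain ⟨m, a, b⟩ := (h2.and (eventually_ge_atTop l)).exists
  obtain ⟨i, rfl⟩ := Nat.exists_eq_add_of_le b
  clear b
  induction i with
  | zero => exact a
  | succ i ih => exact ih (h1 i a)

lemma norm_comp_le {α β : Type*} [Fintype α] [Fintype β] (G : α → ℂ) (g : β → α) :
    ‖G ∘ g‖ ≤ ‖G‖ := (pi_norm_le_iff_of_nonneg (norm_nonneg _)).2 fun _ => norm_le_pi_norm G _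

variable {Q : ℕ → Type} [∀ m, Fintype (Q m)]

/-- points where a sequence of permutations is compatible with projections and phases -/
def Gd (π : ∀ m, Q (m + 1) → Q m) (g : ∀ m, Equiv.Perm (Q m)) (B B' : ∀ m, Q m → Circle) (m : ℕ)
    (q : Q (m + 1)) : Prop :=
  π m (g (m + 1) q) = g m (π m q) ∧
    B (m + 1) (g (m + 1) q) / B m (π m (g (m + 1) q)) = B' (m + 1) q / B' m (π m q)

namespace IsTower
variable {π : ∀ m, Q (m + 1) → Q m} {Y : Type} [TopologicalSpace Y] [MeasurableSpace Y]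
  {ν : Measure Y} {lev : ∀ m, Y → Q m} (h : IsTower π ν lev) [CompactSpace Y] [BorelSpace Y]
  [IsProbabilityMeasure ν]
include h

/-- twisted level functions -/
noncomputable def io (B : ∀ m, Q m → Circle) (m : ℕ) : (Q m → ℂ) →ₗ[ℂ] Lp ℂ 2 ν :=
  (ContinuousMap.toLp 2 ν ℂ).toLinearMap ∘ₗ
    { toFun := fun G => ⟨fun y => G (lev m y) * B m (lev m y), h.cont fun q => G q * B m q⟩
      map_add' := fun a b => by ext; simp [add_mul]
      map_smul' := fun a b => by ext; simp [mul_assoc] }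

variable {B B' B'' : ∀ m, Q m → Circle}

lemma io_coe (B : ∀ m, Q m → Circle) (m : ℕ) (G : Q m → ℂ) :
    ∀ᵐ y ∂ν, h.io B m G y = G (lev m y) * B m (lev m y) :=
  ContinuousMap.coeFn_toLp (p := 2) (𝕜 := ℂ) ν _

lemma io_norm_le {m : ℕ} {G : Q m → ℂ} {p : Q m → Prop} {C : ℝ} (hC : ‖G‖ ≤ C)
    (hp : ∀ q, ¬p q → G q = 0) : ‖h.io B m G‖ ≤ C * √(fr p) := by
  rw [← h.real_eq]
  refine norm_le_supp _ (h.meas p) ((norm_nonneg _).trans hC) ?_
  filter_upwards [h.io_coe B m G] with y hy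
  rw [hy]
  exact ⟨by simpa using (norm_le_pi_norm G _).trans hC, fun hy => by rw [hp _ hy, zero_mul]⟩

lemma io_norm_sq (m : ℕ) (G : Q m → ℂ) :
    ‖h.io B m G‖ ^ 2 = (Fintype.card (Q m) : ℝ)⁻¹ * ∑ q, ‖G q‖ ^ 2 := by
  rw [norm_sq_L2, ← smul_eq_mul, ← h.integral_eq]
  exact integral_congr_ae ((h.io_coe B m G).mono fun y hy => by simp [hy])

lemma io_one (m : ℕ) : h.io 1 m 1 = one ν := by
  refine Lp.ext ?_
  filter_upwards [h.io_coe 1 m 1, one_coe ν] with y h1 h2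
  simp [h1, h2]

lemma io_up (m : ℕ) (G : Q m → ℂ) : h.io B (m + 1)
    (fun q => G (π m q) * (B m (π m q) / B (m + 1) q : Circle)) = h.io B m G := by
  refine Lp.ext ?_
  filter_upwards [h.io_coe B m G, h.io_coe B (m + 1)
    (fun q => G (π m q) * (B m (π m q) / B (m + 1) q : Circle))] with y h1 h2
  rw [h1, h2, h.compat, mul_assoc, ← Circle.coe_mul, div_mul_cancel]

omit h in
lemma norm_up (m : ℕ) (G : Q m → ℂ) (c : Q (m + 1) → Circle) :
    ‖fun q => G (π m q) * (c q : Circle)‖ ≤ ‖G‖ :=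
  (pi_norm_le_iff_of_nonneg (norm_nonneg _)).2 fun _ => by simpa using norm_le_pi_norm G _

/-- `F` is a level function bounded by `C` -/
def Lv (B : ∀ m, Q m → Circle) (F : Lp ℂ 2 ν) (C : ℝ) : Prop :=
  ∀ᶠ k in atTop, ∃ G : Q k → ℂ, ‖G‖ ≤ C ∧ h.io B k G = F

lemma lv_io (m : ℕ) (G : Q m → ℂ) : h.Lv B (h.io B m G) ‖G‖ := by
  refine (eventually_ge_atTop m).mono fun k hk => ?_
  induction hk with
  | refl => exact ⟨G, le_rfl, rfl⟩
  | step _ ih =>
    obtain ⟨G', h1, h2⟩ := ih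
    exact ⟨_, (norm_up _ _ _).trans h1, (h.io_up _ _).trans h2⟩

/-- approximation by permutations -/
def Apx (U : Un (Lp ℂ 2 ν)) (g : ∀ m, Equiv.Perm (Q m)) (B B' : ∀ m, Q m → Circle)
    (ε : ℕ → ℝ) : Prop :=
  ∀ m G, ‖U.1 (h.io B m G) - h.io B' m (G ∘ g m)‖ ≤ ε m * ‖G‖

variable {h} {U U' : Un (Lp ℂ 2 ν)} {g g' : ∀ m, Equiv.Perm (Q m)} {ε ε' : ℕ → ℝ}

lemma Apx.mul (a : h.Apx U g B B' ε) (b : h.Apx U' g' B' B'' ε') (h0 : ∀ m, 0 ≤ ε' m) :
    h.Apx (U' * U) (g * g') B B'' (ε + ε') := fun m G => by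
  have e : (U' * U).1 (h.io B m G) - h.io B'' m (G ∘ (g * g') m) =
      U'.1 (U.1 (h.io B m G) - h.io B' m (G ∘ g m)) +
        (U'.1 (h.io B' m (G ∘ g m)) - h.io B'' m ((G ∘ g m) ∘ g' m)) := by
    rw [map_sub, sub_add_sub_cancel]; rfl
  rw [e, Pi.add_apply, add_mul]
  refine (norm_add_le _ _).trans (add_le_add (by rw [u_norm]; exact a m G) ((b m _).trans ?_))
  exact mul_le_mul_of_nonneg_left (norm_comp_le _ _) (h0 m)

lemma Apx.inv (a : h.Apx U g B B' ε) (h0 : ∀ m, 0 ≤ ε m) : h.Apx U⁻¹ g⁻¹ B' B ε := fun m G => by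
  have := a m (G ∘ g⁻¹ m)
  rw [show (G ∘ g⁻¹ m) ∘ g m = G from funext fun q => by simp] at this
  rw [← u_norm U, map_sub, u_self_inv, norm_sub_rev]
  exact this.trans (mul_le_mul_of_nonneg_left (norm_comp_le _ _) (h0 m))

lemma Apx.pow (a : h.Apx U g B B ε) (h0 : ∀ m, 0 ≤ ε m) (s : ℕ) :
    h.Apx (U ^ s) (g ^ s) B B fun m => s * ε m := by
  induction s with
  | zero => intro m G; simp [u_one]
  | succ s ih =>
    have := ih.mul a h0
    rw [← pow_succ', ← pow_succ] at this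
    intro m G
    refine (this m G).trans (le_of_eq ?_)
    simp [add_mul]

variable [TopologicalSpace.MetrizableSpace Y]

variable (h B) in
theorem dense (x : Lp ℂ 2 ν) {ε : ℝ} (hε : 0 < ε) : ∃ F C, ‖x - F‖ < ε ∧ h.Lv B F C := by
  let D : Submodule ℂ (Lp ℂ 2 ν) :=
    { carrier := {F | ∃ C, h.Lv B F C}
      add_mem' := by
        rintro a b ⟨C, ha⟩ ⟨C', hb⟩
        refine ⟨C + C', ?_⟩
        filter_upwards [ha, hb] with k ⟨G, h1, h2⟩ ⟨G', h3, h4⟩
        exact ⟨G + G', (norm_add_le _ _).trans (add_le_add h1 h3), by rw [map_add, h2, h4]⟩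
      zero_mem' := ⟨0, Eventually.of_forall fun k => ⟨0, by simp, map_zero _⟩⟩
      smul_mem' := by
        rintro c a ⟨C, ha⟩
        refine ⟨‖c‖ * C, ?_⟩
        filter_upwards [ha] with k ⟨G, h1, h2⟩
        exact ⟨c • G, by rw [norm_smul]; gcongr, by rw [map_smul, h2]⟩ }
  have hD : Dense (D : Set (Lp ℂ 2 ν)) := by
    rw [Submodule.dense_iff_topologicalClosure_eq_top, Submodule.topologicalClosure_eq_top_iff,
      eq_bot_iff]
    intro v hv
    obtain ⟨s, hs⟩ := h.exists_sec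
    refine (toLp_dense ν).eq_zero_of_inner_right ℂ fun F => ?_
    have iv : Integrable v ν := (Lp.memLp v).integrable one_le_two
    have t := tendsto_integral_of_dominated_convergence (μ := ν)
      (F := fun m y => v y * conj (F (s m (lev m y)))) (f := fun y => v y * conj (F y))
      (fun y => ‖v y‖ * ‖F‖) (fun m => iv.1.mul
        (h.cont fun q => conj (F (s m q))).aestronglyMeasurable) (iv.norm.mul_const _)
      (fun m => Eventually.of_forall fun y => by
        rw [norm_mul, RCLike.norm_conj]; gcongr; exact F.norm_coe_le_norm _)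
      (Eventually.of_forall fun y => (((Complex.continuous_conj.comp F.continuous).tendsto _).comp
        (h.tends fun l => (eventually_ge_atTop l).mono fun m hm =>
          h.lev_congr hm (hs _ _))).const_mul _)
    have z : ∀ m, ∫ y, v y * conj (F (s m (lev m y))) ∂ν = 0 := fun m => by
      refine Eq.trans ?_ ((Submodule.mem_orthogonal _ _).1 hv _
        ⟨_, h.lv_io m fun q => F (s m q) * ((B m q)⁻¹ : Circle)⟩)
      rw [L2.inner_def]
      refine integral_congr_ae ?_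
      filter_upwards [h.io_coe B m fun q => F (s m q) * ((B m q)⁻¹ : Circle)] with y hy
      rw [hy]; simp
    simp only [z] at t
    refine Eq.trans ?_ (tendsto_nhds_unique t tendsto_const_nhds)
    rw [L2.inner_def]
    refine integral_congr_ae ?_
    filter_upwards [ContinuousMap.coeFn_toLp (p := 2) (𝕜 := ℂ) ν F] with y hy
    rw [hy]; simp
  obtain ⟨F, ⟨C, hF⟩, hx⟩ := Metric.mem_closure_iff.1 (hD x) ε hε
  exact ⟨F, C, by rwa [← dist_eq_norm], hF⟩

lemma Apx.unique (a : h.Apx U g B B' ε) (b : h.Apx U' g B B' ε') (h0 : ∀ m, 0 ≤ ε m)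
    (h0' : ∀ m, 0 ≤ ε' m) (t : Tendsto ε atTop (𝓝 0)) (t' : Tendsto ε' atTop (𝓝 0)) :
    U = U' := by
  refine Subtype.ext (ContinuousLinearMap.ext fun x => ?_)
  refine eq_of_forall_dist_le fun δ hδ => ?_
  obtain ⟨F, C, h1, h2⟩ := h.dense B x (half_pos hδ)
  have e : U.1 F = U'.1 F := by
    have t2 : Tendsto (fun k => ε k * C + ε' k * C) atTop (𝓝 0) := by
      simpa using (t.mul_const C).add (t'.mul_const C)
    refine dist_le_zero.1 (ge_of_tendsto t2 ?_)
    filter_upwards [h2] with k ⟨G, h3, h4⟩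
    refine (dist_triangle_right _ _ (h.io B' k (G ∘ g k))).trans ?_
    rw [dist_eq_norm, dist_eq_norm, ← h4]
    exact add_le_add ((a k G).trans (mul_le_mul_of_nonneg_left h3 (h0 k)))
      ((b k G).trans (mul_le_mul_of_nonneg_left h3 (h0' k)))
  refine (dist_triangle_right _ _ (U.1 F)).trans ?_
  nth_rewrite 2 [e]
  rw [dist_eq_norm, dist_eq_norm, ← map_sub, ← map_sub, u_norm, u_norm]
  linarith

variable (h) in
theorem exists_rep [StandardBorelSpace Y] (g : ∀ m, Equiv.Perm (Q m)) {a : ℕ → ℝ}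
    (a1 : ∀ m, a (m + 1) ≤ a m / 2) (hg : ∀ m, fr (fun q => ¬Gd π g B B' m q) ≤ a m / 2) :
    ∃ T : Y ≃ᵐ Y, MeasurePreserving T ν ν ∧
      ∀ᵐ y ∂ν, ∀ᶠ m in atTop, lev m (T y) = g m (lev m y) := by
  obtain ⟨T, T1, T2⟩ := h.exists_T g ((h.ae_good a1 hg).mono fun y hy => hy.mono fun m hm => hm.1)
  obtain ⟨S, S1, S2⟩ := h.exists_T g⁻¹ (h.ae_good
    (p := fun m q => π m (g⁻¹ (m + 1) q) = g⁻¹ m (π m q)) a1 fun m => by
      rw [← fr_equiv (g (m + 1))]
      refine (fr_mono fun q h1 h2 => h1 ?_).trans (hg m)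
      simp [h2.1])
  obtain ⟨e, he⟩ := exists_equiv T1 S1 (by
    filter_upwards [T2, T1.quasiMeasurePreserving.ae S2] with y h1 h2
    refine h.sep' ?_
    filter_upwards [h1, h2] with m h3 h4
    simp [h3, h4]) (by
    filter_upwards [S2, S1.quasiMeasurePreserving.ae T2] with y h1 h2
    refine h.sep' ?_
    filter_upwards [h1, h2] with m h3 h4
    simp [h3, h4])
  refine ⟨e, T1.congr e.measurable (EventuallyEq.symm he), ?_⟩
  filter_upwards [he, T2] with y h1 h2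
  rwa [h1]

variable (h) in
theorem exists_un {a : ℕ → ℝ} (a1 : ∀ m, a (m + 1) ≤ a m / 2)
    (hg : ∀ m, fr (fun q => ¬Gd π g B B' m q) ≤ a m / 2) {T : Y ≃ᵐ Y}
    (hT : MeasurePreserving T ν ν) (T2 : ∀ᵐ y ∂ν, ∀ᶠ m in atTop, lev m (T y) = g m (lev m y)) :
    ∃ (ψ : Y → Circle) (U : Un (Lp ℂ 2 ν)), Measurable ψ ∧
      (∀ᵐ y ∂ν, ∀ᶠ m in atTop, ψ y = B' m (lev m y) / B m (g m (lev m y))) ∧
      (∀ F, ∀ᵐ y ∂ν, U.1 F y = ψ y * F (T y)) ∧ h.Apx U g B B' fun m => 2 * √(a m) := by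
  let w : ℕ → Y → Circle := fun m y => B' m (lev m y) / B m (g m (lev m y))
  have st : ∀ m y, Gd π g B B' m (lev (m + 1) y) → w (m + 1) y = w m y := fun m y hy => by
    have := hy.2
    rw [hy.1, h.compat, div_eq_div_iff_mul_eq_mul] at this
    simp only [w]
    rw [div_eq_div_iff_mul_eq_mul, ← this, mul_comm]
  have ev : ∀ᵐ y ∂ν, ∃ c, ∀ᶠ m in atTop, w m y = c := by
    filter_upwards [h.ae_good a1 hg] with y hy
    obtain ⟨k, hk⟩ := eventually_atTop.1 hy
    refine ⟨w k y, (eventually_ge_atTop k).mono fun m hm => ?_⟩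
    induction hm with
    | refl => rfl
    | step hm ih => exact (st _ y (hk _ hm)).trans ih
  obtain ⟨ψ, p1, p2⟩ := measurable_limit_of_tendsto_metrizable_ae (μ := ν) (L := atTop) (f := w)
    (fun m => (h.cont fun q => B' m q / B m (g m q)).measurable.aemeasurable)
    (ev.mono fun y ⟨c, hc⟩ => ⟨c, tendsto_const_nhds.congr' (EventuallyEq.symm hc)⟩)
  have p3 : ∀ᵐ y ∂ν, ∀ᶠ m in atTop, ψ y = w m y := by
    filter_upwards [ev, p2] with y ⟨c, hc⟩ ht
    rw [tendsto_nhds_unique ht (tendsto_const_nhds.congr' (EventuallyEq.symm hc))]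
    exact hc.mono fun _ => Eq.symm
  obtain ⟨U, hU⟩ := exists_un_op hT p1
  refine ⟨ψ, U, p1, p3, hU, fun m G => ?_⟩
  have hS := (measure_iUnion_le _).trans (h.tail a1 hg m)
  have a0 : 0 ≤ a m := by linarith [fr_nonneg (fun q => ¬Gd π g B B' m q), hg m]
  refine (norm_le_supp (C := 2 * ‖G‖) _ (MeasurableSet.iUnion fun i =>
    h.meas fun q => ¬Gd π g B B' (m + i) q) (by positivity) ?_).trans ?_
  · filter_upwards [Lp.coeFn_sub (U.1 (h.io B m G)) (h.io B' m (G ∘ g m)), hU (h.io B m G),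
      hT.quasiMeasurePreserving.ae (h.io_coe B m G), h.io_coe B' m (G ∘ g m), T2, p3]
      with y h1 h2 h3 h4 h5 h6
    rw [h1, Pi.sub_apply, h2, h3, h4]
    refine ⟨(norm_sub_le _ _).trans ?_, fun hy => ?_⟩
    · simp only [norm_mul, Circle.norm_coe, one_mul, mul_one, Function.comp_apply]
      linarith [norm_le_pi_norm G (lev m (T y)), norm_le_pi_norm G (g m (lev m y))]
    · simp only [mem_iUnion, mem_ofPred_eq, not_exists, not_not] at hy
      rw [down_ind (P := fun m => lev m (T y) = g m (lev m y)) (fun i hi => by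
          rw [← h.compat, hi, (hy i).1, h.compat]) h5,
        down_ind (P := fun m => ψ y = w m y) (fun i hi => hi.trans (st _ y (hy i))) h6]
      simp only [w, Circle.coe_div, Function.comp_apply]
      field_simp
      simp
  · rw [mul_assoc, mul_assoc, mul_comm ‖G‖]
    gcongr
    exact ENNReal.toReal_le_of_le_ofReal a0 hS

end IsTower

end Pool.Agent.Lib.MP_9f219e_an
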