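import Pool.Agent.Lib.MP_9f219e_an.Ops

/-!
Characters of countable products of circles; ergodicity through fixed vectors.
-/

open MeasureTheory Set Filter Topology
open scoped InnerProductSpace ENNReal NNReal ComplexConjugate

namespace Pool.Agent.Lib.MP_9f219e_an

theorem total_of_sep {Z κ : Type*} [TopologicalSpace Z] [CompactSpace Z]
    [TopologicalSpace.MetrizableSpace Z] [MeasurableSpace Z] [BorelSpace Z] (μ : Measure Z)
    [IsFiniteMeasure μ] (a : κ → C(Z, ℂ)) (h1 : 1 ∈ range a)
    (hm : ∀ i j, a i * a j ∈ range a) (hs : ∀ i, star (a i) ∈ range a)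
    (sep : ∀ x y, (∀ i, a i x = a i y) → x = y) (F : Lp ℂ 2 μ)
    (hF : ∀ i, ⟪ContinuousMap.toLp 2 μ ℂ (a i), F⟫_ℂ = 0) : F = 0 := by
  let A : StarSubalgebra ℂ C(Z, ℂ) :=
    { (Submodule.span ℂ (range a)).toSubalgebra (Submodule.subset_span h1) (fun x y hx hy => by
        have := Submodule.mul_mem_mul hx hy
        rw [Submodule.span_mul_span] at this
        refine Submodule.span_mono ?_ this
        rintro _ ⟨_, ⟨i, rfl⟩, _, ⟨j, rfl⟩, rfl⟩
        exact hm i j) with
      star_mem' := fun {x} hx => by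
        change x ∈ Submodule.span ℂ (range a) at hx
        change star x ∈ Submodule.span ℂ (range a)
        induction hx using Submodule.span_induction with
        | mem x hx => obtain ⟨i, rfl⟩ := hx; exact Submodule.subset_span (hs i)
        | zero => simp
        | add x y _ _ h1 h2 => rw [star_add]; exact add_mem h1 h2
        | smul c x _ h => rw [star_smul]; exact Submodule.smul_mem _ _ h }
  have top := ContinuousMap.starSubalgebra_topologicalClosure_eq_top_of_separatesPoints A (by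
    intro x y hxy
    obtain ⟨i, hi⟩ := not_forall.1 (mt (sep x y) hxy)
    exact ⟨_, ⟨a i, Submodule.subset_span (mem_range_self i), rfl⟩, hi⟩)
  refine (toLp_dense μ).eq_zero_of_inner_right ℂ fun g => ?_
  have hg : g ∈ A.topologicalClosure := top ▸ StarSubalgebra.mem_top
  refine closure_minimal (t := {g | ⟪ContinuousMap.toLp 2 μ ℂ g, F⟫_ℂ = 0}) (fun x hx => ?_)
    (isClosed_eq (by fun_prop) continuous_const) hg
  change x ∈ Submodule.span ℂ (range a) at hx
  induction hx using Submodule.span_induction with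
  | mem x hx => obtain ⟨i, rfl⟩ := hx; exact hF i
  | zero => simp
  | add x y _ _ h1 h2 => simp only [mem_ofPred_eq, map_add, inner_add_left] at *; simp [h1, h2]
  | smul c x _ h => simp only [mem_ofPred_eq, map_smul, inner_smul_left] at *; simp [h]

theorem ergodic_of_fix {X : Type*} [MeasurableSpace X] {μ : Measure X} [IsProbabilityMeasure μ]
    {T : X → X} (hT : MeasurePreserving T μ μ) (U : Un (Lp ℂ 2 μ))
    (hU : ∀ F, ∀ᵐ x ∂μ, U.1 F x = F (T x))
    (h : ∀ F, ⟪one μ, F⟫_ℂ = 0 → U.1 F = F → F = 0) : Ergodic T μ := by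
  refine ⟨hT, ⟨fun s hs e => ?_⟩⟩
  have ml : MemLp (fun x => s.indicator (fun _ => (1 : ℂ)) x - μ.real s) 2 μ :=
    ((memLp_const (1 : ℂ)).indicator hs).sub (memLp_const (μ.real s : ℂ))
  obtain ⟨F, hF⟩ : ∃ F : Lp ℂ 2 μ, ∀ᵐ x ∂μ, F x = s.indicator (fun _ => (1 : ℂ)) x - μ.real s :=
    ⟨ml.toLp _, ml.coeFn_toLp⟩
  have a1 : ⟪one μ, F⟫_ℂ = 0 := by
    rw [inner_one, integral_congr_ae hF, integral_sub ((integrable_const _).indicator hs)
      (integrable_const _), integral_indicator_const _ hs]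
    simp
  have a2 : U.1 F = F := by
    refine Lp.ext ?_
    filter_upwards [hU F, hF, hT.quasiMeasurePreserving.ae hF]
      with x h1 h2 h3
    have : T x ∈ s ↔ x ∈ s := by rw [← mem_preimage, e]
    rw [h1, h2, h3]
    by_cases hx : x ∈ s <;> simp [hx, this]
  have := h _ a1 a2
  have a3 : ∀ᵐ x ∂μ, s.indicator (fun _ => (1 : ℂ)) x = μ.real s := by
    filter_upwards [hF, Lp.coeFn_zero ℂ 2 μ] with x h1 h2
    rw [this, h2] at h1
    exact sub_eq_zero.1 h1.symm
  rw [eventuallyConst_set]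
  by_cases h0 : (μ.real s : ℂ) = 0
  · exact Or.inr (a3.mono fun x hx h' => by simp [h0, h'] at hx)
  · exact Or.inl (a3.mono fun x hx => by_contra fun h' => h0 (by simpa [h'] using hx.symm))

lemma un_one {X : Type*} [MeasurableSpace X] {μ : Measure X} [IsProbabilityMeasure μ]
    {T : X → X} (hT : MeasurePreserving T μ μ) {U : Un (Lp ℂ 2 μ)}
    (hU : ∀ F, ∀ᵐ x ∂μ, U.1 F x = F (T x)) : U.1 (one μ) = one μ := Lp.ext (by
  filter_upwards [hU (one μ), one_coe μ, hT.quasiMeasurePreserving.ae (one_coe μ)] with x a b c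
  rw [a, b, c])

variable {ι : Type}

/-- characters -/
noncomputable def ch (u : ι →₀ ℤ) (t : ι → Circle) : Circle := u.prod fun j a => t j ^ a

lemma ch_zero (t : ι → Circle) : ch 0 t = 1 := rfl
lemma ch_add (u v : ι →₀ ℤ) (t : ι → Circle) : ch (u + v) t = ch u t * ch v t :=
  Finsupp.prod_add_index' (by simp) fun _ _ _ => zpow_add _ _ _
lemma ch_single (j : ι) (a : ℤ) (t : ι → Circle) : ch (Finsupp.single j a) t = t j ^ a :=
  Finsupp.prod_single_index (by simp)
lemma ch_neg (u : ι →₀ ℤ) (t : ι → Circle) : ch (-u) t = (ch u t)⁻¹ :=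
  eq_inv_of_mul_eq_one_left (by rw [← ch_add, neg_add_cancel, ch_zero])
lemma ch_mul (u : ι →₀ ℤ) (s t : ι → Circle) : ch u (s * t) = ch u s * ch u t := by
  simp [ch, mul_zpow, Finsupp.prod_mul]
@[fun_prop] lemma ch_cont (u : ι →₀ ℤ) : Continuous (ch u) := by
  unfold ch Finsupp.prod
  fun_prop
lemma ch_conj (u v : ι →₀ ℤ) (t : ι → Circle) :
    conj (ch u t : ℂ) * ch v t = ch (v - u) t := by
  rw [← Circle.coe_inv_eq_conj, ← Circle.coe_mul, ← ch_neg, ← ch_add, neg_add_eq_sub]

variable [Countable ι]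

variable (ι) in
/-- Haar measure -/
noncomputable def hr : Measure (ι → Circle) := Measure.haarMeasure ⊤

instance hr_haar : (hr ι).IsHaarMeasure := by unfold hr; infer_instance
instance hr_prob : IsProbabilityMeasure (hr ι) := ⟨Measure.haarMeasure_self⟩
instance hr_null [Nonempty ι] : NullSingletonClass (hr ι) := by
  have : Nontrivial Circle := ⟨1, -1, fun h => by
    have := congrArg (fun z : Circle => (z : ℂ)) h
    simp only [Circle.coe_one, Circle.coe_neg] at this
    norm_num at this⟩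
  infer_instance

lemma ch_int {u : ι →₀ ℤ} (hu : u ≠ 0) : ∫ t, (ch u t : ℂ) ∂hr ι = 0 := by
  classical
  obtain ⟨j, hj⟩ := Finsupp.ne_iff.1 hu
  refine integral_eq_zero_of_mul_left_eq_neg
    (g := Pi.mulSingle j (Circle.exp (Real.pi / u j))) fun t => ?_
  have : ch u (Pi.mulSingle j (Circle.exp (Real.pi / u j))) = Circle.exp Real.pi := by
    rw [ch, Finsupp.prod_eq_single j (fun b _ hb => by simp [hb]) (by simp), Pi.mulSingle_eq_same,
      ← Circle.exp_zsmul, zsmul_eq_mul, mul_div_cancel₀ _ (by exact_mod_cast hj)]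
  rw [ch_mul, this]
  simp

end Pool.Agent.Lib.MP_9f219e_an
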