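import Pool.Agent.Lib.MP_9f219e_an.Base
import Pool.Agent.Lib.MP_9f219e_an.Torus
import Pool.Agent.Lib.MP_9f219e_an.Blocks
import Pool.Agent.Lib.MP_9f219e_an.Alg

/-!
The torus extension realising a set of multiplicities with a finite element.
-/

open MeasureTheory Set Filter Topology Polynomial
open scoped InnerProductSpace ENNReal NNReal ComplexConjugate

namespace Pool.Agent.Lib.MP_9f219e_an

/-- realisability -/
def Realised (M : Set ℕ∞) : Prop :=
  ∃ (X : Type) (_ : MeasurableSpace X) (_ : StandardBorelSpace X) (μ : Measure X)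
    (_ : IsProbabilityMeasure μ) (_ : NullSingletonClass μ) (T : X ≃ᵐ X),
    Ergodic T μ ∧ HasMultiplicities μ T M

lemma corr_of_fix {H : Type*} [NormedAddCommGroup H] [InnerProductSpace ℂ H] [CompleteSpace H]
    {V V' : Un H} {w w' : H} (h : V.1 w = w) (h' : V'.1 w' = w') (e : ‖w‖ = ‖w'‖) (g : C(S1, ℂ)) :
    ⟪w, repU V g w⟫_ℂ = ⟪w', repU V' g w'⟫_ℂ := by
  by_cases h0 : w = 0
  · rw [h0, norm_zero, eq_comm, norm_eq_zero] at e
    simp [h0, e]
  have := congrArg (fun v => ⟪w', v⟫_ℂ) (repU_intertwine (V := V) (V' := V')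
    ((innerSL ℂ w).smulRight w') (fun x => by simp [u_perp h, h']) g w)
  simp only [ContinuousLinearMap.smulRight_apply, innerSL_apply_apply, map_smul, inner_smul_right,
    inner_self_eq_norm_sq_to_K, ← e] at this
  rw [mul_comm] at this
  exact mul_left_cancel₀ (by simpa using h0) this

theorem realised_fin {M : Set ℕ∞} (h0 : 0 ∉ M) {n : ℕ} (hn : (n : ℕ∞) ∈ M) : Realised M := by
  classical
  have : NeZero n := ⟨fun e => h0 (by simpa [e] using hn)⟩
  obtain ⟨c, ν, _, S, ψ, V, L, f, hB⟩ := exists_base n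
  obtain ⟨b, rep, r1, r2⟩ := alg ⟨_, hn⟩ h0
  set B := Finsupp.linearCombination ℤ b with hBdef
  let Y := ∀ m, Fin (c m)
  let μ : Measure (Y × (ℕ → Circle)) := ν.prod (hr ℕ)
  let φ : Y → ℕ → Circle := fun y j => ψ (b j) y
  have mφ : Measurable φ := measurable_pi_lambda _ fun j => hB.meas _
  let T : Y × (ℕ → Circle) ≃ᵐ Y × (ℕ → Circle) :=
    { toFun := fun x => (S x.1, φ x.1 * x.2)
      invFun := fun x => (S.symm x.1, (φ (S.symm x.1))⁻¹ * x.2)
      left_inv := fun x => by simp
      right_inv := fun x => by simp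
      measurable_toFun := (S.measurable.comp measurable_fst).prodMk
        ((mφ.comp measurable_fst).mul measurable_snd)
      measurable_invFun := (S.symm.measurable.comp measurable_fst).prodMk
        ((mφ.comp (S.symm.measurable.comp measurable_fst)).inv.mul measurable_snd) }
  have hT : MeasurePreserving T μ μ := hB.mp.skew_product (g := fun y t => φ y * t)
    ((mφ.comp measurable_fst).mul measurable_snd)
    (Eventually.of_forall fun y => map_mul_left_eq_self _ _)
  obtain ⟨U, hU'⟩ := exists_un_op hT (ψ := fun _ => 1) measurable_const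
  have hU : ∀ F, ∀ᵐ x ∂μ, U.1 F x = F (T x) := fun F => (hU' F).mono fun x hx => by simpa using hx
  have p1 : MeasurePreserving Prod.fst μ ν := measurePreserving_fst
  choose J J1 J2 using fun u : ℕ →₀ ℤ => exists_op p1 (ψ := fun x => ch u x.2)
    ((ch_cont u).measurable.comp measurable_snd)
  have Jo : ∀ u v, u ≠ v → ∀ F G, ⟪J u F, J v G⟫_ℂ = 0 := fun u v huv F G => by
    have := integral_prod_mul (μ := ν) (ν := hr ℕ) (fun y => conj (F y) * G y)
      fun t => (ch (v - u) t : ℂ)
    rw [ch_int (sub_ne_zero.2 huv.symm), mul_zero] at this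
    rw [L2.inner_def, ← this]
    refine integral_congr_ae ?_
    filter_upwards [J2 u F, J2 v G] with x h1 h2
    rw [h1, h2, ← ch_conj]; simp; ring
  have J0 : J 0 (one ν) = one μ := Lp.ext (by
    filter_upwards [J2 0 (one ν), one_coe μ, p1.quasiMeasurePreserving.ae (one_coe ν)] with x a b c
    simp [a, b, c, ch_zero])
  have cφ : ∀ᵐ y ∂ν, ∀ u, ch u (φ y) = ψ (B u) y := hB.add.mono fun y hy u => by
    let m : ℤ[X] →+ Additive Circle :=
      AddMonoidHom.mk' (fun χ => Additive.ofMul (ψ χ y)) fun a b => congrArg _ (hy a b)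
    induction u using Finsupp.induction_linear with
    | zero => rw [map_zero]; exact (map_zero m).symm
    | add u v h1 h2 => rw [map_add, ch_add, hy, h1, h2]
    | single j a =>
      rw [ch_single, hBdef, Finsupp.linearCombination_single]
      exact (map_zsmul m a (b j)).symm
  have Ji : ∀ u F, J u ((V (B u)).1 F) = U.1 (J u F) := fun u F => Lp.ext (by
    filter_upwards [J2 u ((V (B u)).1 F), p1.quasiMeasurePreserving.ae (hB.op (B u) F),
      hU (J u F), hT.quasiMeasurePreserving.ae (J2 u F), p1.quasiMeasurePreserving.ae cφ]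
      with x a1 a2 a3 a4 a5
    rw [a1, a2, a3, a4, ← a5]
    change _ = (ch u (φ x.1 * x.2) : ℂ) * F (S x.1)
    rw [ch_mul, Circle.coe_mul]; ring)
  have Jt : ∀ F, (∀ u G, ⟪J u G, F⟫_ℂ = 0) → F = 0 := fun F hF => by
    refine total_of_sep μ (κ := C(Y, ℂ) × (ℕ →₀ ℤ))
      (fun i => ⟨fun x => ch i.2 x.2 * i.1 x.1, by fun_prop⟩) ⟨(1, 0), by ext; simp [ch_zero]⟩
      (fun i j => ⟨(i.1 * j.1, i.2 + j.2), by ext; simp [ch_add]; ring⟩)
      (fun i => ⟨(star i.1, -i.2), by
        ext; simp [ch_neg, Circle.coe_inv_eq_conj, -Circle.coe_inv]⟩)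
      (fun x y h => Prod.ext ?_ (funext fun j => ?_)) F fun i => ?_
    · refine funext fun m => Fin.ext (Nat.cast_injective (R := ℂ) ?_)
      have := h (⟨fun y => (y m : ℕ), by fun_prop⟩, 0)
      simp only [ContinuousMap.coe_mk, ch_zero, Circle.coe_one, one_mul] at this
      exact this
    · exact Circle.coe_injective (by simpa [ch_single] using h (1, Finsupp.single j 1))
    · rw [← hF i.2 (ContinuousMap.toLp 2 ν ℂ i.1)]
      congr 1
      refine Lp.ext ?_
      filter_upwards [J2 i.2 (ContinuousMap.toLp 2 ν ℂ i.1), p1.quasiMeasurePreserving.ae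
        (ContinuousMap.coeFn_toLp (p := 2) (𝕜 := ℂ) ν i.1), ContinuousMap.coeFn_toLp (p := 2)
        (𝕜 := ℂ) μ (⟨fun x => ch i.2 x.2 * i.1 x.1, by fun_prop⟩ : C(Y × (ℕ → Circle), ℂ))]
        with x a1 a2 a3
      rw [a1, a2, a3]; rfl
  have eqv : ∀ (r : ℕ) χ, ∃ R : Un (Lp ℂ 2 ν), V (X ^ r * χ) * R = R * V χ := fun r χ => by
    induction r with
    | zero => exact ⟨1, by simp⟩
    | succ r ih =>
      obtain ⟨R, hR⟩ := ih
      obtain ⟨R', hR'⟩ := hB.equiv (X ^ r * χ)
      exact ⟨R' * R, by rw [pow_succ', mul_assoc X, ← mul_assoc, hR', mul_assoc, hR, mul_assoc]⟩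
  have r0 : ∀ u, rep u ≠ 0 := fun u e => (r1 u).1 (by simp [e])
  have : ∀ u, ∃ R : Un (Lp ℂ 2 ν), V (B u.1) * R = R * V (rep u) := fun u => by
    obtain ⟨r, hr⟩ := (r1 u).2
    rw [hr]; exact eqv r _
  choose R hR using this
  have ad : ∀ u G F, ⟪G, ContinuousLinearMap.adjoint (J u) F⟫_ℂ = ⟪J u G, F⟫_ℂ := fun u G F =>
    ContinuousLinearMap.adjoint_inner_right _ _ _
  have w0 : ∀ F, ⟪one μ, F⟫_ℂ = 0 → ⟪one ν, ContinuousLinearMap.adjoint (J 0) F⟫_ℂ = 0 :=
    fun F hF => by rw [ad, J0, hF]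
  refine ⟨Y × (ℕ → Circle), inferInstance, inferInstance, μ, inferInstance, inferInstance, T,
    ergodic_of_fix hT U hU fun F h1 h2 => Jt F fun u G => ?_, ?_⟩
  · have a : (V (B u)).1 (ContinuousLinearMap.adjoint (J u) F) =
        ContinuousLinearMap.adjoint (J u) F := ext_inner_left ℂ fun v => by
      conv_lhs => rw [← u_self_inv (V (B u)) v, u_inner, ad, ← u_inner U, ← Ji, u_self_inv, h2]
      rw [ad]
    rw [← ad]
    by_cases hu : u = 0
    · subst hu
      rw [map_zero] at a
      rw [hB.erg _ (w0 F h1) a, inner_zero_right]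
    · obtain ⟨r, hr⟩ := (r1 ⟨u, hu⟩).2
      have b0 : B u ≠ 0 := by rw [hr]; simp [r0]
      have n1 : ‖one ν‖ = 1 := by
        refine (pow_left_inj₀ (norm_nonneg _) zero_le_one two_ne_zero).1 ?_
        rw [norm_sq_L2, integral_congr_ae ((one_coe ν).mono fun y hy => by rw [hy])]
        simp
      rw [hB.dis (B u) 0 b0 (fun r s => by simp [b0]) _
        ((‖ContinuousLinearMap.adjoint (J u) F‖ : ℂ) • one ν)
        (corr_of_fix a (by rw [map_smul, hB.vone]) (by rw [norm_smul, n1]; simp)), inner_zero_right]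
  let bl : ZMod n ⊕ {u : ℕ →₀ ℤ // u ≠ 0} → ℤ[X] := Sum.elim (fun _ => 0) rep
  let LL : ℤ[X] → Submodule ℂ (Lp ℂ 2 ν) := fun a => if a = 0 then L else ⊤
  have L0 : LL 0 = L := if_pos rfl
  have L1 : ∀ u, LL (rep u) = ⊤ := fun u => if_neg (r0 u)
  have xr : ∀ u v, rep u ≠ rep v → ∀ r s : ℕ, X ^ r * rep u ≠ X ^ s * rep v :=
    fun u v h r s e => h (xfree_unique (r1 u).1 (r1 v).1 e).2
  have : Fact ((2 : ℝ≥0∞) ≠ ∞) := ⟨by norm_num⟩
  have key := blocks μ T U hU (un_one hT hU) bl V LL
    (fun a => by simp only [LL]; split_ifs; exacts [hB.closed, isClosed_univ])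
    (fun a g x hx => by
      by_cases ha : a = 0
      · subst ha; rw [L0] at *; exact hB.inv g x hx
      · simp [LL, ha])
    (Sum.elim (fun i => (J 0).comp (f ^ i.val).1) fun u => (J u.1).comp (R u).1)
    (by rintro (i | u) x <;> exact (J1 _ _).trans (u_norm _ _))
    (by
      rintro (i | u) x
      · change J 0 ((f ^ i.val).1 ((V 0).1 x)) = U.1 (J 0 ((f ^ i.val).1 x))
        rw [← Ji, map_zero, ← u_mul, (hB.comm.pow_left _).eq, u_mul]
      · change J u.1 ((R u).1 ((V (rep u)).1 x)) = U.1 (J u.1 ((R u).1 x))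
        rw [← Ji, ← u_mul, ← hR, u_mul])
    (by
      rintro (i | u) (j | v) h x hx y hy
      · exact (inner_of_norm _ (J1 0) _ _).trans
          (hB.orth i j (by simpa using h) x (L0 ▸ hx) y (L0 ▸ hy))
      · exact Jo _ _ v.2.symm _ _
      · exact Jo _ _ u.2 _ _
      · exact Jo _ _ (fun e => h (congrArg _ (Subtype.ext e))) _ _)
    (by
      rintro (i | u) x hx
      · have : (f ^ i.val).1 (one ν) = one ν := by
          induction i.val with
          | zero => rfl
          | succ k ih => rw [pow_succ, u_mul, hB.fone, ih]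
        rw [← J0]
        exact (inner_of_norm _ (J1 0) _ _).trans ((u_perp this x).trans (hB.perp x (L0 ▸ hx)))
      · rw [← J0]; exact Jo _ _ u.2.symm _ _)
    (fun F h1 h2 => Jt F fun u G => by
      by_cases hu : u = 0
      · subst hu
        rw [← ad, hB.total _ (w0 F h1) fun a x hx => (ad _ _ _).trans (h2 (.inl a) x (L0 ▸ hx)),
          inner_zero_right]
      · rw [← u_self_inv (R ⟨u, hu⟩) G]
        exact h2 (.inr ⟨u, hu⟩) _ (by simp [bl, L1]))
    (by
      rintro (i | u) x hx y hy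
      · exact hB.sim0 x (L0 ▸ hx) y (L0 ▸ hy)
      · exact hB.sim _ (r0 u) x y)
    (by
      rintro (i | u) (j | v) h x - y - e
      · exact (h rfl).elim
      · have := hB.dis _ 0 (r0 v) (fun r s => by simp [r0]) y x fun g => (e g).symm
        simpa [this] using e 1
      · exact hB.dis _ 0 (r0 u) (fun r s => by simp [r0]) x y e
      · exact hB.dis _ _ (r0 u) (xr u v h) x y e)
  have c1 : ∀ u, (bl ⁻¹' {rep u}).encard = (rep ⁻¹' {rep u}).encard := fun u => by
    have : bl ⁻¹' {rep u} = Sum.inr '' (rep ⁻¹' {rep u}) := by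
      ext (i | v) <;> simp [bl, (r0 u).symm]
    rw [this, Sum.inr_injective.encard_image]
  have c0 : (bl ⁻¹' {0}).encard = n := by
    have : bl ⁻¹' {0} = Sum.inl '' univ := by ext (i | v) <;> simp [bl, r0]
    rw [this, Sum.inl_injective.encard_image]
    simp
  refine Eq.subst ?_ key
  ext k
  constructor
  · rintro ⟨i | u, -, rfl⟩
    · exact c0 ▸ hn
    · exact r2 ▸ ⟨u, (c1 u).symm⟩
  · rw [← r2]
    rintro ⟨u, rfl⟩
    refine ⟨.inr u, ?_, (c1 u).symm⟩
    have : Nontrivial (Lp ℂ 2 ν) := ⟨one ν, 0, fun e => by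
      have := inner_one ν (one ν)
      rw [integral_congr_ae (one_coe ν), e] at this
      simp at this⟩
    simp [bl, L1]

end Pool.Agent.Lib.MP_9f219e_an
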