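import Mathlib

/-!
Spectral measures of vectors for a representation of `C(Ω, ℂ)` on a Hilbert space.
-/

open MeasureTheory Set Filter Topology
open scoped InnerProductSpace ENNReal CompactlySupported ComplexConjugate

namespace Pool.Agent.Lib.MP_9f219e_an

variable {H : Type*} [NormedAddCommGroup H] [InnerProductSpace ℂ H] [CompleteSpace H]
variable {H' : Type*} [NormedAddCommGroup H'] [InnerProductSpace ℂ H'] [CompleteSpace H']
variable {Ω : Type*} [TopologicalSpace Ω] [CompactSpace Ω]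

/-- representation of the continuous functions -/
abbrev Rep (Ω H : Type*) [TopologicalSpace Ω] [NormedAddCommGroup H] [InnerProductSpace ℂ H]
    [CompleteSpace H] := C(Ω, ℂ) →⋆ₐ[ℂ] (H →L[ℂ] H)

omit [CompactSpace Ω] in
lemma rep_inner (ρ : Rep Ω H) (g : C(Ω, ℂ)) (x y : H) :
    ⟪ρ g x, y⟫_ℂ = ⟪x, ρ (star g) y⟫_ℂ := by
  rw [map_star, ContinuousLinearMap.star_eq_adjoint, ContinuousLinearMap.adjoint_inner_right]

omit [CompactSpace Ω] in
lemma rep_mul (ρ : Rep Ω H) (g g' : C(Ω, ℂ)) (x : H) : ρ (g * g') x = ρ g (ρ g' x) := by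
  rw [map_mul]; rfl

omit [CompactSpace Ω] in
lemma rep_inner2 (ρ : Rep Ω H) (g g' : C(Ω, ℂ)) (x y : H) :
    ⟪ρ g x, ρ g' y⟫_ℂ = ⟪x, ρ (star g * g') y⟫_ℂ := by
  rw [rep_inner, rep_mul]

lemma rep_norm_le (ρ : Rep Ω H) (g : C(Ω, ℂ)) (x : H) : ‖ρ g x‖ ≤ ‖g‖ * ‖x‖ :=
  ((ρ g).le_opNorm x).trans
    (mul_le_mul_of_nonneg_right (NonUnitalStarAlgHom.norm_apply_le ρ g) (norm_nonneg _))

lemma rep_continuous (ρ : Rep Ω H) (x : H) : Continuous fun g => ρ g x := by
  refine (LipschitzWith.of_dist_le_mul (K := ‖x‖₊) fun g g' => ?_).continuous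
  rw [dist_eq_norm, dist_eq_norm, ← ContinuousLinearMap.sub_apply, ← map_sub, mul_comm]
  exact rep_norm_le ρ _ x

/-- intertwining of representations -/
lemma rep_intertwine {s s' : Set ℂ} [CompactSpace s] [CompactSpace s'] (ρ : Rep s H)
    (ρ' : Rep s' H') (θ : C(s', s)) (J : H →L[ℂ] H')
    (h1 : ∀ x, J (ρ (.restrict s (.id ℂ)) x) =
      ρ' ((ContinuousMap.restrict s (.id ℂ)).comp θ) (J x))
    (h2 : ∀ x, J (ρ (star (.restrict s (.id ℂ))) x) =
      ρ' (star ((ContinuousMap.restrict s (.id ℂ)).comp θ)) (J x))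
    (g : C(s, ℂ)) : ∀ x, J (ρ g x) = ρ' (g.comp θ) (J x) := by
  induction g using ContinuousMap.induction_on_of_compact with
  | const r =>
    intro x
    have e1 : (ContinuousMap.const s r) = algebraMap ℂ C(s, ℂ) r := rfl
    have e2 : (ContinuousMap.const s r).comp θ = algebraMap ℂ C(s', ℂ) r := rfl
    rw [e2, e1, AlgHomClass.commutes, AlgHomClass.commutes]
    simp [Algebra.algebraMap_eq_smul_one]
  | id => exact h1
  | star_id => exact h2
  | add f g hf hg =>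
    intro x
    have : (f + g).comp θ = f.comp θ + g.comp θ := rfl
    simp [this, hf, hg]
  | mul f g hf hg =>
    intro x
    have : (f * g).comp θ = f.comp θ * g.comp θ := rfl
    rw [this, rep_mul, rep_mul, hf, hg]
  | frequently f hf =>
    intro x
    have hc : IsClosed {g : C(s, ℂ) | J (ρ g x) = ρ' (g.comp θ) (J x)} :=
      isClosed_eq (J.continuous.comp (rep_continuous ρ x))
        ((rep_continuous ρ' (J x)).comp (ContinuousMap.continuous_precomp θ))
    exact hc.closure_subset (mem_closure_iff_frequently.2 (hf.mono fun g hg => hg x))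

/-- invariant closed subspaces -/
lemma rep_invariant {s : Set ℂ} [CompactSpace s] (ρ : Rep s H) {L : Submodule ℂ H}
    (hL : IsClosed (L : Set H)) (h1 : ∀ x ∈ L, ρ (.restrict s (.id ℂ)) x ∈ L)
    (h2 : ∀ x ∈ L, ρ (star (.restrict s (.id ℂ))) x ∈ L) (g : C(s, ℂ)) :
    ∀ x ∈ L, ρ g x ∈ L := by
  induction g using ContinuousMap.induction_on_of_compact with
  | const r =>
    intro x hx
    have e1 : (ContinuousMap.const s r) = algebraMap ℂ C(s, ℂ) r := rfl
    rw [e1, AlgHomClass.commutes]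
    simpa [Algebra.algebraMap_eq_smul_one] using L.smul_mem r hx
  | id => exact h1
  | star_id => exact h2
  | add f g hf hg =>
    intro x hx
    simpa using L.add_mem (hf x hx) (hg x hx)
  | mul f g hf hg =>
    intro x hx
    rw [rep_mul]; exact hf _ (hg x hx)
  | frequently f hf =>
    intro x hx
    have hc : IsClosed {g : C(s, ℂ) | ρ g x ∈ L} := hL.preimage (rep_continuous ρ x)
    exact hc.closure_subset (mem_closure_iff_frequently.2 (hf.mono fun g hg => hg x hx))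

variable [MeasurableSpace Ω] [BorelSpace Ω]

/-- `σ` is the spectral measure of `x` -/
def IsSpec (ρ : Rep Ω H) (x : H) (σ : Measure Ω) : Prop :=
  ∀ g : C(Ω, ℂ), ⟪x, ρ g x⟫_ℂ = ∫ w, g w ∂σ

lemma cont_integrable (σ : Measure Ω) [IsFiniteMeasure σ] {E : Type*} [NormedAddCommGroup E]
    [SecondCountableTopology E] {g : Ω → E} (hg : Continuous g) : Integrable g σ :=
  hg.integrable_of_hasCompactSupport (HasCompactSupport.of_compactSpace g)

omit [BorelSpace Ω] [CompactSpace Ω] in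
lemma IsSpec.norm_sq {ρ : Rep Ω H} {x : H} {σ : Measure Ω} (h : IsSpec ρ x σ) (g : C(Ω, ℂ)) :
    ‖ρ g x‖ ^ 2 = ∫ w, ‖g w‖ ^ 2 ∂σ := by
  have h1 : ((‖ρ g x‖ ^ 2 : ℝ) : ℂ) = ((∫ w, ‖g w‖ ^ 2 ∂σ : ℝ) : ℂ) := by
    rw [← integral_complex_ofReal]
    have e := inner_self_eq_norm_sq_to_K (𝕜 := ℂ) (ρ g x)
    rw [rep_inner2, h] at e
    push_cast
    refine e.symm.trans ?_
    refine integral_congr_ae (Eventually.of_forall fun w => ?_)
    simp [Complex.conj_mul']
  exact_mod_cast h1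

theorem exists_spec [T2Space Ω] (ρ : Rep Ω H) (x : H) :
    ∃ σ : Measure Ω, IsFiniteMeasure σ ∧ IsSpec ρ x σ := by
  let c : C(Ω, ℝ) →ₗ[ℝ] C(Ω, ℂ) :=
    (Complex.ofRealCLM.compLeftContinuous ℝ Ω).toLinearMap
  have hc : ∀ (f : C(Ω, ℝ)) w, c f w = (f w : ℂ) := fun _ _ => rfl
  let Λ0 : C_c(Ω, ℝ) →ₗ[ℝ] ℝ :=
    { toFun := fun f => (⟪x, ρ (c f.toContinuousMap) x⟫_ℂ).re
      map_add' := fun f g => by
        have : c (f + g).toContinuousMap = c f.toContinuousMap + c g.toContinuousMap := by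
          ext w; simp [hc]
        simp [this, inner_add_right]
      map_smul' := fun r f => by
        have : c (r • f).toContinuousMap = (r : ℂ) • c f.toContinuousMap := by
          ext w; simp [hc]
        show (⟪x, ρ (c (r • f).toContinuousMap) x⟫_ℂ).re = _
        rw [this, map_smul, ContinuousLinearMap.smul_apply, inner_smul_right]
        simp }
  have pos : ∀ f, 0 ≤ f → 0 ≤ Λ0 f := by
    intro f hf
    let s : C(Ω, ℝ) := ⟨fun w => Real.sqrt (f w), by fun_prop⟩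
    have : c f.toContinuousMap = star (c s) * c s := by
      ext w
      have h0 : 0 ≤ f w := hf w
      simp only [hc, ContinuousMap.mul_apply, ContinuousMap.star_apply, s, ContinuousMap.coe_mk,
        RCLike.star_def, Complex.conj_ofReal]
      rw [← Complex.ofReal_mul, Real.mul_self_sqrt h0]; rfl
    change 0 ≤ (⟪x, ρ (c f.toContinuousMap) x⟫_ℂ).re
    rw [this, ← rep_inner2]
    exact inner_self_nonneg (𝕜 := ℂ)
  let Λ := PositiveLinearMap.mk₀ Λ0 pos
  refine ⟨RealRMK.rieszMeasure Λ, inferInstance, ?_⟩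
  have real : ∀ f : C(Ω, ℝ), ⟪x, ρ (c f) x⟫_ℂ = ∫ w, c f w ∂(RealRMK.rieszMeasure Λ) := by
    intro f
    have h1 := RealRMK.integral_rieszMeasure Λ ⟨f, HasCompactSupport.of_compactSpace f⟩
    have h2 : conj ⟪x, ρ (c f) x⟫_ℂ = ⟪x, ρ (c f) x⟫_ℂ := by
      rw [inner_conj_symm, rep_inner]
      congr 3
      ext w; simp [hc]
    simp only [hc, integral_complex_ofReal]
    rw [← Complex.conj_eq_iff_re.1 h2]
    exact congrArg _ h1.symm
  intro g
  let a : C(Ω, ℝ) := ⟨fun w => (g w).re, by fun_prop⟩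
  let b : C(Ω, ℝ) := ⟨fun w => (g w).im, by fun_prop⟩
  have hg : g = c a + Complex.I • c b := by
    ext w
    simp only [ContinuousMap.add_apply, ContinuousMap.smul_apply, hc, a, b, ContinuousMap.coe_mk,
      smul_eq_mul]
    rw [mul_comm, Complex.re_add_im]
  rw [hg]
  simp only [map_add, map_smul, ContinuousLinearMap.add_apply, ContinuousLinearMap.smul_apply,
    inner_add_right, inner_smul_right, real, ContinuousMap.add_apply, ContinuousMap.smul_apply,
    smul_eq_mul]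
  rw [integral_add (cont_integrable _ (c a).continuous)
    ((cont_integrable _ (c b).continuous).const_mul _), integral_const_mul]

/-- Lipschitz-type comparison through the spectral measure -/
lemma rep_norm_le_of_le [T2Space Ω] (ρ : Rep Ω H) (x : H) {g g' : C(Ω, ℂ)} {K : ℝ}
    (hK : 0 ≤ K) (h : ∀ w, ‖g w‖ ≤ K * ‖g' w‖) : ‖ρ g x‖ ≤ K * ‖ρ g' x‖ := by
  obtain ⟨σ, _, hσ⟩ := exists_spec ρ x
  refine (pow_le_pow_iff_left₀ (norm_nonneg _) (by positivity) two_ne_zero).1 ?_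
  rw [mul_pow, hσ.norm_sq, hσ.norm_sq, ← integral_const_mul]
  refine integral_mono (cont_integrable _ (by fun_prop)) (cont_integrable _ (by fun_prop))
    fun w => ?_
  simp only [← mul_pow]
  exact pow_le_pow_left₀ (norm_nonneg _) (h w) 2

/-- multiplication by a continuous function -/
noncomputable def mulL (σ : Measure Ω) [IsFiniteMeasure σ] (g : C(Ω, ℂ)) :
    Lp ℂ 2 σ →L[ℂ] Lp ℂ 2 σ :=
  (ContinuousLinearMap.mul ℂ ℂ).holderL σ ∞ 2 2 (ContinuousMap.toLp ∞ σ ℂ g)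

lemma mulL_coe (σ : Measure Ω) [IsFiniteMeasure σ] (g : C(Ω, ℂ)) (h : Lp ℂ 2 σ) :
    ∀ᵐ w ∂σ, mulL σ g h w = g w * h w := by
  filter_upwards [(ContinuousLinearMap.mul ℂ ℂ).coeFn_holder (r := 2)
    (ContinuousMap.toLp ∞ σ ℂ g) h, ContinuousMap.coeFn_toLp (p := ∞) (𝕜 := ℂ) σ g] with w h1 h2
  exact h1.trans (by rw [h2]; rfl)

lemma mulL_toLp (σ : Measure Ω) [IsFiniteMeasure σ] (g k : C(Ω, ℂ)) :
    mulL σ g (ContinuousMap.toLp 2 σ ℂ k) = ContinuousMap.toLp 2 σ ℂ (g * k) := by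
  refine Lp.ext ?_
  filter_upwards [mulL_coe σ g (ContinuousMap.toLp 2 σ ℂ k),
    ContinuousMap.coeFn_toLp (p := 2) (𝕜 := ℂ) σ k,
    ContinuousMap.coeFn_toLp (p := 2) (𝕜 := ℂ) σ (g * k)] with w h1 h2 h3
  rw [h1, h2, h3]; rfl

lemma mulL_inner (σ : Measure Ω) [IsFiniteMeasure σ] (g : C(Ω, ℂ)) (h k : Lp ℂ 2 σ) :
    ⟪h, mulL σ g k⟫_ℂ = ∫ w, g w * (conj (h w) * k w) ∂σ := by
  rw [L2.inner_def]
  refine integral_congr_ae ?_
  filter_upwards [mulL_coe σ g k] with w h1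
  rw [h1]; simp; ring

lemma mulL_adj (σ : Measure Ω) [IsFiniteMeasure σ] (g : C(Ω, ℂ)) (h k : Lp ℂ 2 σ) :
    ⟪mulL σ (star g) h, k⟫_ℂ = ⟪h, mulL σ g k⟫_ℂ := by
  rw [mulL_inner, L2.inner_def]
  refine integral_congr_ae ?_
  filter_upwards [mulL_coe σ (star g) h] with w h1
  rw [h1]; simp; ring

lemma norm_sq_L2 {α : Type*} [MeasurableSpace α] {σ : Measure α} (h : Lp ℂ 2 σ) :
    ‖h‖ ^ 2 = ∫ w, ‖h w‖ ^ 2 ∂σ := by
  have h1 : ((‖h‖ ^ 2 : ℝ) : ℂ) = ((∫ w, ‖h w‖ ^ 2 ∂σ : ℝ) : ℂ) := by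
    rw [← integral_complex_ofReal]
    have e := inner_self_eq_norm_sq_to_K (𝕜 := ℂ) h
    rw [L2.inner_def] at e
    push_cast
    refine e.symm.trans (integral_congr_ae (Eventually.of_forall fun w => ?_))
    simp [Complex.mul_conj']
  exact_mod_cast h1

lemma integrable_sq_L2 {α : Type*} [MeasurableSpace α] {σ : Measure α} (h : Lp ℂ 2 σ) :
    Integrable (fun w => ‖h w‖ ^ 2) σ := (Lp.memLp h).norm.integrable_sq

variable [TopologicalSpace.MetrizableSpace Ω]

lemma toLp_dense (σ : Measure Ω) [IsFiniteMeasure σ] :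
    DenseRange (ContinuousMap.toLp (E := ℂ) 2 σ ℂ) :=
  ContinuousMap.toLp_denseRange ℂ σ ℂ (by norm_num)

/-- the cyclic subspace is a copy of `L²(σ)` -/
theorem exists_Phi {ρ : Rep Ω H} {x : H} {σ : Measure Ω} [IsFiniteMeasure σ] (h : IsSpec ρ x σ) :
    ∃ Φ : Lp ℂ 2 σ →L[ℂ] H, (∀ k, ‖Φ k‖ = ‖k‖) ∧
      (∀ g, Φ (ContinuousMap.toLp 2 σ ℂ g) = ρ g x) ∧ ∀ g k, Φ (mulL σ g k) = ρ g (Φ k) := by
  let f : C(Ω, ℂ) →ₗ[ℂ] H :=
    { toFun := fun g => ρ g x
      map_add' := fun a b => by simp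
      map_smul' := fun a b => by simp }
  have hn : ∀ g, ‖f g‖ = ‖ContinuousMap.toLp (E := ℂ) 2 σ ℂ g‖ := by
    intro g
    refine (pow_left_inj₀ (norm_nonneg _) (norm_nonneg _) two_ne_zero).1 ?_
    rw [norm_sq_L2]
    refine (h.norm_sq g).trans (integral_congr_ae ?_)
    filter_upwards [ContinuousMap.coeFn_toLp (p := 2) (𝕜 := ℂ) σ g] with w hw
    rw [hw]
  have hd := toLp_dense σ
  let Φ := f.extendOfNorm (ContinuousMap.toLp (E := ℂ) 2 σ ℂ).toLinearMap
  have e : ∀ g, Φ (ContinuousMap.toLp 2 σ ℂ g) = ρ g x := fun g =>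
    LinearMap.extendOfNorm_eq hd ⟨1, fun g => by rw [hn, one_mul]; exact le_rfl⟩ g
  refine ⟨Φ, fun k => ?_, e, fun g k => ?_⟩
  · refine hd.induction_on k (isClosed_eq (by fun_prop) (by fun_prop)) fun g => ?_
    rw [e]; exact hn g
  · refine hd.induction_on k (isClosed_eq (by fun_prop) (by fun_prop)) fun k => ?_
    rw [mulL_toLp, e, e, rep_mul]

end Pool.Agent.Lib.MP_9f219e_an
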