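import Pool.Agent.Lib.MP_9f219e_an.Cyc

/-!
Unitary operators, and the splitting of the base space into `n` equivalent pieces.
-/

open MeasureTheory Set Filter Topology
open scoped InnerProductSpace ENNReal ComplexConjugate

namespace Pool.Agent.Lib.MP_9f219e_an

variable {H : Type*} [NormedAddCommGroup H] [InnerProductSpace ℂ H] [CompleteSpace H]
variable {H' : Type*} [NormedAddCommGroup H'] [InnerProductSpace ℂ H'] [CompleteSpace H']

/-- the unit circle -/
abbrev S1 := Metric.sphere (0 : ℂ) 1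

/-- unitary operators -/
noncomputable abbrev Un (H : Type*) [NormedAddCommGroup H] [InnerProductSpace ℂ H] [CompleteSpace H] :=
  unitary (H →L[ℂ] H)

/-- the coordinate function -/
noncomputable abbrev zf : C(S1, ℂ) := .restrict S1 (.id ℂ)

lemma u_mul (U V : Un H) (x : H) : (U * V).1 x = U.1 (V.1 x) := rfl
lemma u_one (x : H) : (1 : Un H).1 x = x := rfl
lemma u_inv_self (U : Un H) (x : H) : (U⁻¹).1 (U.1 x) = x := by
  rw [← u_mul, inv_mul_cancel, u_one]
lemma u_self_inv (U : Un H) (x : H) : U.1 ((U⁻¹).1 x) = x := by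
  rw [← u_mul, mul_inv_cancel, u_one]
lemma u_norm (U : Un H) (x : H) : ‖U.1 x‖ = ‖x‖ := Unitary.norm_map U x
lemma u_inner (U : Un H) (x y : H) : ⟪U.1 x, U.1 y⟫_ℂ = ⟪x, y⟫_ℂ := Unitary.inner_map_map U x y
lemma u_adj (U : Un H) (x y : H) : ⟪U.1 x, y⟫_ℂ = ⟪x, (U⁻¹).1 y⟫_ℂ := by
  rw [← u_inner U x, u_self_inv]
lemma u_star (U : Un H) : star U.1 = (U⁻¹).1 := rfl
lemma u_fix_inv {U : Un H} {o : H} (h : U.1 o = o) : (U⁻¹).1 o = o := by
  conv_lhs => rw [← h, u_inv_self]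
lemma u_perp {U : Un H} {o : H} (h : U.1 o = o) (x : H) : ⟪o, U.1 x⟫_ℂ = ⟪o, x⟫_ℂ := by
  conv_lhs => rw [← h, u_inner]

/-- the continuous functional calculus of a unitary -/
noncomputable def repU (V : Un H) : Rep S1 H :=
  cfcHomSuperset (Unitary.coe_isStarNormal V) (Unitary.spectrum_subset_circle V)

lemma repU_z (V : Un H) : repU V zf = V.1 := cfcHomSuperset_id _ _
lemma repU_star_z (V : Un H) : repU V (star zf) = (V⁻¹).1 := by rw [map_star, repU_z, u_star]
lemma repU_pow (V : Un H) (k : ℕ) : repU V (zf ^ k) = (V ^ k).1 := by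
  rw [map_pow, repU_z]; rfl

lemma repU_intertwine {V : Un H} {V' : Un H'} (J : H →L[ℂ] H')
    (h : ∀ x, J (V.1 x) = V'.1 (J x)) (g : C(S1, ℂ)) (x : H) :
    J (repU V g x) = repU V' g (J x) := by
  refine rep_intertwine (repU V) (repU V') (.id _) J (fun x => ?_) (fun x => ?_) g x
  · rw [ContinuousMap.comp_id, repU_z, repU_z, h]
  · rw [ContinuousMap.comp_id, repU_star_z, repU_star_z]
    conv_rhs => rw [← u_self_inv V x, h, u_inv_self]

lemma repU_invariant (V : Un H) {L : Submodule ℂ H} (hL : IsClosed (L : Set H))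
    (h1 : ∀ x ∈ L, V.1 x ∈ L) (h2 : ∀ x ∈ L, (V⁻¹).1 x ∈ L) (g : C(S1, ℂ)) :
    ∀ x ∈ L, repU V g x ∈ L :=
  rep_invariant _ hL (by rwa [repU_z]) (by rwa [repU_star_z]) g

section
variable {ι : Type*} {A : ι → H →L[ℂ] H}

/-- negative part of a difference -/
noncomputable def NN (A : ι → H →L[ℂ] H) (i j : ι) : H →L[ℂ] H := (A i - A j)⁻

lemma NN_nonneg (i j : ι) : 0 ≤ NN A i j := CFC.negPart_nonneg _
lemma NN_sa (i j : ι) (x y : H) : ⟪NN A i j x, y⟫_ℂ = ⟪x, NN A i j y⟫_ℂ :=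
  ((ContinuousLinearMap.nonneg_iff_isPositive _).1 (NN_nonneg i j)).inner_left_eq_inner_right x y
lemma NN_swap (i j : ι) : NN A j i = (A i - A j)⁺ := by
  rw [NN, ← CFC.negPart_neg, neg_sub]
lemma NN_mul (i j : ι) (x : H) : NN A j i (NN A i j x) = 0 := by
  rw [← ContinuousLinearMap.mul_apply, NN_swap i j, NN, CFC.posPart_mul_negPart]; rfl
lemma NN_sub (hA : ∀ i, IsSelfAdjoint (A i)) (i j : ι) (x : H) :
    NN A j i x - NN A i j x = A i x - A j x := by
  rw [← ContinuousLinearMap.sub_apply, NN_swap i j, NN,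
    CFC.posPart_sub_negPart _ ((hA i).sub (hA j))]; rfl
lemma NN_self (i : ι) : NN A i i = 0 := by simp [NN]
lemma NN_comm {B : H →L[ℂ] H} (h : ∀ i, Commute (A i) B) (i j : ι) : Commute (NN A i j) B :=
  ((h i).sub_left (h j)).cfcₙ_real _
lemma NN_comm2 (h : ∀ i j, Commute (A i) (A j)) (i j k l : ι) :
    Commute (NN A i j) (NN A k l) :=
  NN_comm (fun a => (NN_comm (fun b => h b a) k l).symm) i j

lemma comm_apply {B C : H →L[ℂ] H} (h : Commute B C) (x : H) : B (C x) = C (B x) :=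
  congrArg (fun D : H →L[ℂ] H => D x) h.eq

lemma NN_sq {i j : ι} {x : H} (h : NN A i j (NN A i j x) = 0) : NN A i j x = 0 := by
  rw [← inner_self_eq_zero (𝕜 := ℂ), NN_sa, h, inner_zero_right]

lemma NN_trans (hA : ∀ i, IsSelfAdjoint (A i)) (h : ∀ i j, Commute (A i) (A j)) {i j l : ι}
    {y : H} (h1 : NN A i j y = 0) (h2 : NN A j l y = 0) : NN A i l y = 0 := by
  refine NN_sq ?_
  set w := NN A i l y with hw
  have e1 : NN A i j w = 0 := by rw [hw, comm_apply (NN_comm2 h _ _ _ _), h1, map_zero]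
  have e2 : NN A j l w = 0 := by rw [hw, comm_apply (NN_comm2 h _ _ _ _), h2, map_zero]
  have e3 : NN A l i w = 0 := NN_mul _ _ _
  have f1 := NN_sub hA i j w
  have f2 := NN_sub hA j l w
  have f3 := NN_sub hA i l w
  rw [e1] at f1; rw [e2] at f2; rw [e3] at f3
  have e : NN A i l w = -(NN A j i w + NN A l j w) := by
    linear_combination (norm := abel) f1 + f2 - f3
  have p : ∀ a b, 0 ≤ RCLike.re ⟪NN A i l w, NN A a b w⟫_ℂ := fun a b => by
    rw [NN_sa]
    exact ((ContinuousLinearMap.nonneg_iff_isPositive _).1 (Commute.mul_nonneg (NN_nonneg i l)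
      (NN_nonneg a b) (NN_comm2 h _ _ _ _))).re_inner_nonneg_right w
  have q : ‖NN A i l w‖ ^ 2 ≤ 0 := by
    rw [← inner_self_eq_norm_sq (𝕜 := ℂ)]
    nth_rewrite 2 [e]
    rw [inner_neg_right, inner_add_right, map_neg, map_add]
    linarith [p j i, p l j]
  rw [← norm_eq_zero]
  nlinarith [norm_nonneg (NN A i l w)]

lemma NN_conj (hA : ∀ i, IsSelfAdjoint (A i)) {f : Un H} {i j i' j' : ι}
    (h1 : A i * f.1 = f.1 * A i') (h2 : A j * f.1 = f.1 * A j') (x : H) :
    NN A i j (f.1 x) = f.1 (NN A i' j' x) := by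
  have a : f.1 * star f.1 = 1 := f.2.2
  have b : star f.1 * f.1 = 1 := f.2.1
  have e : (A i' - A j')⁻ = star f.1 * (A i - A j)⁻ * f.1 := by
    refine (CFC.posPart_negPart_unique (b := star f.1 * (A i - A j)⁺ * f.1) ?_ ?_
      (star_left_conjugate_nonneg (CFC.posPart_nonneg _) _)
      (star_left_conjugate_nonneg (CFC.negPart_nonneg _) _)).2
    · rw [← sub_mul, ← mul_sub, CFC.posPart_sub_negPart _ ((hA i).sub (hA j)), mul_assoc,
        sub_mul, h1, h2, ← mul_sub, ← mul_assoc, b, one_mul]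
    · simp only [mul_assoc]
      rw [← mul_assoc f.1, a, one_mul, ← mul_assoc (A i - A j)⁺, CFC.posPart_mul_negPart]
      simp
  rw [NN, NN, e]
  exact (u_self_inv f _).symm

/-- the subspace where `A i` is the largest -/
def LL (A : ι → H →L[ℂ] H) (o : H) (i : ι) : Submodule ℂ H where
  carrier := {x | ⟪o, x⟫_ℂ = 0 ∧ ∀ j, NN A i j x = 0}
  add_mem' := fun ha hb => ⟨by rw [inner_add_right, ha.1, hb.1, add_zero],
    fun j => by rw [map_add, ha.2, hb.2, add_zero]⟩
  zero_mem' := ⟨inner_zero_right _, fun _ => map_zero _⟩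
  smul_mem' := fun c x hx => ⟨by rw [inner_smul_right, hx.1, mul_zero],
    fun j => by rw [map_smul, hx.2, smul_zero]⟩

lemma LL_closed (o : H) (i : ι) : IsClosed (LL A o i : Set H) := by
  change IsClosed {x | ⟪o, x⟫_ℂ = 0 ∧ ∀ j, NN A i j x = 0}
  simp only [ofPred_and, ofPred_forall]
  exact (isClosed_eq (by fun_prop) continuous_const).inter
    (isClosed_iInter fun j => isClosed_eq (by fun_prop) continuous_const)

lemma NN_perp (hA : ∀ i, IsSelfAdjoint (A i)) {o : H} (ho : ∀ i j, A i o = A j o) (i j : ι)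
    (x : H) : ⟪o, NN A i j x⟫_ℂ = 0 := by
  have e := NN_sub hA i j o
  rw [ho i j, sub_self, sub_eq_zero] at e
  have : NN A i j o = 0 := by
    refine NN_sq ?_
    rw [← e, NN_mul]
  rw [← NN_sa, this, inner_zero_left]

lemma LL_orth (hA : ∀ i, IsSelfAdjoint (A i)) (h : ∀ i j, Commute (A i) (A j)) {o : H}
    (ho : ∀ i j, A i o = A j o) {i j : ι}
    (hk : ∀ x, ⟪o, x⟫_ℂ = 0 → A i x = A j x → x = 0) {x y : H} (hx : x ∈ LL A o i)
    (hy : y ∈ LL A o j) : ⟪x, y⟫_ℂ = 0 := by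
  have : CompleteSpace (LL A o j) := (LL_closed o j).completeSpace_coe
  obtain ⟨p, hp, z, hz, rfl⟩ := (LL A o j).exists_add_mem_mem_orthogonal x
  have m : NN A i j (NN A i j p) ∈ LL A o j := ⟨NN_perp hA ho _ _ _, fun l => by
    rw [comm_apply (NN_comm2 h _ _ _ _), comm_apply (NN_comm2 h j l _ _), hp.2]; simp⟩
  have e1 : NN A i j p = 0 := by
    have a := (Submodule.mem_orthogonal' _ _).1 hz _ m
    have b : ⟪p + z, NN A i j (NN A i j p)⟫_ℂ = 0 := by rw [← NN_sa, hx.2, inner_zero_left]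
    rw [inner_add_left, a, add_zero, ← NN_sa] at b
    exact inner_self_eq_zero.1 b
  have e2 : p = 0 := hk p hp.1 (by rw [← sub_eq_zero, ← NN_sub hA, e1, hp.2, sub_zero])
  rw [e2, zero_add]
  exact (Submodule.mem_orthogonal' _ _).1 hz _ hy

lemma LL_total [Fintype ι] [Nonempty ι] (hA : ∀ i, IsSelfAdjoint (A i))
    (h : ∀ i j, Commute (A i) (A j)) {o : H} (ho : ∀ i j, A i o = A j o) {x : H}
    (hx : ⟪o, x⟫_ℂ = 0) (hL : ∀ i, ∀ v ∈ LL A o i, ⟪v, x⟫_ℂ = 0) : x = 0 := by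
  classical
  by_contra h0
  have key : ∀ s : Finset ι, ∃ y, y ≠ 0 ∧ ⟪o, y⟫_ℂ = 0 ∧ (∀ i, ∀ v ∈ LL A o i, ⟪v, y⟫_ℂ = 0) ∧
      ∃ i, ∀ j ∈ s, NN A i j y = 0 := by
    intro s
    induction s using Finset.induction_on with
    | empty => exact ⟨x, h0, hx, hL, Classical.arbitrary _, by simp⟩
    | insert l s _ ih =>
      obtain ⟨y, y0, y1, y2, i, y3⟩ := ih
      by_cases hl : NN A l i y = 0
      · refine ⟨y, y0, y1, y2, l, fun j hj => ?_⟩
        rcases Finset.mem_insert.1 hj with rfl | hj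
        · rw [NN_self]; rfl
        · exact NN_trans hA h hl (y3 j hj)
      · refine ⟨_, hl, NN_perp hA ho _ _ _, fun k v hv => ?_, i, fun j hj => ?_⟩
        · rw [← NN_sa]
          exact y2 k _ ⟨NN_perp hA ho _ _ _, fun j => by
            rw [comm_apply (NN_comm2 h _ _ _ _), hv.2, map_zero]⟩
        · rcases Finset.mem_insert.1 hj with rfl | hj
          · exact NN_mul _ _ _
          · rw [comm_apply (NN_comm2 h _ _ _ _), y3 j hj, map_zero]
  obtain ⟨y, y0, y1, y2, i, y3⟩ := key Finset.univ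
  exact y0 (inner_self_eq_zero.1 (y2 i y ⟨y1, fun j => y3 j (Finset.mem_univ _)⟩))

end

theorem split {n : ℕ} [NeZero n] (o : H) (U f : Un H) (W : ZMod n → Un H) (hU : U.1 o = o)
    (hf : f.1 o = o) (hW : ∀ j, (W j).1 o = o) (cUW : ∀ j, Commute (W j) U)
    (cW : ∀ i j, Commute (W i) (W j)) (cf : ∀ j, W j * f = f * W (j + 1))
    (h1 : ∀ i j, i ≠ j → ∀ x, ⟪o, x⟫_ℂ = 0 → (W i * (W j)⁻¹).1 x = x → x = 0)
    (h2 : ∀ i j, i ≠ j → ∀ x, ⟪o, x⟫_ℂ = 0 → (W i * W j).1 x = x → x = 0) :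
    ∃ L : Submodule ℂ H, IsClosed (L : Set H) ∧ (∀ x ∈ L, ⟪o, x⟫_ℂ = 0) ∧
      (∀ g, ∀ x ∈ L, repU U g x ∈ L) ∧
      (∀ a b : ZMod n, a ≠ b → ∀ x ∈ L, ∀ y ∈ L, ⟪(f ^ a.val).1 x, (f ^ b.val).1 y⟫_ℂ = 0) ∧
      ∀ v, ⟪o, v⟫_ℂ = 0 → (∀ a : ZMod n, ∀ x ∈ L, ⟪(f ^ a.val).1 x, v⟫_ℂ = 0) → v = 0 := by
  let A : ZMod n → H →L[ℂ] H := fun j => (W j).1 + ((W j)⁻¹).1
  have cc : ∀ {a b : Un H}, Commute a b → Commute a.1 b.1 := fun h => congrArg Subtype.val h
  have hA : ∀ i, IsSelfAdjoint (A i) := fun i => IsSelfAdjoint.add_star_self _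
  have cA : ∀ {B : Un H}, (∀ j, Commute (W j) B) → ∀ j, Commute (A j) B.1 := fun h j =>
    (cc (h j)).add_left (cc (h j).inv_left)
  have c2 : ∀ i j, Commute (A i) (A j) := fun i j =>
    (cA (fun k => cW k j) i).add_right (cA (fun k => (cW k j).inv_right) i)
  have ho : ∀ i j, A i o = A j o := fun i j => by
    simp only [A, ContinuousLinearMap.add_apply, hW, u_fix_inv (hW _)]
  have hk : ∀ i j, i ≠ j → ∀ x, ⟪o, x⟫_ℂ = 0 → A i x = A j x → x = 0 := by
    intro i j hij x hx e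
    have fo : (W i * W j).1 o = o := by rw [u_mul, hW, hW]
    set y := x - ((W i * W j)⁻¹).1 x with hy
    have a : (W i).1 y = (W j).1 y := by
      have b1 : W i * (W i * W j)⁻¹ = (W j)⁻¹ := by rw [(cW i j).eq]; group
      have b2 : W j * (W i * W j)⁻¹ = (W i)⁻¹ := by group
      rw [hy, map_sub, map_sub, ← u_mul, ← u_mul, b1, b2]
      simp only [A, ContinuousLinearMap.add_apply] at e
      linear_combination (norm := abel) e
    have y0 := h1 i j hij y (by rw [hy, inner_sub_right, u_perp (u_fix_inv fo), sub_self])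
      (by rw [(cW i j).inv_right.eq, u_mul, a, u_inv_self])
    refine h2 i j hij x hx ?_
    conv_lhs => rw [sub_eq_zero.1 y0, u_self_inv]
  have cfA : ∀ j, A j * f.1 = f.1 * A (j + 1) := fun j => by
    have b : (W j)⁻¹ * f = f * (W (j + 1))⁻¹ := by
      rw [eq_mul_inv_iff_mul_eq, mul_assoc, ← cf, inv_mul_cancel_left]
    simp only [A, add_mul, mul_add]
    exact congrArg₂ _ (congrArg Subtype.val (cf j)) (congrArg Subtype.val b)
  have nf := fun i j => NN_conj hA (cfA i) (cfA j)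
  have up : ∀ k : ℕ, ∀ i, ∀ x ∈ LL A o (i + k), (f ^ k).1 x ∈ LL A o i := by
    intro k
    induction k with
    | zero => intro i x hx; simpa [u_one] using hx
    | succ k ih =>
      intro i x hx
      rw [pow_succ', u_mul]
      have := ih (i + 1) x (by rwa [add_assoc, add_comm 1, ← Nat.cast_succ])
      exact ⟨by rw [u_perp hf, this.1], fun j => by rw [nf, this.2, map_zero]⟩
  have down : ∀ k : ℕ, ∀ i, ∀ x ∈ LL A o i, ((f ^ k)⁻¹).1 x ∈ LL A o (i + k) := by
    intro k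
    induction k with
    | zero => intro i x hx; simpa [u_one] using hx
    | succ k ih =>
      intro i x hx
      rw [pow_succ, mul_inv_rev, u_mul, Nat.cast_succ, ← add_assoc]
      have := ih i x hx
      refine ⟨by rw [u_perp (u_fix_inv hf), this.1], fun j => ?_⟩
      have e := nf (i + k) (j - 1) ((f⁻¹).1 (((f ^ k)⁻¹).1 x))
      rw [u_self_inv, this.2, sub_add_cancel] at e
      rw [← norm_eq_zero, ← u_norm f, ← e, norm_zero]
  have inv : ∀ B : Un H, B.1 o = o → (∀ j, Commute (W j) B) → ∀ x ∈ LL A o 0, B.1 x ∈ LL A o 0 :=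
    fun B b1 b2 x hx => ⟨by rw [u_perp b1, hx.1], fun j => by
      rw [comm_apply (NN_comm (cA b2) _ _), hx.2, map_zero]⟩
  refine ⟨LL A o 0, LL_closed _ _, fun x hx => hx.1, repU_invariant U (LL_closed _ _)
    (inv U hU cUW) (inv _ (u_fix_inv hU) fun j => (cUW j).inv_right), ?_, ?_⟩
  · intro a b hab x hx y hy
    exact LL_orth hA c2 ho (hk (-a) (-b) (by simpa using hab)) (up _ _ x (by simpa using hx))
      (up _ _ y (by simpa using hy))
  · intro v hv hL
    refine LL_total hA c2 ho hv fun i w hw => ?_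
    have := hL (-i) _ (by simpa using down (-i).val i w hw)
    rwa [u_self_inv] at this

end Pool.Agent.Lib.MP_9f219e_an
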