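import Pool.Agent.Lib.MP_9f219e_an.Model

/-!
Inverse limits of finite uniform spaces.
-/

open MeasureTheory Set Filter Topology
open scoped InnerProductSpace ENNReal NNReal ComplexConjugate

namespace Pool.Agent.Lib.MP_9f219e_an

/-- the fraction of points with a property -/
noncomputable def fr {α : Type*} (p : α → Prop) : ℝ := ({a | p a}.ncard : ℝ) / Nat.card α

section
variable {α β : Type*} [Finite α]

lemma fr_nonneg (p : α → Prop) : 0 ≤ fr p := by unfold fr; positivity

lemma fr_mono {p q : α → Prop} (h : ∀ a, p a → q a) : fr p ≤ fr q := by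
  unfold fr
  exact div_le_div_of_nonneg_right (by exact_mod_cast ncard_le_ncard h (toFinite _))
    (by positivity)

lemma fr_or (p q : α → Prop) : fr (fun a => p a ∨ q a) ≤ fr p + fr q := by
  unfold fr
  rw [← add_div]
  gcongr
  exact_mod_cast ncard_union_le {a | p a} {a | q a}

lemma fr_equiv (e : α ≃ β) (p : β → Prop) : fr (fun a => p (e a)) = fr p := by
  unfold fr
  rw [Nat.card_congr e, ← ncard_image_of_injective _ e.injective]
  congr 3
  ext b
  exact ⟨fun ⟨a, h, e⟩ => e ▸ h, fun h => ⟨e.symm b, by simpa using h, by simp⟩⟩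

lemma fr_lens {t : ℕ} (get : α → Fin t) (set : α → Fin t → α) (h1 : ∀ a b, get (set a b) = b)
    (h2 : ∀ a b, set (set a b) (get a) = a) (b : Fin t) : fr (fun a => get a = b) ≤ 1 / t := by
  have key : {a | get a = b}.ncard * t ≤ Nat.card α := by
    have := Nat.card_le_card_of_injective
      (fun x : {a | get a = b} × Fin t => set x.1 x.2) (by
        rintro ⟨⟨a, ha⟩, c⟩ ⟨⟨a', ha'⟩, c'⟩ h
        simp only at h
        obtain rfl : c = c' := by rw [← h1 a c, h, h1]
        have e : get a = get a' := ha.trans ha'.symm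
        obtain rfl : a = a' := by rw [← h2 a c, h, e, h2]
        rfl)
    simpa using this
  have ht : (0 : ℝ) < t := by exact_mod_cast b.pos
  unfold fr
  rcases Nat.eq_zero_or_pos (Nat.card α) with h | h
  · rw [h]; simp
  · rw [div_le_div_iff₀ (by exact_mod_cast h) ht, one_mul]
    exact_mod_cast key

end

variable {Q : ℕ → Type} [∀ m, Fintype (Q m)]

/-- a model of the inverse limit -/
structure IsTower (π : ∀ m, Q (m + 1) → Q m) {Y : Type} [TopologicalSpace Y] [MeasurableSpace Y]
    (ν : Measure Y) (lev : ∀ m, Y → Q m) : Prop where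
  lc : ∀ m, IsLocallyConstant (lev m)
  compat : ∀ m y, π m (lev (m + 1) y) = lev m y
  law : ∀ m q, ν.real {y | lev m y = q} = (Fintype.card (Q m) : ℝ)⁻¹
  sep : ∀ y y', (∀ m, lev m y = lev m y') → y = y'

theorem exists_tower [∀ m, Nonempty (Q m)] (π : ∀ m, Q (m + 1) → Q m)
    (hE : ∀ m, ∃ (D : Type) (E : Q (m + 1) ≃ Q m × D), ∀ q, π m q = (E q).1) :
    ∃ (c : ℕ → ℕ) (ν : Measure (∀ m, Fin (c m))) (lev : ∀ m, (∀ m, Fin (c m)) → Q m),
      IsProbabilityMeasure ν ∧ IsTower π ν lev := by
  classical
  choose D E hE using hE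
  have fD : ∀ m, Finite (D m) := fun m => Finite.of_injective
    (fun d => (E m).symm (Classical.arbitrary _, d)) fun a b h => by simpa using h
  let c : ℕ → ℕ := fun m =>
    Nat.rec (motive := fun _ => ℕ) (Nat.card (Q 0)) (fun m _ => Nat.card (D m)) m
  have nc : ∀ m, Nonempty (Fin (c m)) := fun m => by
    cases m with
    | zero => exact ⟨Finite.equivFin (Q 0) (Classical.arbitrary _)⟩
    | succ m => exact ⟨Finite.equivFin (D m) (E m (Classical.arbitrary _)).2⟩
  let lev : ∀ m, (∀ m, Fin (c m)) → Q m := fun m y => Nat.rec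
    ((Finite.equivFin (Q 0)).symm (y 0))
    (fun m q => (E m).symm (q, (Finite.equivFin (D m)).symm (y (m + 1)))) m
  have l0 : ∀ y, lev 0 y = (Finite.equivFin (Q 0)).symm (y 0) := fun _ => rfl
  have l1 : ∀ m y, lev (m + 1) y =
      (E m).symm (lev m y, (Finite.equivFin (D m)).symm (y (m + 1))) := fun _ _ => rfl
  have a : ∀ m y d, lev m y = lev m d ↔ ∀ l ∈ Finset.range (m + 1), y l = d l := by
    intro m y d
    induction m with
    | zero => simp [l0]
    | succ m ih =>
      rw [Finset.range_add_one, Finset.forall_mem_insert, l1, l1, ← ih]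
      simp [and_comm]
  have b : ∀ m q, ∃ d, lev m d = q := by
    intro m
    induction m with
    | zero => exact fun q => ⟨Function.update (fun l => Classical.arbitrary _) 0
        (Finite.equivFin (Q 0) q), by simp [l0]⟩
    | succ m ih =>
      intro q
      obtain ⟨d, hd⟩ := ih (E m q).1
      refine ⟨Function.update d (m + 1) (Finite.equivFin (D m) (E m q).2), ?_⟩
      rw [l1, (a m _ d).2 fun l hl => Function.update_of_ne (Finset.mem_range.1 hl).ne _ _, hd]
      simp
  have cd : ∀ m, Fintype.card (Q m) = ∏ l ∈ Finset.range (m + 1), c l := by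
    intro m
    induction m with
    | zero => simp [c]
    | succ m ih =>
      rw [Finset.prod_range_succ, ← ih, ← Nat.card_eq_fintype_card, Nat.card_congr (E m),
        Nat.card_prod, Nat.card_eq_fintype_card]
  let u : ∀ m : ℕ, Measure (Fin (c m)) := fun m => ProbabilityTheory.uniformOn univ
  have : ∀ m, IsProbabilityMeasure (u m) := fun m =>
    ProbabilityTheory.instIsProbabilityMeasure_uniformOn_univ
  refine ⟨c, Measure.infinitePi u, lev, inferInstance,
    fun m => ?_, fun m y => by rw [hE, l1]; simp, fun m q => ?_, fun y y' h => ?_⟩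
  · refine (IsLocallyConstant.iff_eventually_eq _).2 fun x => ?_
    simp only [a]
    exact (Finset.eventually_all _).2 fun l _ =>
      ((IsLocallyConstant.iff_continuous _).2 (continuous_apply l)).eventually_eq x
  · obtain ⟨d, rfl⟩ := b m q
    have : {y | lev m y = lev m d} = Set.pi (Finset.range (m + 1)) fun l => {d l} := by
      ext y; simp only [mem_ofPred_eq, a]; rfl
    rw [measureReal_def, this, Measure.infinitePi_pi _ fun _ _ => measurableSet_singleton _, cd]
    simp [u, ProbabilityTheory.uniformOn_univ]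
  · exact funext fun l => (a l y y').1 (h l) l (by simp)

namespace IsTower
variable {π : ∀ m, Q (m + 1) → Q m} {Y : Type} [TopologicalSpace Y] [MeasurableSpace Y]
  {ν : Measure Y} {lev : ∀ m, Y → Q m} (h : IsTower π ν lev)
include h

lemma cont {E : Type*} [TopologicalSpace E] {m : ℕ} (G : Q m → E) :
    Continuous fun y => G (lev m y) := ((h.lc m).comp G).continuous

lemma lev_congr {l m : ℕ} (hl : l ≤ m) {y y' : Y} (e : lev m y = lev m y') :
    lev l y = lev l y' := by
  induction hl with
  | refl => exact e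
  | step _ ih => exact ih (by rw [← h.compat, e, h.compat])

lemma sep' {y y' : Y} (e : ∀ᶠ m in atTop, lev m y = lev m y') : y = y' :=
  h.sep _ _ fun l => by
    obtain ⟨m, h1, h2⟩ := (e.and (eventually_ge_atTop l)).exists
    exact h.lev_congr h2 h1

lemma exists_sec : ∃ s : ∀ m, Q m → Y, ∀ m q, lev m (s m q) = q := by
  have : ∀ m q, ∃ y, lev m y = q := fun m q => by
    have : Nonempty (Q m) := ⟨q⟩
    by_contra h0
    have := h.law m q
    rw [show {y | lev m y = q} = ∅ from eq_empty_of_forall_notMem fun y hy => h0 ⟨y, hy⟩] at this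
    simp [eq_comm] at this
  choose s hs using this
  exact ⟨s, hs⟩

lemma clus {w : ℕ → Y} {x : Y} (hx : MapClusterPt x atTop w) {l : ℕ} {c : Q l}
    (hc : ∀ᶠ m in atTop, lev l (w m) = c) : lev l x = c := by
  obtain ⟨m, h1, h2⟩ := ((hx.frequently ((h.lc l).eventually_eq x)).and_eventually hc).exists
  exact h1.symm.trans h2

variable [CompactSpace Y]

lemma tends {w : ℕ → Y} {y : Y} (hw : ∀ l, ∀ᶠ m in atTop, lev l (w m) = lev l y) :
    Tendsto w atTop (𝓝 y) :=
  tendsto_nhds_of_unique_mapClusterPt fun _ hx => h.sep _ _ fun l => h.clus hx (hw l)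

lemma exists_lim {w : ℕ → Y} (hw : ∀ l, ∃ c, ∀ᶠ m in atTop, lev l (w m) = c) :
    ∃ y, Tendsto w atTop (𝓝 y) := by
  obtain ⟨x, hx⟩ := exists_clusterPt_of_compactSpace (map w atTop)
  refine ⟨x, h.tends fun l => ?_⟩
  obtain ⟨c, hc⟩ := hw l
  rwa [h.clus hx hc]

variable [BorelSpace Y] [IsProbabilityMeasure ν]

lemma meas {m : ℕ} (p : Q m → Prop) : MeasurableSet {y | p (lev m y)} :=
  ((h.lc m) {q | p q}).measurableSet

lemma integral_eq {E : Type*} [NormedAddCommGroup E] [NormedSpace ℝ E] [CompleteSpace E] {m : ℕ}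
    (G : Q m → E) : ∫ y, G (lev m y) ∂ν = (Fintype.card (Q m) : ℝ)⁻¹ • ∑ q, G q := by
  let : MeasurableSpace (Q m) := ⊤
  have hm : Measurable (lev m) := fun s _ => h.meas (· ∈ s)
  rw [← integral_map hm.aemeasurable StronglyMeasurable.of_discrete.aestronglyMeasurable,
    integral_fintype Integrable.of_finite, Finset.smul_sum]
  refine Finset.sum_congr rfl fun q _ => ?_
  rw [map_measureReal_apply hm (measurableSet_singleton q), ← h.law m q]; rfl

lemma integral_perm {E : Type*} [NormedAddCommGroup E] [NormedSpace ℝ E] [CompleteSpace E]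
    {m : ℕ} (G : Q m → E) (g : Equiv.Perm (Q m)) :
    ∫ y, G (g (lev m y)) ∂ν = ∫ y, G (lev m y) ∂ν := by
  rw [h.integral_eq fun q => G (g q), h.integral_eq G, Equiv.sum_comp g G]

lemma real_eq {m : ℕ} (p : Q m → Prop) : ν.real {y | p (lev m y)} = fr p := by
  classical
  rw [← integral_indicator_one (h.meas p)]
  refine (h.integral_eq fun q => if p q then (1 : ℝ) else 0).trans ?_
  rw [fr, Finset.sum_boole, Nat.card_eq_fintype_card, smul_eq_mul, mul_comm, div_eq_mul_inv,
    ← ncard_coe_finset, Finset.coe_filter_univ]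

lemma tail {p : ∀ m, Q (m + 1) → Prop} {a : ℕ → ℝ} (a1 : ∀ m, a (m + 1) ≤ a m / 2)
    (hp : ∀ m, fr (fun q => ¬p m q) ≤ a m / 2) (m : ℕ) :
    ∑' i, ν {y | ¬p (m + i) (lev (m + i + 1) y)} ≤ ENNReal.ofReal (a m) := by
  have a2 : ∀ i, a (m + i) / 2 ≤ a m / 2 / 2 ^ i := fun i => by
    induction i with
    | zero => simp
    | succ i ih =>
      have := a1 (m + i)
      rw [pow_succ, ← div_div, ← add_assoc]
      linarith
  have a0 : ∀ i, 0 ≤ a m / 2 / 2 ^ i := fun i => (fr_nonneg _).trans ((hp _).trans (a2 i))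
  rw [← (hasSum_geometric_two' (a m)).tsum_eq,
    ENNReal.ofReal_tsum_of_nonneg a0 (hasSum_geometric_two' (a m)).summable]
  refine ENNReal.tsum_le_tsum fun i => ?_
  rw [← ofReal_measureReal, h.real_eq fun q => ¬p (m + i) q]
  exact ENNReal.ofReal_le_ofReal ((hp _).trans (a2 i))

lemma ae_good {p : ∀ m, Q (m + 1) → Prop} {a : ℕ → ℝ} (a1 : ∀ m, a (m + 1) ≤ a m / 2)
    (hp : ∀ m, fr (fun q => ¬p m q) ≤ a m / 2) :
    ∀ᵐ y ∂ν, ∀ᶠ m in atTop, p m (lev (m + 1) y) := by
  have := ae_eventually_notMem (ne_top_of_le_ne_top ENNReal.ofReal_ne_top (h.tail a1 hp 0))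
  filter_upwards [this] with y hy
  filter_upwards [hy] with m hm
  rw [not_not] at hm
  have e : ∀ k, k = m → p k (lev (k + 1) y) → p m (lev (m + 1) y) := by rintro _ rfl; exact id
  exact e _ (zero_add m) hm

variable [TopologicalSpace.MetrizableSpace Y]

theorem exists_T (g : ∀ m, Equiv.Perm (Q m))
    (hg : ∀ᵐ y ∂ν, ∀ᶠ m in atTop, π m (g (m + 1) (lev (m + 1) y)) = g m (π m (lev (m + 1) y))) :
    ∃ T, MeasurePreserving T ν ν ∧
      ∀ᵐ y ∂ν, ∀ᶠ m in atTop, lev m (T y) = g m (lev m y) := by
  obtain ⟨s, hs⟩ := h.exists_sec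
  let w : ℕ → Y → Y := fun m y => s m (g m (lev m y))
  have wc : ∀ m, Continuous (w m) := fun m => h.cont fun q => s m (g m q)
  have st : ∀ᵐ y ∂ν, ∀ᶠ k in atTop, ∀ l ≤ k, ∀ m ≥ k, lev l (w m y) = lev l (w k y) := by
    filter_upwards [hg] with y hy
    filter_upwards [eventually_forall_ge_atTop.2 hy] with k hk l hl m hm
    induction hm with
    | refl => rfl
    | step hm ih =>
      refine (h.lev_congr (hl.trans hm) ?_).trans ih
      rw [← h.compat, hs, hs, hk _ hm, h.compat]
  obtain ⟨T, T1, T2⟩ := measurable_limit_of_tendsto_metrizable_ae (μ := ν) (L := atTop)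
    (fun m => (wc m).measurable.aemeasurable) (by
      filter_upwards [st] with y hy
      refine h.exists_lim fun l => ?_
      obtain ⟨k, h1, h2⟩ := (hy.and (eventually_ge_atTop l)).exists
      exact ⟨_, (eventually_ge_atTop k).mono (h1 l h2)⟩)
  refine ⟨T, ⟨T1, ?_⟩, ?_⟩
  · have := Measure.isProbabilityMeasure_map (μ := ν) T1.aemeasurable
    refine ext_of_forall_integral_eq_of_IsFiniteMeasure fun F => ?_
    rw [integral_map T1.aemeasurable F.continuous.aestronglyMeasurable]
    have t1 := tendsto_integral_of_dominated_convergence (μ := ν) (F := fun m y => F (w m y))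
      (f := fun y => F (T y)) (fun _ => ‖F‖)
      (fun m => (F.continuous.comp (wc m)).aestronglyMeasurable) (integrable_const _)
      (fun m => Eventually.of_forall fun y => F.norm_coe_le_norm _)
      (T2.mono fun y hy => (F.continuous.tendsto _).comp hy)
    have t2 := tendsto_integral_of_dominated_convergence (μ := ν)
      (F := fun m y => F (s m (lev m y))) (f := fun y => F y) (fun _ => ‖F‖)
      (fun m => (h.cont fun q => F (s m q)).aestronglyMeasurable) (integrable_const _)
      (fun m => Eventually.of_forall fun y => F.norm_coe_le_norm _)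
      (Eventually.of_forall fun y => (F.continuous.tendsto _).comp (h.tends fun l =>
        (eventually_ge_atTop l).mono fun m hm => h.lev_congr hm (hs _ _)))
    refine tendsto_nhds_unique t1 (t2.congr fun m => ?_)
    exact (h.integral_perm (fun q => F (s m q)) (g m)).symm
  · filter_upwards [st, T2] with y hy ht
    filter_upwards [hy] with k hk
    rw [h.clus ht.mapClusterPt ((eventually_ge_atTop k).mono (hk k le_rfl)), hs]

end IsTower

theorem exists_equiv {X : Type*} [MeasurableSpace X] [StandardBorelSpace X] {μ : Measure X}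
    {T S : X → X} (hT : MeasurePreserving T μ μ) (hS : MeasurePreserving S μ μ)
    (h1 : ∀ᵐ x ∂μ, S (T x) = x) (h2 : ∀ᵐ x ∂μ, T (S x) = x) :
    ∃ e : X ≃ᵐ X, ∀ᵐ x ∂μ, e x = T x := by
  classical
  let w : List Bool → X → X := fun l => l.rec id fun b _ f => f ∘ if b then T else S
  have hw : ∀ l, MeasurePreserving (w l) μ μ := fun l => by
    induction l with
    | nil => exact MeasurePreserving.id μ
    | cons b l ih => cases b; exacts [ih.comp hS, ih.comp hT]
  let A := {x | ∀ l, S (T (w l x)) = w l x ∧ T (S (w l x)) = w l x}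
  have mA : MeasurableSet A := by
    simp only [A, ofPred_forall]
    exact MeasurableSet.iInter fun l => (measurableSet_eq_fun
      (hS.measurable.comp (hT.measurable.comp (hw l).measurable)) (hw l).measurable).inter
      (measurableSet_eq_fun (hT.measurable.comp (hS.measurable.comp (hw l).measurable))
        (hw l).measurable)
  have aA : ∀ᵐ x ∂μ, x ∈ A :=
    ae_all_iff.2 fun l => (hw l).quasiMeasurePreserving.ae (h1.and h2)
  have iT : ∀ x ∈ A, T x ∈ A := fun x hx l => hx (true :: l)
  have iS : ∀ x ∈ A, S x ∈ A := fun x hx l => hx (false :: l)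
  let : DecidablePred (· ∈ A) := Classical.decPred _
  have m1 : Measurable (A.piecewise T id) := Measurable.piecewise mA hT.measurable measurable_id
  have m2 : Measurable (A.piecewise S id) := Measurable.piecewise mA hS.measurable measurable_id
  refine ⟨⟨⟨A.piecewise T id, A.piecewise S id, fun x => ?_, fun x => ?_⟩, m1, m2⟩, ?_⟩
  · by_cases hx : x ∈ A
    · rw [piecewise_eq_of_mem _ _ _ hx, piecewise_eq_of_mem _ _ _ (iT x hx)]; exact (hx []).1
    · simp [hx]
  · by_cases hx : x ∈ A
    · rw [piecewise_eq_of_mem _ _ _ hx, piecewise_eq_of_mem _ _ _ (iS x hx)]; exact (hx []).2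
    · simp [hx]
  · exact aA.mono fun x hx => piecewise_eq_of_mem _ _ _ hx

end Pool.Agent.Lib.MP_9f219e_an
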